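import Pool.Agent.MP_807c24_nt.D57.Spec

/-!
Linear algebra and the product formula.
-/

namespace Pool.Agent.MP_807c24_nt.D57

open Finset Polynomial
open Pool.Agent.MP_807c24_nt.H13 (pn)

namespace Alg

section
variable {K : Type} [CommRing K] (μ : ℕ → K)

/-- The functional as a linear map. -/
noncomputable def lamL : K[X] →ₗ[K] K := lsum fun d => LinearMap.mulRight K (μ d)

theorem lamL_apply (P : K[X]) : lamL μ P = lam μ P := rfl

theorem lam_add (P Q : K[X]) : lam μ (P + Q) = lam μ P + lam μ Q := (lamL μ).map_add P Q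

theorem lam_sub (P Q : K[X]) : lam μ (P - Q) = lam μ P - lam μ Q := (lamL μ).map_sub P Q

theorem lam_zero : lam μ 0 = 0 := (lamL μ).map_zero

theorem lam_smul (c : K) (P : K[X]) : lam μ (c • P) = c * lam μ P := (lamL μ).map_smul c P

theorem lam_C_mul (c : K) (P : K[X]) : lam μ (C c * P) = c * lam μ P := by
  rw [← smul_eq_C_mul, lam_smul]

theorem lam_sum {ι : Type*} (s : Finset ι) (P : ι → K[X]) :
    lam μ (∑ i ∈ s, P i) = ∑ i ∈ s, lam μ (P i) := map_sum (lamL μ) P s

theorem lam_monomial (d : ℕ) (a : K) : lam μ (monomial d a) = a * μ d :=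
  sum_monomial_index a _ (zero_mul _)

theorem lam_X_pow (d : ℕ) : lam μ (X ^ d) = μ d := by
  rw [← monomial_one_right_eq_X_pow, lam_monomial, one_mul]

theorem lam_mul {Z : ℕ} {P Q : K[X]} (hP : P.natDegree < Z) (hQ : Q.natDegree < Z) :
    lam μ (P * Q) = ∑ b : Fin Z, (∑ a : Fin Z, P.coeff a * μ (a + b)) * Q.coeff b := by
  conv_lhs => rw [P.as_sum_range' Z hP, Q.as_sum_range' Z hQ, mul_sum, lam_sum, sum_range]
  refine sum_congr rfl fun b _ => ?_
  rw [sum_mul, lam_sum, sum_range, sum_mul]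
  exact sum_congr rfl fun a _ => by rw [monomial_mul_monomial, lam_monomial]; ring

theorem det_gram {Z : ℕ} (P : Fin Z → K[X]) (h : ∀ i, (P i).natDegree < Z) :
    (Matrix.of fun i j : Fin Z => lam μ (P i * P j)).det =
      (Matrix.of fun i j : Fin Z => (P j).coeff i).det ^ 2 * hank μ Z := by
  have e : (Matrix.of fun i j : Fin Z => lam μ (P i * P j)) =
      (Matrix.of fun i j : Fin Z => (P j).coeff i).transpose *
        (Matrix.of fun i j : Fin Z => μ (i + j)) * Matrix.of fun i j : Fin Z => (P j).coeff i := by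
    ext i j
    simp only [Matrix.of_apply, Matrix.mul_apply, Matrix.transpose_apply, lam_mul μ (h i) (h j)]
  rw [e, Matrix.det_mul, Matrix.det_mul, Matrix.det_transpose, hank]
  ring

theorem Pe_add (L : ℕ) (e e' : ℕ → ℕ) : Pe K L (fun j => e j + e' j) = Pe K L e * Pe K L e' := by
  simp only [Pe, pow_add, prod_mul_distrib]

theorem Pe_monic (L : ℕ) (e : ℕ → ℕ) : (Pe K L e).Monic :=
  monic_prod_of_monic _ _ fun _ _ => (monic_X_sub_C _).pow _

theorem Pe_natDegree [Nontrivial K] (L : ℕ) (e : ℕ → ℕ) : (Pe K L e).natDegree = dg L e := by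
  rw [Pe, natDegree_prod_of_monic _ _ fun _ _ => (monic_X_sub_C _).pow _]
  exact sum_congr rfl fun j _ => by
    rw [(monic_X_sub_C _).natDegree_pow, natDegree_X_sub_C, mul_one]

theorem Pe_mono (L d : ℕ) : Pe K L (mono d) = X ^ d := by
  rw [Pe, prod_eq_single 0 (fun j _ h => by simp [mono, h]) (by simp)]
  simp [mono]

end

theorem dg_add (L : ℕ) (e e' : ℕ → ℕ) : dg L (fun j => e j + e' j) = dg L e + dg L e' :=
  sum_add_distrib

theorem dg_mono (L d : ℕ) : dg L (mono d) = d := by simp [dg, mono]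

theorem prod_perm {Z : ℕ} (g : Fin Z → Fin Z → ℝ) (r : Fin Z → ℝ) (h0 : ∀ i j, 0 ≤ g i j)
    (h : ∀ i j, g i j ≤ r i * r j) (σ : Equiv.Perm (Fin Z)) : ∏ i, g (σ i) i ≤ ∏ i, r i ^ 2 := by
  refine (prod_le_prod (fun i _ => h0 _ _) fun i _ => h _ _).trans_eq ?_
  rw [prod_mul_distrib, Equiv.prod_comp σ r, ← prod_mul_distrib]
  simp only [sq]

theorem log_nat {n : ℕ} {U : Finset ℕ} (h : n.primeFactors ⊆ U) (hU : ∀ p ∈ U, p.Prime) :
    Real.log n = ∑ p ∈ U, padicValNat p n * Real.log p := by
  rw [Real.log_nat_eq_sum_factorization, Finsupp.sum_of_support_subset _ (s := U) h _ (by simp)]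
  exact sum_congr rfl fun p hp => by rw [Nat.factorization_def _ (hU p hp)]

end Alg

theorem gram : GramStmt := by
  intro K _ μ Z P h
  rw [Alg.det_gram μ P fun i => (h i).2.trans_lt i.2,
    Matrix.det_matrixOfPolynomials P (fun i => (h i).2) fun i => (h i).1, one_pow, one_mul]

theorem gramNe : GramNeStmt := by
  intro K _ μ Z ι _ _ P hc h hd h0
  refine hd ?_
  rw [← Matrix.det_submatrix_equiv_self (Fintype.equivFinOfCardEq hc).symm]
  exact (Alg.det_gram μ (fun i => P ((Fintype.equivFinOfCardEq hc).symm i)) fun i => h _).trans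
    (by rw [h0, mul_zero])

theorem detR : DetRStmt := by
  intro Z G r h
  rw [Matrix.det_apply']
  refine (abs_sum_le_sum_abs _ _).trans ((sum_le_card_nsmul _ _ (∏ i, r i ^ 2)
    fun σ _ => ?_).trans_eq (by simp [Fintype.card_perm]))
  rw [abs_mul, ← Int.cast_abs, Int.abs_eq_natAbs, Int.units_natAbs, abs_prod]
  simpa using Alg.prod_perm (fun i j => |G i j|) r (fun _ _ => abs_nonneg _) h σ

theorem detP : DetPStmt := by
  intro p _ Z G r h
  rw [pn, Matrix.det_apply', Rat.cast_sum]
  refine IsUltrametricDist.norm_sum_le_of_forall_le_of_nonneg (by positivity) fun σ _ => ?_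
  rw [Rat.cast_mul, norm_mul, Rat.cast_prod, norm_prod, Rat.cast_intCast]
  exact (mul_le_of_le_one_left (by positivity) (Padic.norm_int_le_one _)).trans
    (Alg.prod_perm (fun i j => pn p (G i j)) r (fun _ _ => norm_nonneg _) h σ)

theorem prodF : ProdStmt := by
  intro x S f x0 hS h
  set U := S ∪ (x.num.natAbs.primeFactors ∪ x.den.primeFactors) with hU
  have pr : ∀ p ∈ U, p.Prime := fun p hp => by
    simp only [hU, mem_union] at hp
    rcases hp with a | a | a
    exacts [hS p a, Nat.prime_of_mem_primeFactors a, Nat.prime_of_mem_primeFactors a]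
  have e : Real.log |(x : ℝ)| = ∑ p ∈ U, padicValRat p x * Real.log p := by
    rw [Rat.cast_def, abs_div, Real.log_div (by simpa using x0) (by simp), Nat.abs_cast,
      ← Int.cast_abs, Int.abs_eq_natAbs, Int.cast_natCast,
      Alg.log_nat (subset_union_left.trans subset_union_right) pr,
      Alg.log_nat (subset_union_right.trans subset_union_right) pr, ← sum_sub_distrib]
    exact sum_congr rfl fun p _ => by
      rw [padicValRat_def, padicValInt, Int.cast_sub, Int.cast_natCast, Int.cast_natCast, sub_mul]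
  rw [e, ← inter_eq_right.2 (subset_union_left : S ⊆ U), ← sum_ite_mem, ← sum_add_distrib]
  refine sum_nonneg fun p hp => ?_
  have := Fact.mk (pr p hp)
  have h1 := h p
  have p0 : (0 : ℝ) < p := Nat.cast_pos.2 (pr p hp).pos
  rw [pn, Padic.eq_padicNorm, padicNorm.eq_zpow_of_nonzero x0, Rat.cast_zpow, Rat.cast_natCast,
    ← Real.log_le_log_iff (zpow_pos p0 _) (by split_ifs <;> positivity), Real.log_zpow,
    apply_ite Real.log, Real.log_exp, Real.log_one, Int.cast_neg] at h1
  linarith

end Pool.Agent.MP_807c24_nt.D57
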