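import Pool.Agent.MP_807c24_nt.D57.Spec
import Pool.Agent.MP_807c24_nt.H13.Large
import Pool.Agent.MP_807c24_nt.H13.Pf
import Pool.Agent.MP_807c24_nt.H13.Class

/-!
The p-adic bound of one linear form from the residue classes, and the bound of the Hankel
determinant from a basis built from thresholds.
-/

namespace Pool.Agent.MP_807c24_nt.D57

open Finset Polynomial
open Pool.Agent.MP_807c24_nt.H13 (pts cf ords Hs pn cls Sc Yw)

namespace Entry

theorem me_symm (L : ℕ) (e : ℕ → ℕ) (k : ℤ) : me L e (hh L - k) = me L e k := by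
  have h1 : hh L - k - (12 * L + 1) = -(k - (12 * L + 1)) := by unfold hh; ring
  have h2 : (hh L - k = 12 * L + 1) ↔ (k = 12 * L + 1) := by unfold hh; omega
  unfold me m0
  rw [h1, abs_neg, Int.natAbs_neg]
  simp only [h2]

theorem me_centre (L : ℕ) (e : ℕ → ℕ) : me L e (12 * L + 1) = 6 - 2 * (e 0 : ℤ) := by
  unfold me m0
  simp

theorem even_total (L : ℕ) (e : ℕ → ℕ) : Even (∑ k ∈ pts (hh L), me L e k) := by
  rw [← ZMod.intCast_eq_zero_iff_even, Int.cast_sum]
  refine Finset.sum_involution (fun k _ => hh L - k) (fun k _ => ?_) (fun k _ h g => h ?_)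
    (fun k hk => ?_) (fun k _ => by ring)
  · rw [me_symm]
    exact CharTwo.add_self_eq_zero _
  · have hk : k = 12 * L + 1 := by
      unfold hh at g
      omega
    rw [hk, me_centre, ZMod.intCast_eq_zero_iff_even]
    exact ⟨3 - e 0, by ring⟩
  · simp only [pts, Finset.mem_Icc] at hk ⊢
    omega

theorem pole {L : ℕ} {e : ℕ → ℕ} {k : ℤ} (h : 0 < me L e k) :
    4 * (L : ℤ) < k ∧ k < 20 * L + 2 := by
  have h1 : |k - (12 * L + 1)| ≤ 8 * L := by
    by_contra g
    unfold me m0 at h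
    rw [if_neg g] at h
    split_ifs at h <;> omega
  rw [abs_le] at h1
  omega

theorem two_A0 {p : ℕ} (hp : 0 < p) (L : ℕ) (e : ℕ → ℕ) :
    2 * A0 L e = -∑ c ∈ Finset.range p, Sc (me L e) (hh L) (4 * L) p c := by
  have e1 : A0 L e = -∑ k ∈ pts (hh L), ∑ i ∈ ords (me L e) k,
      cf (me L e) (hh L) k i * ((i + 1).choose 2 : ℚ) *
        ((-1) ^ (i + 1) * Hs (i + 2) (hh L - k - 4 * L - 1)) := by
    unfold A0
    congr 1
    symm
    refine Finset.sum_nbij' (fun k => hh L - k) (fun k => hh L - k) ?_ ?_ ?_ ?_ ?_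
    · intro k hk
      simp only [pts, Finset.mem_Icc] at hk ⊢
      omega
    · intro k hk
      simp only [pts, Finset.mem_Icc] at hk ⊢
      omega
    · intro k _; simp
    · intro k _; simp
    · intro k hk
      have eo : ords (me L e) (hh L - k) = ords (me L e) k := by unfold ords; rw [me_symm]
      rw [eo]
      refine Finset.sum_congr rfl fun i hi => ?_
      rw [H13.sym (me L e) (hh L) (me_symm L e) (even_total L e) k hk i hi]
      ring
  have e2 : 2 * A0 L e = -∑ k ∈ pts (hh L), ∑ i ∈ ords (me L e) k,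
      cf (me L e) (hh L) k i * ((i + 1).choose 2 : ℚ) * Yw (hh L) (4 * L) k i := by
    rw [two_mul]
    nth_rewrite 2 [e1]
    unfold A0 Yw
    simp only [mul_add, Finset.sum_add_distrib]
    ring
  have hp' : (0 : ℤ) < p := by exact_mod_cast hp
  rw [e2, ← Finset.sum_fiberwise_of_maps_to (g := fun k : ℤ => (k % p).toNat)
    (t := Finset.range p) (fun k _ => by
      have := Int.emod_lt_of_pos k hp'
      have := Int.emod_nonneg k hp'.ne'
      simp only [Finset.mem_range]
      omega)]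
  congr 1
  refine Finset.sum_congr rfl fun c hc => ?_
  unfold Sc cls
  refine Finset.sum_congr (Finset.filter_congr fun k _ => ?_) fun _ _ => rfl
  have h1 := Int.emod_nonneg k hp'.ne'
  have h2 : (c : ℤ) % p = c :=
    Int.emod_eq_of_lt (by positivity) (by exact_mod_cast Finset.mem_range.1 hc)
  rw [Int.dvd_iff_emod_eq_zero, ← Int.emod_eq_emod_iff_emod_sub_eq_zero]
  omega

theorem dg_add (L : ℕ) (e e' : ℕ → ℕ) : dg L (fun j => e j + e' j) = dg L e + dg L e' := by
  unfold dg
  rw [Finset.sum_add_distrib]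

theorem dg_mono (L s : ℕ) : dg L (mono s) = s := by
  unfold dg mono
  rw [Finset.sum_ite_eq']
  simp

theorem mono_add (s t j : ℕ) : mono (s + t) j = mono s j + mono t j := by
  unfold mono
  split_ifs <;> rfl

theorem Pe_add (L : ℕ) (e e' : ℕ → ℕ) :
    Pe ℚ L (fun j => e j + e' j) = Pe ℚ L e * Pe ℚ L e' := by
  unfold Pe
  rw [← Finset.prod_mul_distrib]
  exact Finset.prod_congr rfl fun j _ => pow_add _ _ _

theorem Pe_monic (L : ℕ) (e : ℕ → ℕ) : (Pe ℚ L e).Monic :=
  monic_prod_of_monic _ _ fun _ _ => (monic_X_sub_C _).pow _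

theorem Pe_natDegree (L : ℕ) (e : ℕ → ℕ) : (Pe ℚ L e).natDegree = dg L e := by
  unfold Pe dg
  rw [natDegree_prod_of_monic _ _ fun _ _ => (monic_X_sub_C _).pow _]
  refine Finset.sum_congr rfl fun j _ => ?_
  rw [(monic_X_sub_C _).natDegree_pow, natDegree_X_sub_C, mul_one]

theorem card_lt (Z D : ℕ) : ∑ i : Fin Z, (if (i : ℕ) < D then 1 else 0) ≤ D := by
  rw [Fin.sum_univ_eq_sum_range (fun i => if i < D then 1 else 0), ← Finset.card_filter]
  refine (Finset.card_le_card (t := Finset.range D) fun i hi => ?_).trans (Finset.card_range D).le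
  exact Finset.mem_range.2 (Finset.mem_filter.1 hi).2

theorem sum_u_le (Z U : ℕ) (D : ℕ → ℕ) (u : Fin Z → ℕ) (h1 : ∀ i, u i ≤ U)
    (h2 : ∀ (i : Fin Z) (v : ℕ), v < u i → (i : ℕ) < D v) :
    ∑ i, u i ≤ ∑ v ∈ range U, D v := by
  calc ∑ i, u i ≤ ∑ i : Fin Z, ∑ v ∈ range U, (if (i : ℕ) < D v then 1 else 0) := by
        refine Finset.sum_le_sum fun i _ => ?_
        rw [← Finset.card_filter]
        refine (Finset.card_range (u i)).ge.trans (Finset.card_le_card fun v hv => ?_)
        have := Finset.mem_range.1 hv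
        exact Finset.mem_filter.2 ⟨Finset.mem_range.2 (this.trans_le (h1 i)), h2 i v this⟩
    _ = ∑ v ∈ range U, ∑ i : Fin Z, (if (i : ℕ) < D v then 1 else 0) := Finset.sum_comm
    _ ≤ _ := Finset.sum_le_sum fun v _ => card_lt Z (D v)

end Entry

open Entry

theorem entry : EntryStmt := by
  intro p _ L e y hp2 h H
  have hp : 0 < p := (Fact.out : p.Prime).pos
  have h1 : (1 : ℝ) ≤ p := H13.Large.one_le_p p
  have hh2 : hh L ≤ (p : ℤ) ^ 2 := by unfold hh; exact_mod_cast h
  have hy : (0 : ℝ) ≤ (p : ℝ) ^ y := by positivity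
  have hA : ∀ i : ℕ, 1 ≤ i → pn p (Ai L e i) ≤ (p : ℝ) ^ y := by
    intro i hi
    refine H13.Large.pn_sum_le p _ _ hy fun k hk => ?_
    obtain ⟨k1, k2⟩ := Finset.mem_filter.1 hk
    obtain ⟨_, c2, c3, _⟩ := H13.coef p (me L e) (hh L) k k1 i (Finset.mem_Icc.2 ⟨hi, by omega⟩)
    have h3 : pn p (cf (me L e) (hh L) k i) ≤ (p : ℝ) ^ y := by
      rcases H k with g | ⟨g0, g⟩
      · exact (c2 hh2).trans (zpow_le_zpow_right₀ h1 (by omega))
      · refine (c3 fun k' hk' hne => ?_).trans (one_le_zpow₀ h1 g0)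
        by_contra g'
        have a1 := pole (not_le.1 g')
        have a2 := pole (L := L) (e := e) (k := k) (by omega)
        exact hne (g k' k (Finset.mem_filter.1 hk').2 (by simp) a1.1 a1.2 a2.1 a2.2)
    rw [H13.Class.pn_mul]
    exact (mul_le_of_le_one_right (H13.Class.pn_nonneg _) (H13.Class.pn_nat _)).trans h3
  refine ⟨?_, hA 3 (by norm_num), hA 5 (by norm_num)⟩
  have h2 : pn p (2 * A0 L e) = pn p (A0 L e) := by
    have : pn p ((2 : ℤ) : ℚ) = 1 := H13.Class.pn_unit fun g => hp2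
      ((Nat.prime_dvd_prime_iff_eq Fact.out Nat.prime_two).1 (by exact_mod_cast g))
    rw [H13.Class.pn_mul, show (2 : ℚ) = ((2 : ℤ) : ℚ) from rfl, this, one_mul]
  rw [← h2, two_A0 hp, H13.Class.pn_neg]
  refine H13.Large.pn_sum_le p _ _ hy fun c _ => ?_
  obtain ⟨c1, _, c3⟩ := H13.classB p (me L e) (hh L) (4 * L) c hp2 hh2 (by positivity)
    (fun k _ hk => by
      have := pole hk
      unfold hh
      omega)
  rcases H c with g | ⟨g0, g⟩
  · exact c1.trans (zpow_le_zpow_right₀ h1 g)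
  · refine (c3 fun k k' a1 a2 b1 b2 b3 b4 => g k k' a1 a2 b1 ?_ b3 ?_).trans (one_le_zpow₀ h1 g0)
    · unfold hh at b2; omega
    · unfold hh at b4; omega

theorem thresh (hg : GramStmt) (hd : DetPStmt) : ThreshStmt := by
  intro p _ L μ d a b T U α hR hU hB
  have h1 : (1 : ℝ) ≤ p := H13.Large.one_le_p p
  have hU0 : dg L (α U) = 0 := Finset.sum_eq_zero fun j _ => hU j
  have hex : ∀ i : Fin (18 * L), ∃ u, dg L (α u) ≤ i := fun i => ⟨U, by omega⟩
  set u : Fin (18 * L) → ℕ := fun i => Nat.find (hex i) with hu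
  have u1 : ∀ i, dg L (α (u i)) ≤ i := fun i => Nat.find_spec (hex i)
  have u2 : ∀ i, u i ≤ U := fun i => Nat.find_min' (hex i) (by omega)
  have u3 : ∀ (i : Fin (18 * L)) (v : ℕ), v < u i → (i : ℕ) < dg L (α v) :=
    fun i v hv => not_le.1 (Nat.find_min (hex i) hv)
  set s : Fin (18 * L) → ℕ := fun i => i - dg L (α (u i)) with hs
  have hdg : ∀ i, dg L (fun j => α (u i) j + mono (s i) j) = i := fun i => by
    have := u1 i
    rw [dg_add, dg_mono]
    simp only [hs]
    omega
  rw [← hg ℚ μ (18 * L) (fun i => Pe ℚ L fun j => α (u i) j + mono (s i) j)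
    fun i => ⟨Pe_monic _ _, by rw [Pe_natDegree, hdg]⟩]
  have hq : (1 : ℝ) ≤ √p := Real.one_le_sqrt.2 h1
  have hq2 : √(p : ℝ) ^ 2 = p := Real.sq_sqrt (by positivity)
  refine (hd p (18 * L) _ (fun i => √p ^ (T + u i)) fun i j => ?_).trans ?_
  · have e1 : (fun l => (α (u i) l + mono (s i) l) + (α (u j) l + mono (s j) l)) =
        fun l => α (u i) l + α (u j) l + mono (s i + s j) l := by
      funext l
      rw [mono_add]
      ring
    have e2 : dg L (fun l => α (u i) l + α (u j) l + mono (s i + s j) l) ≤ 36 * L := by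
      rw [← e1, dg_add, hdg, hdg]
      have := i.2
      have := j.2
      omega
    rw [Matrix.of_apply, ← Pe_add, e1, hR _ e2]
    obtain ⟨b1, b2, b3⟩ := hB (u i) (u j) (s i + s j)
    have key : ∀ (z : ℤ) (x : ℚ), pn p x ≤ (p : ℝ) ^ ((2 * T + u i + u j) / 2) →
        pn p (z * x) ≤ √p ^ (T + u i) * √p ^ (T + u j) := by
      intro z x hx
      rw [H13.Class.pn_mul]
      refine (mul_le_of_le_one_left (H13.Class.pn_nonneg _) (H13.Class.pn_int _)).trans
        (hx.trans ?_)
      rw [← pow_add]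
      nth_rewrite 1 [← hq2]
      rw [← pow_mul]
      exact pow_le_pow_right₀ hq (by omega)
    exact H13.Class.pn_add (H13.Class.pn_add (key _ _ b1) (key _ _ b2)) (key _ _ b3)
  · have e3 : ∀ i, (√(p : ℝ) ^ (T + u i)) ^ 2 = (p : ℝ) ^ (T + u i) := fun i => by
      rw [← pow_mul, mul_comm, pow_mul, hq2]
    simp only [e3]
    rw [Finset.prod_pow_eq_pow_sum]
    refine pow_le_pow_right₀ h1 ?_
    rw [Finset.sum_add_distrib, Finset.sum_const, Finset.card_univ, Fintype.card_fin, smul_eq_mul]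
    exact Nat.add_le_add_left (sum_u_le _ U (fun v => dg L (α v)) u u2 u3) _

end Pool.Agent.MP_807c24_nt.D57
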