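import Pool.Agent.MP_807c24_nt.D57.Spec
import Pool.Agent.MP_807c24_nt.H13.Small
import Pool.Agent.MP_807c24_nt.H13.Pf

/-!
The functional on block products is the linear form, and is bounded by the size on the ray.
-/

namespace Pool.Agent.MP_807c24_nt.D57

open Finset Filter Topology Polynomial
open Pool.Agent.MP_807c24_nt.H13 (pts cf ords Hs zr)
open Pool.Agent.MP_807c24_nt.H13.Small (mem_ords tail_eq)

noncomputable section

namespace Link

lemma Icc_succ (c : ℤ) (n : ℕ) : Finset.Icc (c - (n + 1 : ℕ)) (c + (n + 1 : ℕ)) =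
    insert (c + (n + 1 : ℕ)) (insert (c - (n + 1 : ℕ)) (Finset.Icc (c - n) (c + n))) := by
  ext k
  simp only [Finset.mem_Icc, Finset.mem_insert]
  omega

lemma prod_sym {M : Type} [CommMonoid M] (f : ℤ → M) (c : ℤ) (n : ℕ) :
    ∏ k ∈ Finset.Icc (c - n) (c + n), f k =
      (∏ j ∈ range n, (f (c + (j + 1 : ℕ)) * f (c - (j + 1 : ℕ)))) * f c := by
  induction n with
  | zero => simp
  | succ n ih =>
    rw [Icc_succ, prod_insert (by simp only [Finset.mem_Icc, Finset.mem_insert]; omega),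
      prod_insert (by simp only [Finset.mem_Icc]; omega), ih, prod_range_succ]
    ac_rfl

lemma sum_sym (f : ℤ → ℤ) (c : ℤ) (n : ℕ) :
    ∑ k ∈ Finset.Icc (c - n) (c + n), f k =
      (∑ j ∈ range n, (f (c + (j + 1 : ℕ)) + f (c - (j + 1 : ℕ)))) + f c := by
  induction n with
  | zero => simp
  | succ n ih =>
    rw [Icc_succ, sum_insert (by simp only [Finset.mem_Icc, Finset.mem_insert]; omega),
      sum_insert (by simp only [Finset.mem_Icc]; omega), ih, sum_range_succ]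
    ring

lemma pts_eq (L : ℕ) : pts (hh L) =
    Finset.Icc ((12 * L + 1 : ℤ) - (12 * L : ℕ)) ((12 * L + 1 : ℤ) + (12 * L : ℕ)) := by
  unfold pts hh
  congr 1 <;> push_cast <;> ring

/-- The exponent of the block product at a point. -/
def ex (L : ℕ) (e : ℕ → ℕ) (k : ℤ) : ℕ :=
  if k = 12 * L + 1 then 2 * e 0 else e (k - (12 * L + 1)).natAbs

lemma me_eq (L : ℕ) (e : ℕ → ℕ) (k : ℤ) : me L e k = m0 L k - ex L e k := by
  unfold me ex
  split_ifs <;> simp

lemma ex_mid (L : ℕ) (e : ℕ → ℕ) : ex L e (12 * L + 1) = 2 * e 0 := if_pos rfl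

lemma ex_add (L : ℕ) (e : ℕ → ℕ) (j : ℕ) : ex L e (12 * L + 1 + (j + 1 : ℕ)) = e (j + 1) := by
  unfold ex
  rw [if_neg (by omega)]
  congr 1
  omega

lemma ex_sub (L : ℕ) (e : ℕ → ℕ) (j : ℕ) : ex L e (12 * L + 1 - (j + 1 : ℕ)) = e (j + 1) := by
  unfold ex
  rw [if_neg (by omega)]
  congr 1
  omega

lemma m0_cases (L : ℕ) (k : ℤ) : (4 * (L : ℤ) < k ∧ k < 20 * L + 2 ∧ m0 L k = 6) ∨
    ((k ≤ 4 * (L : ℤ) ∨ 20 * (L : ℤ) + 2 ≤ k) ∧ 1 ≤ k ∧ k ≤ 24 * L + 1 ∧ m0 L k = -3) ∨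
    ((k < 1 ∨ 24 * (L : ℤ) + 1 < k) ∧ m0 L k = 0) := by
  unfold m0
  simp only [abs_le]
  split_ifs <;> omega

lemma sum_m0 (L : ℕ) : ∑ k ∈ pts (hh L), m0 L k = 72 * L + 6 := by
  rw [pts_eq, sum_sym, show 12 * L = 8 * L + 4 * L by ring, sum_range_add]
  have h1 : ∀ j ∈ range (8 * L), m0 L (12 * L + 1 + (j + 1 : ℕ)) +
      m0 L (12 * L + 1 - (j + 1 : ℕ)) = 12 := by
    intro j hj
    have := mem_range.1 hj
    have := m0_cases L (12 * L + 1 + (j + 1 : ℕ))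
    have := m0_cases L (12 * L + 1 - (j + 1 : ℕ))
    omega
  have h2 : ∀ j ∈ range (4 * L), m0 L (12 * L + 1 + (8 * L + j + 1 : ℕ)) +
      m0 L (12 * L + 1 - (8 * L + j + 1 : ℕ)) = -6 := by
    intro j hj
    have := mem_range.1 hj
    have := m0_cases L (12 * L + 1 + (8 * L + j + 1 : ℕ))
    have := m0_cases L (12 * L + 1 - (8 * L + j + 1 : ℕ))
    omega
  have h3 := m0_cases L (12 * L + 1)
  rw [sum_congr rfl h1, sum_congr rfl h2, sum_const, sum_const, card_range, card_range,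
    nsmul_eq_mul, nsmul_eq_mul]
  push_cast
  omega

lemma sum_me (L : ℕ) (e : ℕ → ℕ) : ∑ k ∈ pts (hh L), me L e k = 72 * L + 6 - 2 * dg L e := by
  simp only [me_eq]
  rw [sum_sub_distrib, sum_m0, pts_eq, sum_sym, dg, sum_range_succ']
  simp only [ex_mid, ex_add, ex_sub, ← two_mul]
  rw [← mul_sum]
  push_cast
  ring

lemma me_symm (L : ℕ) (e : ℕ → ℕ) (k : ℤ) : me L e (hh L - k) = me L e k := by
  unfold me m0
  have h1 : hh L - k - (12 * L + 1) = -(k - (12 * L + 1)) := by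
    unfold hh
    ring
  have h2 : hh L - k = 12 * L + 1 ↔ k = 12 * L + 1 := by
    unfold hh
    omega
  simp only [h1, h2, abs_neg, Int.natAbs_neg]

lemma me_le (L : ℕ) (e : ℕ → ℕ) (k : ℤ) : me L e k ≤ 6 := by
  have := me_eq L e k
  have := m0_cases L k
  omega

lemma pole_gt (L : ℕ) (e : ℕ → ℕ) (k : ℤ) (h : 0 < me L e k) : 4 * (L : ℤ) < k := by
  have := me_eq L e k
  have := m0_cases L k
  omega

lemma me_three (L : ℕ) (e : ℕ → ℕ) (k : ℤ) (h1 : 0 < k) (h2 : k ≤ 4 * L) : me L e k ≤ -3 := by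
  have := me_eq L e k
  have := m0_cases L k
  omega

lemma Hs_split (s L : ℕ) (k : ℤ) (hk : 4 * (L : ℤ) < k) :
    Hs s (k - 1) = Hs s (k - 4 * L - 1) +
      ∑ k0 ∈ Finset.Ioc (0 : ℤ) (4 * L), 1 / ((k - k0 : ℤ) : ℚ) ^ s := by
  unfold Hs
  have h : Finset.Icc (1 : ℤ) (k - 1) =
      Finset.Icc (1 : ℤ) (k - 4 * L - 1) ∪ Finset.Icc (k - 4 * L) (k - 1) := by
    ext l
    simp only [Finset.mem_Icc, Finset.mem_union]
    omega
  rw [h, Finset.sum_union]
  · congr 1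
    refine Finset.sum_bij' (fun l _ => k - l) (fun l _ => k - l) ?_ ?_ ?_ ?_ ?_
    · intro l hl
      simp only [Finset.mem_Icc, Finset.mem_Ioc] at hl ⊢
      omega
    · intro l hl
      simp only [Finset.mem_Icc, Finset.mem_Ioc] at hl ⊢
      omega
    · intro l _
      simp
    · intro l _
      simp
    · intro l _
      simp
  · rw [Finset.disjoint_left]
    intro l h1 h2
    simp only [Finset.mem_Icc] at h1 h2
    omega

lemma three_le {L : ℕ} {e : ℕ → ℕ} (he : dg L e ≤ 36 * L) : 3 ≤ ∑ k ∈ pts (hh L), me L e k := by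
  rw [sum_me]
  omega

lemma harm_eq {L : ℕ} {e : ℕ → ℕ} (he : dg L e ≤ 36 * L) :
    ∑ k ∈ pts (hh L), ∑ i ∈ ords (me L e) k,
      cf (me L e) (hh L) k i * ((i + 1).choose 2 : ℚ) * Hs (i + 2) (k - 1) = -A0 L e := by
  obtain ⟨-, -, hc⟩ := H13.pf (me L e) (hh L) (three_le he)
  have h1 : ∑ k ∈ pts (hh L), ∑ i ∈ ords (me L e) k,
      cf (me L e) (hh L) k i * ((i + 1).choose 2 : ℚ) * Hs (i + 2) (k - 1) =
      ∑ k ∈ pts (hh L), ∑ i ∈ ords (me L e) k,
        (cf (me L e) (hh L) k i * ((i + 1).choose 2 : ℚ) * Hs (i + 2) (k - 4 * L - 1) +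
          ∑ k0 ∈ Finset.Ioc (0 : ℤ) (4 * L),
            cf (me L e) (hh L) k i * ((i + 1).choose 2 : ℚ) / ((k - k0 : ℤ) : ℚ) ^ (i + 2)) := by
    refine Finset.sum_congr rfl fun k _ => Finset.sum_congr rfl fun i hi => ?_
    have hi' := mem_ords.1 hi
    rw [Hs_split _ L k (pole_gt L e k (by omega)), mul_add, Finset.mul_sum]
    congr 1
    refine Finset.sum_congr rfl fun k0 _ => ?_
    ring
  rw [h1]
  simp only [Finset.sum_add_distrib]
  have h2 : ∑ k ∈ pts (hh L), ∑ i ∈ ords (me L e) k, ∑ k0 ∈ Finset.Ioc (0 : ℤ) (4 * L),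
      cf (me L e) (hh L) k i * ((i + 1).choose 2 : ℚ) / ((k - k0 : ℤ) : ℚ) ^ (i + 2) = 0 := by
    have h3 : ∀ k ∈ pts (hh L), ∑ i ∈ ords (me L e) k, ∑ k0 ∈ Finset.Ioc (0 : ℤ) (4 * L),
          cf (me L e) (hh L) k i * ((i + 1).choose 2 : ℚ) / ((k - k0 : ℤ) : ℚ) ^ (i + 2) =
        ∑ k0 ∈ Finset.Ioc (0 : ℤ) (4 * L), ∑ i ∈ ords (me L e) k,
          cf (me L e) (hh L) k i * ((i + 1).choose 2 : ℚ) / ((k - k0 : ℤ) : ℚ) ^ (i + 2) :=
      fun k _ => Finset.sum_comm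
    rw [Finset.sum_congr rfl h3, Finset.sum_comm]
    refine Finset.sum_eq_zero fun k0 hk0 => ?_
    rw [Finset.mem_Ioc] at hk0
    refine hc k0 ?_ (me_three L e k0 hk0.1 hk0.2)
    simp only [pts, hh, Finset.mem_Icc]
    omega
  rw [h2, A0]
  ring

lemma ai_one {L : ℕ} {e : ℕ → ℕ} (he : dg L e ≤ 36 * L) : Ai L e 1 = 0 := by
  obtain ⟨-, hb, -⟩ := H13.pf (me L e) (hh L) (three_le he)
  unfold Ai
  simpa using hb

lemma ai_even (L : ℕ) (e : ℕ → ℕ) (i : ℕ) (hi : 1 ≤ i) (he : Even i) : Ai L e i = 0 := by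
  have hsym := H13.sym (me L e) (hh L) (me_symm L e)
    (by rw [sum_me]; exact ⟨36 * L + 3 - dg L e, by ring⟩)
  have h : Ai L e i = -Ai L e i := by
    unfold Ai
    rw [← Finset.sum_neg_distrib]
    refine Finset.sum_bij' (fun k _ => hh L - k) (fun k _ => hh L - k) ?_ ?_ ?_ ?_ ?_
    · intro k hk
      simp only [Finset.mem_filter, pts, Finset.mem_Icc, me_symm] at hk ⊢
      omega
    · intro k hk
      simp only [Finset.mem_filter, pts, Finset.mem_Icc, me_symm] at hk ⊢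
      omega
    · intro k _
      simp
    · intro k _
      simp
    · intro k hk
      rw [Finset.mem_filter] at hk
      rw [hsym k hk.1 i (mem_ords.2 ⟨hi, hk.2⟩), pow_succ, he.neg_one_pow]
      ring
  linarith

lemma zeta_part (L : ℕ) (e : ℕ → ℕ) :
    ∑ k ∈ pts (hh L), ∑ i ∈ ords (me L e) k,
      (cf (me L e) (hh L) k i : ℝ) * ((i + 1).choose 2 : ℝ) * zr (i + 2) =
      ∑ i ∈ Finset.Icc 1 6, (Ai L e i : ℝ) * zr (i + 2) := by
  have h1 : ∀ i ∈ Finset.Icc 1 6, (Ai L e i : ℝ) * zr (i + 2) =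
      ∑ k ∈ (pts (hh L)).filter (fun k => (i : ℤ) ≤ me L e k),
        (cf (me L e) (hh L) k i : ℝ) * ((i + 1).choose 2 : ℝ) * zr (i + 2) := by
    intro i _
    unfold Ai
    push_cast
    rw [Finset.sum_mul]
  rw [Finset.sum_congr rfl h1]
  refine Finset.sum_comm' ?_
  intro k i
  have := me_le L e k
  simp only [mem_ords, Finset.mem_filter, Finset.mem_Icc]
  constructor
  · rintro ⟨h1, h2, h3⟩
    exact ⟨⟨h1, h3⟩, h2, by omega⟩
  · rintro ⟨⟨h1, h3⟩, h2, _⟩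
    exact ⟨h1, h2, h3⟩

lemma form_eq {L : ℕ} {e : ℕ → ℕ} (he : dg L e ≤ 36 * L) :
    ∑ k ∈ pts (hh L), ∑ i ∈ ords (me L e) k,
      (cf (me L e) (hh L) k i : ℝ) * ((i + 1).choose 2 : ℝ) *
        ∑' ν : ℕ, 1 / ((ν : ℝ) + 1 + ((k - 1).toNat : ℕ)) ^ (i + 2) = form L e := by
  have h1 : ∑ k ∈ pts (hh L), ∑ i ∈ ords (me L e) k,
      (cf (me L e) (hh L) k i : ℝ) * ((i + 1).choose 2 : ℝ) *
        ∑' ν : ℕ, 1 / ((ν : ℝ) + 1 + ((k - 1).toNat : ℕ)) ^ (i + 2) =
      ∑ k ∈ pts (hh L), ∑ i ∈ ords (me L e) k,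
        ((cf (me L e) (hh L) k i : ℝ) * ((i + 1).choose 2 : ℝ) * zr (i + 2) -
          ((cf (me L e) (hh L) k i * ((i + 1).choose 2 : ℚ) * Hs (i + 2) (k - 1) : ℚ) : ℝ)) := by
    refine Finset.sum_congr rfl fun k _ => Finset.sum_congr rfl fun i hi => ?_
    have hi' := mem_ords.1 hi
    have hk := pole_gt L e k (by omega)
    rw [tail_eq _ _ (by omega), Int.toNat_of_nonneg (by omega)]
    push_cast
    ring
  rw [h1]
  simp only [Finset.sum_sub_distrib]
  rw [zeta_part]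
  have h2 := congrArg (fun x : ℚ => (x : ℝ)) (harm_eq he)
  simp only [Rat.cast_sum] at h2
  rw [h2]
  have h3 : Finset.Icc 1 6 = ({1, 2, 3, 4, 5, 6} : Finset ℕ) := by decide
  rw [h3]
  simp only [Finset.mem_insert, Finset.mem_singleton, Finset.sum_insert, Finset.sum_singleton,
    not_false_eq_true, Nat.reduceEqDiff, or_self]
  rw [ai_one he, ai_even L e 2 (by norm_num) (by decide),
    ai_even L e 4 (by norm_num) (by decide), ai_even L e 6 (by norm_num) (by decide), form]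
  push_cast
  ring

lemma tt_ne (y : ℝ) (k : ℤ) : tt y + k ≠ 0 := by
  intro h0
  have h1 := congrArg Complex.re h0
  have h2 := congrArg Complex.im h0
  simp [tt] at h1 h2
  have h3 : ((2 * k - 1 : ℤ) : ℝ) = 0 := by
    push_cast
    linarith
  have h4 : (2 * k - 1 : ℤ) = 0 := by exact_mod_cast h3
  omega

lemma aeval_Pe (L : ℕ) (e : ℕ → ℕ) (y : ℝ) :
    aeval (vv L y ^ 2) (Pe ℝ L e) = ∏ k ∈ pts (hh L), (tt y + k) ^ ex L e k := by
  rw [pts_eq, prod_sym, Pe, map_prod, prod_range_succ']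
  simp only [ex_mid, ex_add, ex_sub, ← mul_pow, map_pow, map_sub, aeval_X, aeval_C, pow_mul]
  congr 1
  · refine prod_congr rfl fun j _ => ?_
    congr 1
    simp only [vv, Complex.coe_algebraMap]
    push_cast
    ring
  · congr 1
    simp [vv]

lemma ray_eq {L : ℕ} {e : ℕ → ℕ} (he : dg L e ≤ 36 * L) (y : ℝ) :
    ∑ k ∈ pts (hh L), ∑ i ∈ ords (me L e) k, (cf (me L e) (hh L) k i : ℂ) /
      (1 / 2 + ((k - 1).toNat : ℕ) + y * (1 + Complex.I)) ^ i =
      2 * vv L y * Rp L y * aeval (vv L y ^ 2) (Pe ℝ L e) := by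
  obtain ⟨ha, -, -⟩ := H13.pf (me L e) (hh L) (three_le he)
  have h1 := ha (tt y) fun k _ => tt_ne y k
  have h2 : ∏ k ∈ pts (hh L), (tt y + k) ^ (-(me L e k)) =
      Rp L y * aeval (vv L y ^ 2) (Pe ℝ L e) := by
    rw [aeval_Pe, Rp, ← prod_mul_distrib]
    refine prod_congr rfl fun k _ => ?_
    rw [me_eq, ← zpow_natCast, ← zpow_add₀ (tt_ne y k)]
    congr 1
    ring
  have h3 : 2 * tt y + (hh L : ℤ) = 2 * vv L y := by
    simp only [vv, hh]
    push_cast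
    ring
  rw [h2, h3, ← mul_assoc] at h1
  rw [h1]
  refine Finset.sum_congr rfl fun k _ => Finset.sum_congr rfl fun i hi => ?_
  have hi' := mem_ords.1 hi
  have hk := pole_gt L e k (by omega)
  have h4 : (((k - 1).toNat : ℕ) : ℂ) = (k : ℂ) - 1 := by
    have h5 : (((k - 1).toNat : ℕ) : ℤ) = k - 1 := Int.toNat_of_nonneg (by omega)
    have h6 := congrArg (fun x : ℤ => (x : ℂ)) h5
    simpa using h6
  rw [h4, tt]
  congr 2
  ring

lemma key (h : RayStmt) : ∃ C₀ : ℝ, 0 < C₀ ∧ ∀ (L : ℕ) (ι : Type) (D : Finset ι) (w : ι → ℝ)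
    (E : ι → ℕ → ℕ) (B : ℝ), (∀ d ∈ D, dg L (E d) ≤ 36 * L) →
    (∀ y : ℝ, 0 ≤ y → ‖2 * vv L y * Rp L y * aeval (vv L y ^ 2)
      (∑ d ∈ D, C (w d) * Pe ℝ L (E d))‖ ≤ B * Real.exp (6281 / 1000 * y)) →
    |∑ d ∈ D, w d * form L (E d)| ≤ C₀ * B := by
  obtain ⟨C₀, hC, hc⟩ := h
  refine ⟨C₀, hC, fun L ι D w E B hE hB => ?_⟩
  have k1 := hc ((_ : ι) × (_ : ℤ) × ℕ)
    (D.sigma fun d => (pts (hh L)).sigma fun k => ords (me L (E d)) k)
    (fun j => (j.2.1 - 1).toNat) (fun j => j.2.2)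
    (fun j => w j.1 * (cf (me L (E j.1)) (hh L) j.2.1 j.2.2 : ℝ)) B ?_ ?_
  · refine le_trans (le_of_eq ?_) k1
    congr 1
    rw [Finset.sum_sigma]
    refine Finset.sum_congr rfl fun d hd => ?_
    rw [Finset.sum_sigma, ← form_eq (hE d hd), Finset.mul_sum]
    refine Finset.sum_congr rfl fun k _ => ?_
    rw [Finset.mul_sum]
    refine Finset.sum_congr rfl fun i _ => ?_
    simp only [mul_assoc]
  · intro j hj
    exact (mem_ords.1 (Finset.mem_sigma.1 (Finset.mem_sigma.1 hj).2).2).1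
  · intro y hy
    refine le_trans (le_of_eq ?_) (hB y hy)
    congr 1
    rw [Finset.sum_sigma, map_sum, Finset.mul_sum]
    refine Finset.sum_congr rfl fun d hd => ?_
    rw [Finset.sum_sigma, map_mul, aeval_C, mul_left_comm, ← ray_eq (hE d hd), Finset.mul_sum]
    refine Finset.sum_congr rfl fun k _ => ?_
    rw [Finset.mul_sum]
    refine Finset.sum_congr rfl fun i _ => ?_
    simp only [Complex.coe_algebraMap]
    push_cast
    ring

lemma dg_mono (L d : ℕ) : dg L (mono d) = d := by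
  simp [dg, mono]

lemma Pe_mono (L d : ℕ) : Pe ℝ L (mono d) = X ^ d := by
  rw [Pe, prod_range_succ']
  simp [mono]

lemma sum_mono (L : ℕ) (P : ℝ[X]) : ∑ d ∈ P.support, C (P.coeff d) * Pe ℝ L (mono d) = P := by
  simp only [Pe_mono]
  exact (as_sum_support_C_mul_X_pow P).symm

lemma natDegree_Pe (L : ℕ) (e : ℕ → ℕ) : (Pe ℝ L e).natDegree ≤ dg L e := by
  refine (natDegree_prod_le _ _).trans (sum_le_sum fun j _ => natDegree_pow_le.trans ?_)
  rw [natDegree_X_sub_C, mul_one]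

end Link

open Link in
theorem bound (h : RayStmt) : BoundStmt := by
  obtain ⟨C₀, hC, hc⟩ := key h
  refine ⟨C₀, hC, fun L P B _ hP hB => hc L ℕ P.support P.coeff mono B (fun d hd => ?_) ?_⟩
  · rw [dg_mono]
    exact (le_natDegree_of_mem_supp d hd).trans hP
  · rwa [sum_mono]

open Link in
theorem link (h : RayStmt) : LinkStmt := by
  obtain ⟨C₀, -, hc⟩ := key h
  intro L e _ he
  have k1 := hc L (Option ℕ) (Finset.insertNone (Pe ℝ L e).support)
    (fun o => o.elim (-1) (Pe ℝ L e).coeff) (fun o => o.elim e mono) 0 ?_ ?_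
  · rw [Finset.sum_insertNone, mul_zero, abs_nonpos_iff] at k1
    simp only [Option.elim] at k1
    have k2 : lam (mom L) (Pe ℝ L e) =
      ∑ d ∈ (Pe ℝ L e).support, (Pe ℝ L e).coeff d * form L (mono d) := rfl
    linarith
  · rintro (_ | d) hd
    · exact he
    · show dg L (mono d) ≤ _
      rw [dg_mono]
      exact (le_natDegree_of_mem_supp d (Finset.some_mem_insertNone.1 hd)).trans
        ((natDegree_Pe L e).trans he)
  · intro y _
    rw [Finset.sum_insertNone]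
    simp only [Option.elim]
    rw [sum_mono]
    simp

end

end Pool.Agent.MP_807c24_nt.D57
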