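import Pool.Agent.MP_807c24_nt.D57.Spec

/-!
Bounds for the medium and the large primes.
-/

namespace Pool.Agent.MP_807c24_nt.D57

open Finset
open Pool.Agent.MP_807c24_nt.H13 (pts pn cls)

namespace Medium

/-- The multiplicity of a residue class. -/
noncomputable def M (L p : ℕ) (c : ℤ) : ℤ := ∑ k ∈ cls (hh L) p c, m0 L k

lemma mem_cls {L p : ℕ} {c k : ℤ} :
    k ∈ cls (hh L) p c ↔ (1 ≤ k ∧ k ≤ 24 * L + 1) ∧ (p : ℤ) ∣ k - c := by
  simp only [cls, pts, hh, mem_filter, mem_Icc]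
  constructor <;> exact fun h => ⟨⟨h.1.1, by linarith [h.1.2]⟩, h.2⟩

lemma M_congr {L p : ℕ} {c c' : ℤ} (h : (p : ℤ) ∣ c - c') : M L p c = M L p c' := by
  refine sum_congr (Finset.ext fun k => ?_) fun _ _ => rfl
  rw [mem_cls, mem_cls]
  refine and_congr_right fun _ => ⟨fun e => ?_, fun e => ?_⟩
  · simpa using dvd_add e h
  · simpa using dvd_sub e h

lemma M_symm (L p : ℕ) (v : ℤ) : M L p (12 * L + 1 - v) = M L p (12 * L + 1 + v) := by
  refine sum_nbij' (fun k => 24 * L + 2 - k) (fun k => 24 * L + 2 - k) (fun k h => ?_)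
    (fun k h => ?_) (fun k _ => by ring) (fun k _ => by ring) fun k _ => ?_
  · obtain ⟨a, t, b⟩ := mem_cls.1 h
    exact mem_cls.2 ⟨by omega, -t, by linarith⟩
  · obtain ⟨a, t, b⟩ := mem_cls.1 h
    exact mem_cls.2 ⟨by omega, -t, by linarith⟩
  · unfold m0
    rw [show (24 * L + 2 - k - (12 * L + 1) : ℤ) = -(k - (12 * L + 1)) by ring, abs_neg]

lemma m0_le (L : ℕ) (k : ℤ) : m0 L k ≤ if 4 * (L : ℤ) < k ∧ k < 20 * L + 2 then 6 else 0 := by
  unfold m0
  simp only [abs_le]
  split_ifs <;> omega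

/-- A class is bounded through any set that holds its middle points. -/
lemma M_le {L p : ℕ} {c : ℤ} (s : Finset ℤ)
    (h : ∀ k, (p : ℤ) ∣ k - c → 4 * (L : ℤ) < k → k < 20 * L + 2 → k ∈ s) :
    M L p c ≤ 6 * s.card := by
  refine (sum_le_sum fun k _ => m0_le L k).trans ?_
  rw [← sum_filter, sum_const, nsmul_eq_mul, mul_comm]
  refine mul_le_mul_of_nonneg_left (Int.ofNat_le.2 (card_le_card fun k hk => ?_)) (by norm_num)
  obtain ⟨a, b, d⟩ := mem_filter.1 hk
  exact h k (mem_cls.1 a).2 b d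

/-- The exponent at one point of the class is saved. -/
lemma me_le {L p : ℕ} {c k : ℤ} (e : ℕ → ℕ) (hk : k ∈ cls (hh L) p c) :
    ∑ k ∈ cls (hh L) p c, me L e k ≤ M L p c -
      if k = 12 * L + 1 then 2 * (e 0 : ℤ) else (e (k - (12 * L + 1)).natAbs : ℤ) := by
  unfold me M
  rw [sum_sub_distrib]
  refine sub_le_sub_left (single_le_sum (f := fun k : ℤ =>
    if k = 12 * L + 1 then 2 * (e 0 : ℤ) else (e (k - (12 * L + 1)).natAbs : ℤ))
    (fun k _ => ?_) hk) _
  split_ifs <;> positivity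

lemma sum_half (U : ℕ) : ∀ n : ℕ, 4 * ∑ u ∈ range U, (n - u) / 2 + n % 2 ≤ n ^ 2 := by
  induction U with
  | zero =>
    intro n
    rcases n with _ | n
    · simp
    · have := Nat.mod_lt (n + 1) two_pos
      have : 1 ≤ (n + 1) ^ 2 := Nat.one_le_pow _ _ n.succ_pos
      simp only [range_zero, sum_empty]
      omega
  | succ U ih =>
    intro n
    rcases n with _ | n
    · simp
    · have := ih n
      rw [sum_range_succ']
      simp only [Nat.add_sub_add_right, Nat.sub_zero]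
      rw [show (n + 1) ^ 2 = n ^ 2 + 2 * n + 1 by ring]
      omega

lemma sum_quarter (U n : ℕ) : 8 * ∑ u ∈ range U, (n - u) / 4 ≤ n ^ 2 := by
  have := sum_half U n
  have h : ∑ u ∈ range U, 2 * ((n - u) / 4) ≤ ∑ u ∈ range U, (n - u) / 2 :=
    sum_le_sum fun u _ => by omega
  rw [← mul_sum] at h
  omega

lemma toNat_sq (x : ℤ) : ((x.toNat ^ 2 : ℕ) : ℤ) ≤ x ^ 2 := by
  rcases le_total 0 x with h | h
  · rw [Nat.cast_pow, Int.toNat_of_nonneg h]
  · rw [Int.toNat_of_nonpos h]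
    simpa using sq_nonneg x

/-- The classes of `c₀ + v`, `|v| ≤ r`, are distinct. -/
lemma sum_sq (L r : ℕ) : M L (2 * r + 1) (12 * L + 1) ^ 2 +
    2 * ∑ j ∈ range r, M L (2 * r + 1) (12 * L + 1 + (j + 1 : ℕ)) ^ 2 ≤
      ∑ c ∈ range (2 * r + 1), M L (2 * r + 1) c ^ 2 := by
  have e := sum_Icc_of_even_eq_range (f := fun v : ℤ => M L (2 * r + 1) (12 * L + 1 + v) ^ 2)
    (fun v => by simp only [← sub_eq_add_neg, M_symm]) r
  rw [sum_range_succ'] at e
  simp only [Nat.cast_zero, add_zero, nsmul_eq_mul, Nat.cast_ofNat] at e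
  have p0 : (0 : ℤ) < (2 * r + 1 : ℕ) := by positivity
  have g : ∀ v : ℤ, (((12 * L + 1 + v) % (2 * r + 1 : ℕ)).toNat : ℤ) =
      (12 * L + 1 + v) % (2 * r + 1 : ℕ) := fun v => Int.toNat_of_nonneg (Int.emod_nonneg _ p0.ne')
  have f : ∑ v ∈ Icc (-r : ℤ) r, M L (2 * r + 1) (12 * L + 1 + v) ^ 2 = ∑ c ∈ (Icc (-r : ℤ) r).image
      (fun v : ℤ => ((12 * L + 1 + v) % (2 * r + 1 : ℕ)).toNat), M L (2 * r + 1) c ^ 2 := by
    rw [sum_image]
    · refine sum_congr rfl fun v _ => ?_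
      rw [g, M_congr (Int.dvd_self_sub_emod)]
    · intro v hv w hw h
      have h' : (12 * L + 1 + v) % (2 * r + 1 : ℕ) = (12 * L + 1 + w) % (2 * r + 1 : ℕ) := by
        rw [← g v, ← g w]
        exact congrArg Nat.cast h
      have d3 : ((2 * r + 1 : ℕ) : ℤ) ∣ w - v := by
        simpa using (Int.ModEq.dvd h')
      simp only [coe_Icc, Set.mem_Icc] at hv hw
      have := Int.eq_zero_of_abs_lt_dvd d3 (by rw [abs_lt]; push_cast; omega)
      omega
  have := sum_le_sum_of_subset_of_nonneg (f := fun c : ℕ => M L (2 * r + 1) c ^ 2)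
    (s := (Icc (-r : ℤ) r).image fun v : ℤ => ((12 * L + 1 + v) % (2 * r + 1 : ℕ)).toNat)
    (t := range (2 * r + 1)) (fun c hc => by
      obtain ⟨v, -, rfl⟩ := mem_image.1 hc
      have := Int.emod_lt_of_pos (12 * L + 1 + v) p0
      rw [mem_range, ← Int.ofNat_lt, g]
      exact this) fun _ _ _ => sq_nonneg _
  linarith

lemma M_centre (L p : ℕ) (hp : 0 < p) : (p : ℤ) * M L p (12 * L + 1) ≤ 96 * L + 6 * p := by
  have a := M_le (L := L) (p := p) (c := 12 * L + 1)
    ((Icc (-(8 * L / p : ℕ) : ℤ) (8 * L / p : ℕ)).image fun t => 12 * L + 1 + p * t)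
    fun k ⟨t, e⟩ b d => by
      have q : ∀ t : ℤ, p * t ≤ 8 * L → t ≤ (8 * L / p : ℕ) := fun t h => by
        push_cast
        exact Int.le_ediv_of_mul_le (by exact_mod_cast hp) (by linarith)
      exact mem_image.2 ⟨t, mem_Icc.2 ⟨neg_le.1 (q _ (by linarith)), q _ (by linarith)⟩, by linarith⟩
  have b := Int.ofNat_le.2 (card_image_le (s := Icc (-(8 * L / p : ℕ) : ℤ) (8 * L / p : ℕ))
    (f := fun t : ℤ => 12 * L + 1 + p * t))
  rw [Int.card_Icc_of_le _ _ (by linarith [Int.natCast_nonneg (8 * L / p)])] at b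
  have d : (p : ℤ) * (8 * L / p : ℕ) ≤ 8 * L := by exact_mod_cast Nat.mul_div_le (8 * L) p
  have : M L p (12 * L + 1) ≤ 12 * (8 * L / p : ℕ) + 6 := by linarith
  nlinarith

lemma M_top (L p : ℕ) (c : ℤ) : M L p c ≤ 120 * L + 12 := by
  have := M_le (L := L) (p := p) (c := c) (Ico 0 (20 * L + 2)) fun k _ a b =>
    mem_Ico.2 ⟨by omega, b⟩
  rw [Int.card_Ico_of_le _ _ (by omega)] at this
  linarith

lemma pow_le {p N : ℕ} (hp : 0 < p) {x : ℝ} (h : (N : ℝ) ≤ x) :
    (p : ℝ) ^ N ≤ Real.exp (x * Real.log p) := by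
  have p1 : (1 : ℝ) ≤ p := by exact_mod_cast hp
  rw [← Real.exp_log (by linarith : (0 : ℝ) < p), ← Real.exp_nat_mul, Real.log_exp]
  exact Real.exp_le_exp.2 (mul_le_mul_of_nonneg_right h (Real.log_nonneg p1))

/-- The thresholds for a medium prime. -/
noncomputable def al (L p u j : ℕ) : ℕ :=
  if j = 0 then ((M L p (12 * L + 1)).toNat + 2 - u) / 4
  else if 2 * j < p then ((M L p (12 * L + 1 + j)).toNat - u) / 2 else 0

lemma al_sum (L r U : ℕ) (hr : r ≤ 12 * L) :
    8 * ((∑ u ∈ range U, dg L (al L (2 * r + 1) u) : ℕ) : ℤ) ≤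
      ∑ c ∈ range (2 * r + 1), M L (2 * r + 1) c ^ 2 +
        4 * (M L (2 * r + 1) (12 * L + 1)).toNat + 4 := by
  have e : ∑ u ∈ range U, dg L (al L (2 * r + 1) u) =
      ∑ j ∈ range r, ∑ u ∈ range U, ((M L (2 * r + 1) (12 * L + 1 + (j + 1 : ℕ))).toNat - u) / 2 +
        ∑ u ∈ range U, ((M L (2 * r + 1) (12 * L + 1)).toNat + 2 - u) / 4 := by
    unfold dg
    rw [sum_comm, sum_range_succ', ← sum_subset (range_subset_range.2 hr)]
    · refine congrArg₂ _ (sum_congr rfl fun j hj => sum_congr rfl fun u _ => ?_) rfl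
      have := mem_range.1 hj
      rw [al, if_neg (by omega), if_pos (by omega)]
    · refine fun j _ hj => sum_eq_zero fun u _ => ?_
      have := mt mem_range.2 hj
      rw [al, if_neg (by omega), if_neg (by omega)]
  have a : ∑ j ∈ range r, 4 * ((∑ u ∈ range U,
      ((M L (2 * r + 1) (12 * L + 1 + (j + 1 : ℕ))).toNat - u) / 2 : ℕ) : ℤ) ≤
      ∑ j ∈ range r, M L (2 * r + 1) (12 * L + 1 + (j + 1 : ℕ)) ^ 2 := sum_le_sum fun j _ => by
    refine le_trans ?_ (toNat_sq _)
    exact_mod_cast (Nat.le_add_right _ _).trans (sum_half U _)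
  have b := Int.ofNat_le.2 (sum_quarter U ((M L (2 * r + 1) (12 * L + 1)).toNat + 2))
  have c := toNat_sq (M L (2 * r + 1) (12 * L + 1))
  have d := sum_sq L r
  rw [← mul_sum] at a
  rw [e, Nat.cast_add, Nat.cast_sum (range r)]
  rw [Nat.cast_mul, add_sq] at b
  push_cast at a b c d ⊢
  linarith

end Medium

open Medium

theorem medium (he : EntryStmt) (ht : ThreshStmt) (hs : SqStmt) : MediumStmt := by
  intro p hp L μ d a b hL hR h1 h2
  have p2 : p ≠ 2 := by
    rintro rfl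
    omega
  obtain ⟨r, rfl⟩ := hp.out.odd_of_ne_two p2
  refine (ht _ L μ d a b 3 (120 * L + 14) (al L (2 * r + 1)) hR (fun j => ?_)
    fun u u' s => ?_).trans (pow_le (by omega) ?_)
  · have := M_top L (2 * r + 1) (12 * L + 1)
    have := M_top L (2 * r + 1) (12 * L + 1 + j)
    unfold al
    split_ifs <;> omega
  · rw [← zpow_natCast]
    refine he _ L _ _ p2 h1 fun c => Or.inl ?_
    have p0 : (0 : ℤ) < (2 * r + 1 : ℕ) := by positivity
    obtain ⟨v, v1, v2, v3⟩ : ∃ v : ℤ, -(r : ℤ) ≤ v ∧ v ≤ r ∧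
        ((2 * r + 1 : ℕ) : ℤ) ∣ 12 * L + 1 + v - c := by
      have a1 := Int.emod_nonneg (c - (12 * L + 1) + r) p0.ne'
      have a2 := Int.emod_lt_of_pos (c - (12 * L + 1) + r) p0
      refine ⟨(c - (12 * L + 1) + r) % (2 * r + 1 : ℕ) - r, by omega, by omega, ?_⟩
      obtain ⟨t, e⟩ := Int.dvd_self_sub_emod (x := c - (12 * L + 1) + r) (m := (2 * r + 1 : ℕ))
      exact ⟨-t, by linarith⟩
    have k := me_le (L := L) (fun j => al L (2 * r + 1) u j + al L (2 * r + 1) u' j + mono s j)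
      (mem_cls.2 ⟨by omega, v3⟩)
    have e : M L (2 * r + 1) c = M L (2 * r + 1) (12 * L + 1 + v.natAbs) := by
      rw [← M_congr v3]
      rcases Int.natAbs_eq v with h | h
      · rw [← h]
      · rw [← M_symm L _ v.natAbs, sub_eq_add_neg, ← h]
    rw [add_sub_cancel_left, e] at k
    generalize ∑ k ∈ cls (hh L) (2 * r + 1) c, me L _ k = S at k
    by_cases z : v = 0
    · subst z
      simp only [add_zero, if_true, al, Int.natAbs_zero, Nat.cast_zero] at k
      omega
    · rw [if_neg (by omega)] at k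
      simp only [al, if_neg (Int.natAbs_ne_zero.2 z), if_pos (show 2 * v.natAbs < 2 * r + 1 by omega)]
        at k
      omega
  · have a1 := al_sum L r (120 * L + 14) (by omega)
    have a2 := hs L (2 * r + 1) (by omega)
    have a3 : ((2 * r + 1 : ℕ) : ℤ) * (M L (2 * r + 1) (12 * L + 1)).toNat ≤
        96 * L + 6 * (2 * r + 1 : ℕ) := by
      rcases le_total 0 (M L (2 * r + 1) (12 * L + 1)) with h | h
      · rw [Int.toNat_of_nonneg h]
        exact M_centre L _ (by omega)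
      · rw [Int.toNat_of_nonpos h]
        positivity
    unfold M at a1
    rw [a2] at a1
    change _ ≤ _ + 4 * ((M L (2 * r + 1) (12 * L + 1)).toNat : ℤ) + 4 at a1
    generalize (M L (2 * r + 1) (12 * L + 1)).toNat = m at a1 a3
    rw [Nat.cast_add]
    generalize ∑ u ∈ range (120 * L + 14), dg L (al L (2 * r + 1) u) = N at a1
    generalize 2 * r + 1 = p at a1 a3 hp
    have p0 : (0 : ℝ) < p := by exact_mod_cast hp.out.pos
    have b1 : 8 * (N : ℝ) ≤ 648 * L + 36 + 2 * Phi L p + 4 * m + 4 := by exact_mod_cast a1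
    have b3 : (p : ℝ) * m ≤ 96 * L + 6 * p := by exact_mod_cast a3
    have b4 : (m : ℝ) - 6 ≤ 96 * L / p := by
      rw [le_div_iff₀ p0]
      linarith
    rw [show (96 * L / p : ℝ) = 2 * (48 * L / p) by ring] at b4
    push_cast
    linarith

theorem large (he : EntryStmt) (ht : ThreshStmt) : LargeStmt := by
  intro p hp L μ d a b hL hR h1
  have p2 : p ≠ 2 := by omega
  have po := hp.out.odd_of_ne_two p2
  refine (ht p L μ d a b 0 15 (fun u j => if p ≤ 8 * L + j ∧ 2 * j < p then (15 - u) / 2 else 0) hR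
    (fun j => by simp) fun u u' s => ?_).trans (pow_le hp.out.pos ?_)
  · rw [← zpow_natCast]
    refine he _ L _ _ p2 (by nlinarith) fun c => ?_
    refine or_iff_not_imp_right.2 fun h => ?_
    have one : ∀ k k' : ℤ, (p : ℤ) ∣ k - c → (p : ℤ) ∣ k' - c → 4 * (L : ℤ) < k →
        k' < 20 * L + 2 → k < k' → k' = k + p := fun k k' x y _ _ _ => by
      obtain ⟨t, e⟩ : (p : ℤ) ∣ k' - k := by simpa using dvd_sub y x
      have : t = 1 := by
        have q : (8 * L : ℤ) < p := by exact_mod_cast h1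
        have t0 : 0 < t := by nlinarith
        have t1 : t < 2 := by nlinarith
        omega
      subst this
      linarith
    obtain ⟨k, x, y, k1, k2⟩ : ∃ k : ℤ, (p : ℤ) ∣ k - c ∧ (p : ℤ) ∣ k + p - c ∧ 4 * (L : ℤ) < k ∧
        k + p < 20 * L + 2 := by
      by_contra n
      refine h ⟨Int.natCast_nonneg _, fun k k' x y a1 a2 a3 a4 => ?_⟩
      rcases lt_trichotomy k k' with l | l | l
      · obtain rfl := one k k' x y a1 a4 l
        exact (n ⟨k, x, y, a1, a4⟩).elim
      · exact l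
      · obtain rfl := one k' k y x a3 a2 l
        exact (n ⟨k', y, x, a3, a2⟩).elim
    have m := M_le (L := L) (p := p) (c := c) {k, k + p} fun w z w1 w2 => by
      rw [mem_insert, mem_singleton]
      rcases lt_trichotomy w k with l | l | l
      · have := one w k z x w1 (by omega) l
        have := one w (k + p) z y w1 k2 (by omega)
        omega
      · exact Or.inl l
      · exact Or.inr (one k w x z k1 w2 l)
    have m2 := Int.ofNat_le.2 (card_le_two (a := k) (b := k + p))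
    obtain ⟨r, hr⟩ := po
    obtain ⟨w, w1, w2, w3, w4⟩ : ∃ w ∈ cls (hh L) p c, w ≠ 12 * L + 1 ∧
        p ≤ 8 * L + (w - (12 * L + 1)).natAbs ∧ 2 * (w - (12 * L + 1)).natAbs < p := by
      rcases le_total (k + p - (12 * L + 1)) (12 * L + 1 - k) with l | l
      · exact ⟨k + p, mem_cls.2 ⟨by omega, y⟩, by omega, by omega, by omega⟩
      · exact ⟨k, mem_cls.2 ⟨by omega, x⟩, by omega, by omega, by omega⟩
    have q := me_le (fun j => (if p ≤ 8 * L + j ∧ 2 * j < p then (15 - u) / 2 else 0) +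
      (if p ≤ 8 * L + j ∧ 2 * j < p then (15 - u') / 2 else 0) + mono s j) w1
    rw [if_neg w2, if_pos ⟨w3, w4⟩, if_pos ⟨w3, w4⟩] at q
    omega
  · have e : ∑ u ∈ range 15, dg L (fun j => if p ≤ 8 * L + j ∧ 2 * j < p then (15 - u) / 2 else 0) =
        ((range (12 * L + 1)).filter fun j => p ≤ 8 * L + j ∧ 2 * j < p).card * 56 := by
      unfold dg
      simp only [← sum_filter, sum_const, smul_eq_mul, ← mul_sum]
      rfl
    have c := card_le_card (show ((range (12 * L + 1)).filter fun j => p ≤ 8 * L + j ∧ 2 * j < p) ⊆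
      Ico (p - 8 * L) ((p + 1) / 2) from fun j hj => by
        have := (mem_filter.1 hj).2
        exact mem_Ico.2 ⟨by omega, by omega⟩)
    rw [Nat.card_Ico] at c
    rw [e]
    exact_mod_cast (by omega : 18 * L * 0 + ((range (12 * L + 1)).filter
      fun j => p ≤ 8 * L + j ∧ 2 * j < p).card * 56 ≤ 28 * (16 * L + 1 - p))

end Pool.Agent.MP_807c24_nt.D57
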