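import Pool.Agent.MP_807c24_nt.D57.Two

/-! The Hankel determinant is not zero when `10 L + 1` is prime. -/

namespace Pool.Agent.MP_807c24_nt.D57

open Finset
open Pool.Agent.MP_807c24_nt.H13 (pts cf ords Hs zr pn cls fac Gs)
open Pool.Agent.MP_807c24_nt.H13.Class
open Pool.Agent.MP_807c24_nt.D57.Two

namespace Nonzero

/-- The point `v = j`. -/
def up (L j : ℕ) : ℤ := 12 * L + 1 + j

theorem me_symm (L : ℕ) (e : ℕ → ℕ) (k : ℤ) : me L e (hh L - k) = me L e k := by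
  have e1 : hh L - k - (12 * L + 1) = -(k - (12 * L + 1)) := by unfold hh; ring
  unfold me m0
  rw [e1, abs_neg, Int.natAbs_neg]
  congr 1
  exact if_congr (by unfold hh; omega) rfl rfl

theorem me_even (L : ℕ) (e : ℕ → ℕ) (k : ℤ) (h : hh L - k = k) : Even (me L e k) := by
  have e1 : k = 12 * L + 1 := by unfold hh at h; omega
  unfold me m0
  rw [if_pos e1, e1, sub_self, abs_zero, if_pos (by positivity)]
  exact ⟨3 - e 0, by ring⟩

theorem me_nonpos {L : ℕ} (e : ℕ → ℕ) {k : ℤ} (h : k ≤ 4 * L ∨ 20 * L + 2 ≤ k) :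
    me L e k ≤ 0 := by
  unfold me m0
  rw [if_neg (by rw [abs_le]; omega)]
  split_ifs <;> omega

theorem me_up {L : ℕ} (e : ℕ → ℕ) {j : ℕ} (h1 : 1 ≤ j) (h2 : j ≤ 8 * L) :
    me L e (up L j) = 6 - e j := by
  have e1 : up L j - (12 * L + 1) = j := by unfold up; ring
  unfold me m0
  rw [e1, if_pos (by rw [abs_le]; omega), if_neg (by unfold up; omega), Int.natAbs_natCast]

variable {p L : ℕ} [hp : Fact p.Prime]

omit hp in
theorem refl_up (hL : p = 10 * L + 1) {j : ℕ} (h2 : j ≤ 8 * L) :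
    up L j - p = hh L - up L (p - j) := by
  unfold up hh
  omega

omit hp in
theorem me_low (hL : p = 10 * L + 1) (e : ℕ → ℕ) {j : ℕ} (h1 : 2 * L + 1 ≤ j) (h2 : j ≤ 8 * L) :
    me L e (up L j - p) = 6 - e (p - j) := by
  rw [refl_up hL h2, me_symm, me_up e (by omega) (by omega)]

omit hp in
theorem dvd_cases {x : ℤ} (h : (p : ℤ) ∣ x) : x = 0 ∨ x = -p ∨ x ≤ -2 * p ∨ p ≤ x := by
  obtain ⟨t, rfl⟩ := h
  have h0 : (0 : ℤ) ≤ p := by positivity
  rcases lt_trichotomy t 0 with a | a | a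
  · rcases eq_or_lt_of_le (show t ≤ -1 by omega) with b | b
    · exact Or.inr (Or.inl (by rw [b]; ring))
    · exact Or.inr (Or.inr (Or.inl (by nlinarith)))
  · exact Or.inl (by rw [a, mul_zero])
  · exact Or.inr (Or.inr (Or.inr (by nlinarith)))

omit hp in
theorem cls_up (hL : p = 10 * L + 1) {j : ℕ} (h1 : 2 * L + 1 ≤ j) (h2 : j ≤ 8 * L) :
    cls (hh L) p (up L j) = {up L j, up L j - p} := by
  ext k
  simp only [cls, pts, mem_filter, mem_Icc, mem_insert, mem_singleton]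
  constructor
  · rintro ⟨a, b⟩
    have := dvd_cases b
    unfold up hh at *
    omega
  · rintro (rfl | rfl)
    · exact ⟨by unfold up hh; omega, by simp⟩
    · exact ⟨by unfold up hh; omega, by simp⟩

omit hp in
theorem sum_up (hL : p = 10 * L + 1) (e : ℕ → ℕ) {j : ℕ} (h1 : 2 * L + 1 ≤ j) (h2 : j ≤ 8 * L) :
    ∑ k ∈ cls (hh L) p (up L j), me L e k = 12 - e j - e (p - j) := by
  rw [cls_up hL h1 h2, sum_pair (by omega), me_low hL e h1 h2, me_up e (by omega) h2]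
  ring

theorem one_le_L (hL : p = 10 * L + 1) : 1 ≤ L := by
  have := hp.out.two_le
  omega

theorem cf_le (hL : p = 10 * L + 1) (e : ℕ → ℕ) {y : ℤ} (hy : 0 ≤ y)
    (H : ∀ j : ℕ, 2 * L + 1 ≤ j → j ≤ 8 * L → 11 - (e j : ℤ) - e (p - j) ≤ y) {k : ℤ}
    (hk : k ∈ pts (hh L)) {i : ℕ} (hi : i ∈ ords (me L e) k) :
    pn p (cf (me L e) (hh L) k i) ≤ (p : ℝ) ^ y := by
  have h0 := (ord_cast hi).1
  have hi1 : 1 ≤ i := (mem_Icc.1 hi).1
  have h1 : ¬(k ≤ 4 * L ∨ 20 * L + 2 ≤ k) := fun g => absurd (me_nonpos e g) (not_le.2 h0)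
  have hL1 := one_le_L hL
  have hq : hh L ≤ (p : ℤ) ^ 2 := by
    unfold hh
    rw [hL]
    push_cast
    nlinarith
  by_cases h2 : 10 * (L : ℤ) + 1 ≤ k ∧ k ≤ 14 * L + 1
  · refine (cf_lone _ i fun k' hk' hne => me_nonpos e ?_).trans (one_le_zpow₀ one_le_p hy)
    have a := dvd_cases (mem_filter.1 hk').2
    omega
  · obtain ⟨j, j1, j2, j3⟩ : ∃ j : ℕ, 2 * L + 1 ≤ j ∧ j ≤ 8 * L ∧ k ∈ cls (hh L) p (up L j) := by
      by_cases h3 : k ≤ 10 * L
      · refine ⟨(k - 2 * L).toNat, by omega, by omega, mem_filter.2 ⟨hk, ⟨-1, ?_⟩⟩⟩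
        unfold up
        omega
      · refine ⟨(k - 12 * L - 1).toNat, by omega, by omega, mem_filter.2 ⟨hk, ⟨0, ?_⟩⟩⟩
        unfold up
        omega
    refine (cf_large _ hk hi hq).trans (zpow_le_zpow_right₀ one_le_p ?_)
    rw [cls_eq j3, sum_up hL e j1 j2]
    have := H j j1 j2
    omega

theorem ai_le (hL : p = 10 * L + 1) (e : ℕ → ℕ) {y : ℤ} (hy : 0 ≤ y)
    (H : ∀ j : ℕ, 2 * L + 1 ≤ j → j ≤ 8 * L → 11 - (e j : ℤ) - e (p - j) ≤ y) {i : ℕ}
    (hi : 1 ≤ i) : pn p (Ai L e i) ≤ (p : ℝ) ^ y := by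
  refine pn_sum (zpow_pos p_pos _).le fun k hk => ?_
  obtain ⟨h1, h2⟩ := mem_filter.1 hk
  exact (pn_mul_le (cf_le hL e hy H h1 (mem_Icc.2 ⟨hi, by omega⟩)) (pn_nat _)).trans_eq (mul_one _)

/-- The main terms. -/
noncomputable def mt (p L : ℕ) (e : ℕ → ℕ) : ℚ :=
  ∑ j ∈ Finset.Icc (2 * L + 1) (8 * L), tp p (me L e) (hh L) (up L j)

theorem a0_le (hL : p = 10 * L + 1) (e : ℕ → ℕ) {y : ℤ} (hy : 0 ≤ y)
    (H : ∀ j : ℕ, 2 * L + 1 ≤ j → j ≤ 8 * L → 11 - (e j : ℤ) - e (p - j) ≤ y) :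
    pn p (A0 L e + mt p L e) ≤ (p : ℝ) ^ y := by
  have e1 : mt p L e = ∑ k ∈ pts (hh L),
      if 14 * (L : ℤ) + 2 ≤ k ∧ k ≤ 20 * L + 1 then tp p (me L e) (hh L) k else 0 := by
    rw [← sum_filter, mt]
    refine sum_bij' (fun j _ => up L j) (fun k _ => (k - 12 * L - 1).toNat) (fun j hj => ?_)
      (fun k hk => ?_) (fun j _ => ?_) (fun k hk => ?_) fun _ _ => rfl
    · simp only [pts, hh, up, mem_filter, mem_Icc] at hj ⊢
      omega
    · simp only [pts, hh, mem_filter, mem_Icc] at hk ⊢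
      omega
    · simp only [up]
      omega
    · simp only [pts, hh, up, mem_filter, mem_Icc] at hk ⊢
      omega
  rw [e1, A0, neg_add_eq_sub, ← neg_sub, pn_neg, ← sum_sub_distrib]
  refine pn_sum (zpow_pos p_pos _).le fun k hk => ?_
  split_ifs with g
  · rw [tp, ← sum_sub_distrib]
    refine pn_sum (zpow_pos p_pos _).le fun i hi => ?_
    rw [← mul_sub]
    exact (pn_mul_le (pn_mul_le (cf_le hL e hy H hk hi) (pn_nat _))
      (hs_p (by omega) (by omega))).trans_eq (by ring)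
  · rw [sub_zero]
    refine pn_sum (zpow_pos p_pos _).le fun i hi => ?_
    have h1 : ¬(k ≤ 4 * L ∨ 20 * L + 2 ≤ k) := fun g =>
      absurd (me_nonpos e g) (not_le.2 (ord_cast hi).1)
    refine (pn_mul_le (pn_mul_le (cf_le hL e hy H hk hi) (pn_nat _))
      (hs_one fun l a b => ?_)).trans_eq (by ring)
    have := Int.le_of_dvd (by omega) a
    omega

theorem val_le (hL : p = 10 * L + 1) (e : ℕ → ℕ) (d a b : ℤ) {y : ℤ} (hy : 0 ≤ y)
    (H : ∀ j : ℕ, 2 * L + 1 ≤ j → j ≤ 8 * L → 11 - (e j : ℤ) - e (p - j) ≤ y) :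
    pn p (d * A0 L e + a * Ai L e 3 + b * Ai L e 5 + d * mt p L e) ≤ (p : ℝ) ^ y := by
  rw [show d * A0 L e + a * Ai L e 3 + b * Ai L e 5 + d * mt p L e =
    d * (A0 L e + mt p L e) + a * Ai L e 3 + b * Ai L e 5 by ring]
  exact pn_add (pn_add ((pn_mul_le (pn_int d) (a0_le hL e hy H)).trans_eq (one_mul _))
    ((pn_mul_le (pn_int a) (ai_le hL e hy H (by norm_num))).trans_eq (one_mul _)))
    ((pn_mul_le (pn_int b) (ai_le hL e hy H (by norm_num))).trans_eq (one_mul _))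

theorem tp_up (hL : p = 10 * L + 1) (e : ℕ → ℕ) {y : ℤ} {j : ℕ} (h1 : 2 * L + 1 ≤ j)
    (h2 : j ≤ 8 * L) (H : 14 - (e j : ℤ) - e (p - j) ≤ y) :
    pn p (tp p (me L e) (hh L) (up L j)) ≤ (p : ℝ) ^ y := by
  refine (tp_le (cls_up hL h1 h2)).trans (zpow_le_zpow_right₀ one_le_p ?_)
  rw [me_low hL e h1 h2, me_up e (by omega) h2]
  omega

theorem scale_le {x : ℚ} {y : ℤ} (h : pn p x ≤ (p : ℝ) ^ y) :
    pn p ((p : ℚ) ^ (y + 1) * x) ≤ (p : ℝ)⁻¹ := by
  rw [pn_mul, pn_ppow]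
  refine (mul_le_mul_of_nonneg_left h (zpow_pos p_pos _).le).trans_eq ?_
  rw [← zpow_add₀ p_pos.ne', ← zpow_neg_one]
  congr 1
  ring

theorem off_le (hL : p = 10 * L + 1) (e : ℕ → ℕ) (d a b : ℤ) {y : ℤ} (hy : 0 ≤ y)
    (H : ∀ j : ℕ, 2 * L + 1 ≤ j → j ≤ 8 * L → 14 - (e j : ℤ) - e (p - j) ≤ y) :
    pn p (d * A0 L e + a * Ai L e 3 + b * Ai L e 5) ≤ (p : ℝ) ^ y := by
  have h1 := val_le hL e d a b hy fun j a b => by have := H j a b; omega
  have h2 : pn p (mt p L e) ≤ (p : ℝ) ^ y := pn_sum (zpow_pos p_pos _).le fun j hj =>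
    tp_up hL e (mem_Icc.1 hj).1 (mem_Icc.1 hj).2 (H j (mem_Icc.1 hj).1 (mem_Icc.1 hj).2)
  have := pn_sub h1 ((pn_mul_le (pn_int d) h2).trans_eq (one_mul _))
  rwa [add_sub_cancel_right] at this

/-- Exponents: `s` at `j0`, nothing at its partner, `w` at the other points. -/
def ex (L j0 s w : ℕ) (j : ℕ) : ℕ :=
  if 2 * L + 1 ≤ j ∧ j ≤ 8 * L then (if j = j0 then s else if j = 10 * L + 1 - j0 then 0 else w)
  else 0

/-- The universal Hankel sequence. -/
def ll (s : ℕ) : ℤ := [0, -297, -297, -207, -117, -55, -21, -6, -1, 0, 0].getD s 0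

theorem gI_eq : ∀ s : ℕ, s ≤ 10 → gI 6 (6 - s) - (-1) ^ s * gI (6 - s) 6 = ll s := by
  decide +kernel

omit hp in
theorem un_ex (hL : p = 10 * L + 1) {j0 : ℕ} (h1 : 2 * L + 1 ≤ j0) (h2 : j0 ≤ 5 * L) (s : ℕ) :
    un p (me L (ex L j0 s 6)) (hh L) (up L j0) =
      un p (me L (ex L j0 0 6)) (hh L) (up L j0) * ((-2 * (j0 : ℤ) : ℤ) : ℚ) ^ s := by
  have hm : hh L - up L j0 ∈ (pts (hh L)).filter (fun k' => ¬(p : ℤ) ∣ k' - up L j0) := by
    refine mem_filter.2 ⟨by simp only [pts, hh, up, mem_Icc]; omega, fun g => ?_⟩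
    have := dvd_cases g
    unfold hh up at this
    omega
  have hx : hh L - up L j0 - up L j0 = -2 * (j0 : ℤ) := by unfold hh up; ring
  have h0 : ((-2 * (j0 : ℤ) : ℤ) : ℚ) ≠ 0 := by exact_mod_cast (by omega : -2 * (j0 : ℤ) ≠ 0)
  rw [un_eq, un_eq, mul_assoc, ← mul_prod_erase _ _ hm, ← mul_prod_erase _ _ hm, me_symm, me_symm,
    me_up _ (by omega) (by omega), me_up _ (by omega) (by omega), hx]
  congr 1
  rw [mul_right_comm, ← zpow_natCast _ s, ← zpow_add₀ h0]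
  congr 1
  · congr 1
    have g : 2 * L + 1 ≤ j0 ∧ j0 ≤ 8 * L := ⟨h1, by omega⟩
    simp only [ex, if_pos g, if_true]
    push_cast
    ring
  · refine prod_congr rfl fun k hk => ?_
    obtain ⟨a, b⟩ := mem_erase.1 hk
    have c : k ≠ up L j0 := fun g => (mem_filter.1 b).2 (by simp [g])
    have f : (k - (12 * L + 1)).natAbs ≠ j0 := by
      unfold hh up at *
      omega
    have f0 : (0 : ℕ) ≠ j0 := by omega
    simp only [me, ex, if_neg f, if_neg f0]

theorem diag (hL : p = 10 * L + 1) (d a b : ℤ) {j0 : ℕ} (h1 : 2 * L + 1 ≤ j0) (h2 : j0 ≤ 5 * L)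
    {s : ℕ} (hs : s ≤ 10) :
    Cg p ((p : ℚ) ^ (14 - s : ℤ) *
      (d * A0 L (ex L j0 s 6) + a * Ai L (ex L j0 s 6) 3 + b * Ai L (ex L j0 s 6) 5))
      (-d * (un p (me L (ex L j0 s 6)) (hh L) (up L j0) * ll s)) := by
  set e := ex L j0 s 6 with he
  have e1 : e j0 = s := by simp only [he, ex]; rw [if_pos ⟨h1, by omega⟩]; simp
  have e2 : e (p - j0) = 0 := by
    simp only [he, ex]
    rw [if_pos ⟨by omega, by omega⟩, if_neg (by omega), if_pos (by omega)]
  have e3 : ∀ j : ℕ, 2 * L + 1 ≤ j → j ≤ 8 * L → j ≠ j0 → j ≠ p - j0 → e j = 6 := by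
    intro j a1 a2 a3 a4
    simp only [he, ex]
    rw [if_pos ⟨a1, a2⟩, if_neg a3, if_neg (by omega)]
  have e4 : p - (p - j0) = j0 := by omega
  have r1 := val_le hL e d a b (y := 13 - s) (by omega) fun j a1 a2 => by
    by_cases c1 : j = j0
    · rw [c1, e1, e2]; omega
    by_cases c2 : j = p - j0
    · rw [c2, e4, e1, e2]; omega
    · rw [e3 j a1 a2 c1 c2, e3 (p - j) (by omega) (by omega) (by omega) (by omega)]; omega
  have m1 : j0 ∈ Finset.Icc (2 * L + 1) (8 * L) := mem_Icc.2 ⟨h1, by omega⟩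
  have m2 : p - j0 ∈ (Finset.Icc (2 * L + 1) (8 * L)).erase j0 :=
    mem_erase.2 ⟨by omega, mem_Icc.2 ⟨by omega, by omega⟩⟩
  have r2 : pn p (∑ j ∈ ((Finset.Icc (2 * L + 1) (8 * L)).erase j0).erase (p - j0),
      tp p (me L e) (hh L) (up L j)) ≤ (p : ℝ) ^ (13 - s : ℤ) := by
    refine pn_sum (zpow_pos p_pos _).le fun j hj => ?_
    simp only [mem_erase, mem_Icc] at hj
    refine tp_up hL e hj.2.2.1 hj.2.2.2 ?_
    rw [e3 j hj.2.2.1 hj.2.2.2 hj.2.1 hj.1,
      e3 (p - j) (by omega) (by omega) (by omega) (by omega)]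
    omega
  have tA := tp_top (m := me L e) (cls_up hL h1 (by omega : j0 ≤ 8 * L))
  have tB := tp_top (m := me L e) (cls_up hL (j := p - j0) (by omega) (by omega))
  rw [me_low hL e h1 (by omega), me_up e (by omega) (by omega), e1, e2] at tA
  rw [me_low hL e (by omega) (by omega), me_up e (by omega) (by omega), e4, e1, e2] at tB
  have uB : Cg p (un p (me L e) (hh L) (up L (p - j0)))
      (-((-1) ^ s * un p (me L e) (hh L) (up L j0))) := by
    have q1 : up L (p - j0) = hh L - (up L j0 - p) := by unfold up hh; omega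
    have q2 : up L j0 - p ∈ cls (hh L) p (up L j0) := by rw [cls_up hL h1 (by omega)]; simp
    have q3 : (-1 : ℚ) ^ (12 - (s : ℤ) - (0 : ℕ)) = (-1) ^ s := by
      rw [Nat.cast_zero, sub_zero, zpow_sub₀ (by norm_num), zpow_natCast]
      rcases neg_one_pow_eq_or ℚ s with g | g <;> rw [g] <;> norm_num
    rw [q1, un_refl (me_symm L e) (me_even L e), cls_eq q2, sum_up hL e h1 (by omega), e1, e2, q3,
      ← neg_mul, ← neg_mul]
    refine (Cg.refl' ?_).mul (un_cg _ _ (by simp))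
    rw [pn_neg, pn_sign]
  have tB' := Cg.trans' tB (uB.mul (Cg.refl' (pn_int _)))
  have z1 := Cg.zero' (scale_le r1)
  have z2 := Cg.zero' (scale_le r2)
  have dd : Cg p (-d : ℚ) (-d) := Cg.refl' (by rw [pn_neg]; exact pn_int d)
  have all := Cg.add' z1 (dd.mul (Cg.add' tA (Cg.add' tB' z2)))
  have g := congrArg (fun x : ℤ => (x : ℚ)) (gI_eq s hs)
  simp only [Int.cast_sub, Int.cast_mul, Int.cast_pow, Int.cast_neg, Int.cast_one] at g
  convert all using 1
  · rw [mt, ← add_sum_erase _ _ m1, ← add_sum_erase _ _ m2,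
      show (6 : ℤ) - (0 : ℕ) + (6 - s) + 2 = 14 - s by push_cast; ring,
      show (6 : ℤ) - s + (6 - (0 : ℕ)) + 2 = 14 - s by push_cast; ring,
      show (13 : ℤ) - s + 1 = 14 - s by ring]
    ring
  · rw [← g]
    simp only [Nat.cast_zero, sub_zero]
    ring

/-- The universal block. -/
def lm : Matrix (Fin 6) (Fin 6) ℤ := Matrix.of fun a b => ll (a + b)

/-- Its inverse. -/
def li : Matrix (Fin 6) (Fin 6) ℤ :=
  !![-3, 21, -62, 96, -78, 26; 21, -143, 411, -618, 485, -153; -62, 411, -1149, 1673, -1260, 369;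
    96, -618, 1673, -2340, 1665, -432; -78, 485, -1260, 1665, -1080, 216;
    26, -153, 369, -432, 216, 0]

theorem lm_li : lm * li = 1 := by decide +kernel

theorem lm_det : pn p (Matrix.of fun a b : Fin 6 => (ll (a + b) : ℚ)).det = 1 := by
  have h1 : IsUnit lm.det := Matrix.isUnit_det_of_right_inverse lm_li
  have h2 : (Matrix.of fun a b : Fin 6 => (ll (a + b) : ℚ)).det = ((lm.det : ℤ) : ℚ) :=
    ((Int.castRingHom ℚ).map_det lm).symm
  rw [h2]
  rcases Int.isUnit_iff.1 h1 with g | g <;> rw [g] <;> simp [pn]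

omit hp in
theorem dg_ex {j0 a : ℕ} (h1 : 2 * L + 1 ≤ j0) (h2 : j0 ≤ 5 * L) :
    dg L (ex L j0 a 3) + 6 = 18 * L + a := by
  have e : ∀ j, ex L j0 a 3 j + (if j = j0 then 3 else 0) + (if j = 10 * L + 1 - j0 then 3 else 0) =
      (if j ∈ Finset.Icc (2 * L + 1) (8 * L) then 3 else 0) + if j = j0 then a else 0 := by
    intro j
    simp only [ex, mem_Icc]
    split_ifs <;> omega
  have := sum_congr (rfl : range (12 * L + 1) = _) fun j _ => e j
  simp only [sum_add_distrib, sum_ite_eq', mem_range, sum_ite_mem, sum_const, smul_eq_mul] at this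
  rw [if_pos (by omega), if_pos (by omega), if_pos (by omega),
    inter_eq_right.2 (fun j hj => by simp only [mem_Icc, mem_range] at hj ⊢; omega),
    Nat.card_Icc] at this
  unfold dg
  omega

theorem Pe_mul (L : ℕ) (e e' : ℕ → ℕ) :
    Pe ℚ L e * Pe ℚ L e' = Pe ℚ L fun j => e j + e' j := by
  simp only [Pe, pow_add, prod_mul_distrib]

theorem Pe_deg (L : ℕ) (e : ℕ → ℕ) : (Pe ℚ L e).natDegree ≤ dg L e := by
  refine (Polynomial.natDegree_prod_le _ _).trans (sum_le_sum fun j _ => ?_)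
  refine Polynomial.natDegree_pow_le.trans ?_
  rw [Polynomial.natDegree_X_sub_C, mul_one]

end Nonzero

open Nonzero in
theorem nonzero (hg : GramNeStmt) : NonzeroStmt := by
  intro p hp L μ d a b hL hR hd
  have hj : ∀ c : Fin (3 * L), 2 * L + 1 ≤ 2 * L + 1 + c ∧ 2 * L + 1 + c ≤ 5 * L := fun c => by
    have := c.2
    omega
  have hdg : ∀ x : Fin 6 × Fin (3 * L), dg L (ex L (2 * L + 1 + x.2) x.1 3) < 18 * L := fun x => by
    have := dg_ex (a := x.1) (hj x.2).1 (hj x.2).2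
    have := x.1.2
    omega
  refine hg ℚ μ (18 * L) (Fin 6 × Fin (3 * L)) (fun x => Pe ℚ L (ex L (2 * L + 1 + x.2) x.1 3))
    (by simp; ring) (fun x => (Pe_deg _ _).trans_lt (hdg x)) fun h0 => ?_
  set G : Matrix (Fin 6 × Fin (3 * L)) (Fin 6 × Fin (3 * L)) ℚ := Matrix.of fun x y =>
    lam μ (Pe ℚ L (ex L (2 * L + 1 + x.2) x.1 3) * Pe ℚ L (ex L (2 * L + 1 + y.2) y.1 3)) with hG
  set u : Fin (3 * L) → ℚ := fun c =>
    -d * un p (me L (ex L (2 * L + 1 + c) 0 6)) (hh L) (up L (2 * L + 1 + c)) with hu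
  set τ : Fin (3 * L) → ℚ := fun c => ((-2 * ((2 * L + 1 + c : ℕ) : ℤ) : ℤ) : ℚ) with hτ
  have key : Cg p (Matrix.of fun x y : Fin 6 × Fin (3 * L) => (p : ℚ) ^ (7 - x.1 : ℤ) *
      (Matrix.of fun x y : Fin 6 × Fin (3 * L) => (p : ℚ) ^ (7 - y.1 : ℤ) * G x y) x y).det
      (Matrix.blockDiagonal fun c : Fin (3 * L) => Matrix.of fun s t : Fin 6 => (u c * τ c ^ s.1) *
        (Matrix.of fun s t : Fin 6 => τ c ^ t.1 *
          (Matrix.of fun s t : Fin 6 => (ll (s + t) : ℚ)) s t) s t).det := by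
    refine Cg.det' fun x y => ?_
    have hx := x.1.2
    have hy := y.1.2
    have e1 : G x y = _ := (congrArg (lam μ) (Pe_mul L _ _)).trans (hR _ (by
      have := hdg x
      have := hdg y
      unfold dg at *
      rw [sum_add_distrib]
      omega))
    rw [Matrix.of_apply, Matrix.of_apply, ← mul_assoc, ← zpow_add₀ pq_ne, e1,
      Matrix.blockDiagonal_apply]
    split_ifs with hc
    · have e2 : (fun j => ex L (2 * L + 1 + x.2) x.1 3 j + ex L (2 * L + 1 + y.2) y.1 3 j) =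
          ex L (2 * L + 1 + x.2) (x.1 + y.1) 6 := by
        funext j
        rw [← hc]
        unfold ex
        split_ifs <;> rfl
      have := diag hL d a b (hj x.2).1 (hj x.2).2 (s := x.1 + y.1) (by omega)
      rw [un_ex hL (hj x.2).1 (hj x.2).2] at this
      rw [e2]
      convert this using 1
      · congr 2
        push_cast
        ring
      · simp only [Matrix.of_apply, hu, hτ]
        ring
    · have hne : (x.2 : ℕ) ≠ y.2 := fun g => hc (Fin.ext g)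
      have b1 := hj x.2
      have b2 := hj y.2
      have := scale_le (off_le hL
        (fun j => ex L (2 * L + 1 + x.2) x.1 3 j + ex L (2 * L + 1 + y.2) y.1 3 j) d a b
        (y := 13 - x.1 - y.1) (by omega) fun j a1 a2 => by
          have g1 : 2 * L + 1 ≤ j ∧ j ≤ 8 * L := ⟨a1, a2⟩
          have g2 : 2 * L + 1 ≤ p - j ∧ p - j ≤ 8 * L := ⟨by omega, by omega⟩
          simp only [ex, if_pos g1, if_pos g2]
          split_ifs <;> push_cast <;> omega)
      rw [show (7 : ℤ) - x.1 + (7 - y.1) = 13 - x.1 - y.1 + 1 by ring]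
      exact Cg.zero' this
  rw [Matrix.det_mul_column, Matrix.det_mul_row, h0, mul_zero, mul_zero,
    Matrix.det_blockDiagonal] at key
  have hτ1 : ∀ c, pn p (τ c) = 1 := fun c => pn_unit fun g => by
    have := dvd_cases g
    have := hj c
    omega
  have hu1 : ∀ c, pn p (u c) = 1 := fun c => by
    rw [hu]
    simp only
    rw [pn_mul, pn_neg, pn_unit hd, one_mul]
    refine un_unit _ fun g => ?_
    have := dvd_cases g
    have := hj c
    unfold hh up at *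
    omega
  have h1 := key.2.2
  rw [zero_sub, pn_neg, pn_prod, prod_eq_one fun c _ => ?_] at h1
  · have : (1 : ℝ) < p := by exact_mod_cast hp.out.one_lt
    exact absurd h1 (not_le.2 (inv_lt_one_of_one_lt₀ this))
  · rw [Matrix.det_mul_column, Matrix.det_mul_row, pn_mul, pn_mul, lm_det, pn_prod, pn_prod]
    simp only [pn_mul, pn_pow, hτ1, hu1, one_pow, mul_one, prod_const_one]

end Pool.Agent.MP_807c24_nt.D57
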