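import Pool.Agent.MP_807c24_nt.D57.Spec

/-! The numerical inequality on the ray. -/

namespace Pool.Agent.MP_807c24_nt.D57

open Finset

namespace PhiP

/-- Numerator of a cell. -/
def cn (a k : ℕ) : ℕ :=
  if a < 4 ∨ 20 ≤ a then ((64 * a + 32 + k) ^ 2 + k ^ 2 + 1024) ^ 3 else 4096 ^ 6

/-- Denominator of a cell. -/
def cd (a j : ℕ) : ℕ :=
  if a < 4 ∨ 20 ≤ a then 4096 ^ 3 else ((64 * a + 32 + j) ^ 2 + j ^ 2 - 1024) ^ 6

/-- A convex quadratic is at most its larger end value. -/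
def qm (a b j k : ℤ) : ℤ := max ((j + a) ^ 2 + (j + b) ^ 2) ((k + a) ^ 2 + (k + b) ^ 2)

/-- Bound for one quadratic factor. -/
def QI (s j k : ℕ) : ℕ :=
  (qm (-la s) (-lb s) j k * qm (-la s) (lb s) j k * qm (1537 + la s) (lb s) j k *
    qm (1537 + la s) (-lb s) j k).toNat

/-- One interval. -/
def step (j k : ℕ) : Bool :=
  (List.range 10).all fun s =>
    decide ((∏ a ∈ range 24, cn a k) * (∏ s' ∈ range s, QI s' j k ^ 2) * (10 ^ 5) ^ j *
      27182818286 ^ be s ≤ (∏ a ∈ range 24, cd a j) * (4096 ^ 8) ^ s * 121683 ^ j * (10 ^ 10) ^ be s)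

/-- All intervals. -/
def chk : ℕ → List ℕ → Bool
  | j, [] => decide (2624 ≤ j)
  | j, k :: l => step j k && chk k l

/-- Break points. -/
def bps : List ℕ :=
  [5, 8, 10, 12, 14, 16, 18, 20, 23, 26, 30, 33, 36, 39, 42, 45, 48, 52, 56, 60, 64, 68, 72, 75, 78,
    81, 84, 87, 90, 94, 98, 102, 106, 110, 115, 120, 124, 127, 130, 133, 136, 139, 142, 146, 150,
    154, 158, 162, 166, 170, 174, 179, 185, 191, 196, 200, 204, 208, 212, 216, 220, 224, 229, 235,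
    240, 245, 250, 255, 260, 266, 271, 276, 281, 286, 291, 296, 302, 308, 313, 318, 323, 329, 335,
    341, 348, 356, 365, 376, 389, 405, 426, 455, 497, 564, 684, 941, 1704, 2624]

theorem chk_bps : chk 0 bps = true := by decide +kernel

/-- One cell of `WW`. -/
noncomputable def wc (a : ℕ) (η : ℝ) : ℝ :=
  if a < 4 ∨ 20 ≤ a then (((a : ℝ) + 1 / 2 + η) ^ 2 + η ^ 2 + 1 / 4) ^ 3
    else ((((a : ℝ) + 1 / 2 + η) ^ 2 + η ^ 2 - 1 / 4) ^ 6)⁻¹

theorem wc_nonneg (a : ℕ) (η : ℝ) : 0 ≤ wc a η := by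
  unfold wc
  split_ifs <;> positivity

theorem cd_cast {a : ℕ} (h : ¬(a < 4 ∨ 20 ≤ a)) (j : ℕ) :
    (cd a j : ℝ) = ((64 * (a : ℝ) + 32 + j) ^ 2 + (j : ℝ) ^ 2 - 1024) ^ 6 := by
  unfold cd
  rw [if_neg h, Nat.cast_pow, Nat.cast_sub (by nlinarith [Nat.zero_le a, Nat.zero_le j])]
  push_cast
  ring

theorem cd_pos (a j : ℕ) : (0 : ℝ) < cd a j := by
  by_cases h : a < 4 ∨ 20 ≤ a
  · unfold cd
    rw [if_pos h]
    positivity
  · rw [cd_cast h]
    have h4 : (4 : ℝ) ≤ a := by exact_mod_cast (by omega : 4 ≤ a)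
    have hj : (0 : ℝ) ≤ j := Nat.cast_nonneg j
    exact pow_pos (by nlinarith) _

theorem wc_le (a j k : ℕ) {η : ℝ} (h1 : (j : ℝ) / 64 ≤ η) (h2 : η ≤ (k : ℝ) / 64) :
    wc a η ≤ (cn a k : ℝ) / cd a j := by
  have hj : (0 : ℝ) ≤ j := Nat.cast_nonneg j
  have ha : (0 : ℝ) ≤ a := Nat.cast_nonneg a
  have h0 : 0 ≤ η := le_trans (by positivity) h1
  by_cases h : a < 4 ∨ 20 ≤ a
  · unfold wc cn cd
    rw [if_pos h, if_pos h, if_pos h]
    push_cast
    rw [show (68719476736 : ℝ) = 4096 ^ 3 by norm_num, ← div_pow]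
    refine pow_le_pow_left₀ (by positivity) ?_ 3
    have e : ((64 * (a : ℝ) + 32 + k) ^ 2 + (k : ℝ) ^ 2 + 1024) / 4096 =
        ((a : ℝ) + 1 / 2 + k / 64) ^ 2 + ((k : ℝ) / 64) ^ 2 + 1 / 4 := by ring
    rw [e]
    gcongr
  · rw [cd_cast h]
    unfold wc cn
    rw [if_neg h, if_neg h]
    have h4 : (4 : ℝ) ≤ a := by exact_mod_cast (by omega : 4 ≤ a)
    have e : ((4096 ^ 6 : ℕ) : ℝ) / ((64 * (a : ℝ) + 32 + j) ^ 2 + (j : ℝ) ^ 2 - 1024) ^ 6 =
        ((((a : ℝ) + 1 / 2 + j / 64) ^ 2 + ((j : ℝ) / 64) ^ 2 - 1 / 4) ^ 6)⁻¹ := by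
      rw [Nat.cast_pow, ← div_pow, ← inv_pow, ← inv_div]
      congr 2
      push_cast
      ring
    have hp : 0 < ((a : ℝ) + 1 / 2 + j / 64) ^ 2 + ((j : ℝ) / 64) ^ 2 - 1 / 4 := by nlinarith
    rw [e]
    refine inv_anti₀ (pow_pos hp _) (pow_le_pow_left₀ hp.le ?_ 6)
    gcongr

theorem qm_le (a b : ℤ) (j k : ℕ) {η : ℝ} (h1 : (j : ℝ) / 64 ≤ η) (h2 : η ≤ (k : ℝ) / 64) :
    (η + a / 64) ^ 2 + (η + b / 64) ^ 2 ≤ (qm a b j k : ℝ) / 4096 := by
  unfold qm
  push_cast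
  rw [le_div_iff₀ (by norm_num)]
  by_cases h : 0 ≤ 128 * η + a + b
  · refine le_trans ?_ (le_max_right _ _)
    nlinarith [mul_nonneg (sub_nonneg.2 h2) h, sq_nonneg (η - k / 64)]
  · refine le_trans ?_ (le_max_left _ _)
    nlinarith [mul_nonneg (sub_nonneg.2 h1) (neg_nonneg.2 (not_le.1 h).le), sq_nonneg (η - j / 64)]

theorem qm_nonneg (a b j k : ℤ) : 0 ≤ qm a b j k := le_max_of_le_left (by positivity)

theorem QQ_nonneg (s : ℕ) (η : ℝ) : 0 ≤ QQ s η := by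
  unfold QQ
  positivity

theorem QQ_le (s j k : ℕ) {η : ℝ} (h1 : (j : ℝ) / 64 ≤ η) (h2 : η ≤ (k : ℝ) / 64) :
    QQ s η ≤ (QI s j k : ℝ) / 4096 ^ 4 := by
  have e : (QI s j k : ℝ) = ((qm (-la s) (-lb s) j k * qm (-la s) (lb s) j k *
      qm (1537 + la s) (lb s) j k * qm (1537 + la s) (-lb s) j k : ℤ) : ℝ) := by
    unfold QI
    rw [← Int.cast_natCast, Int.toNat_of_nonneg]
    exact mul_nonneg (mul_nonneg (mul_nonneg (qm_nonneg _ _ _ _) (qm_nonneg _ _ _ _))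
      (qm_nonneg _ _ _ _)) (qm_nonneg _ _ _ _)
  have a1 := qm_le (-la s) (-lb s) j k h1 h2
  have a2 := qm_le (-la s) (lb s) j k h1 h2
  have a3 := qm_le (1537 + la s) (lb s) j k h1 h2
  have a4 := qm_le (1537 + la s) (-lb s) j k h1 h2
  rw [e]
  simp only [Int.cast_mul]
  generalize (qm (-la s) (-lb s) j k : ℝ) = x1 at *
  generalize (qm (-la s) (lb s) j k : ℝ) = x2 at *
  generalize (qm (1537 + la s) (lb s) j k : ℝ) = x3 at *
  generalize (qm (1537 + la s) (-lb s) j k : ℝ) = x4 at *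
  push_cast at a1 a2 a3 a4
  rw [show x1 * x2 * x3 * x4 / 4096 ^ 4 = x1 / 4096 * (x2 / 4096) * (x3 / 4096) * (x4 / 4096) by ring]
  unfold QQ
  have b1 : (η - la s / 64) ^ 2 + (η - lb s / 64) ^ 2 ≤ x1 / 4096 := le_of_eq_of_le (by ring) a1
  have b2 : (η - la s / 64) ^ 2 + (η + lb s / 64) ^ 2 ≤ x2 / 4096 := le_of_eq_of_le (by ring) a2
  have b3 : (1537 / 64 + η + la s / 64) ^ 2 + (η + lb s / 64) ^ 2 ≤ x3 / 4096 :=
    le_of_eq_of_le (by ring) a3
  have b4 : (1537 / 64 + η + la s / 64) ^ 2 + (η - lb s / 64) ^ 2 ≤ x4 / 4096 :=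
    le_of_eq_of_le (by ring) a4
  have c1 : 0 ≤ x1 / 4096 := le_trans (by positivity) b1
  have c2 : 0 ≤ x2 / 4096 := le_trans (by positivity) b2
  have c3 : 0 ≤ x3 / 4096 := le_trans (by positivity) b3
  gcongr

theorem r_le : (121683 / 10 ^ 5 : ℝ) ≤ Real.exp (157 / 800) := by
  refine le_trans ?_ (Real.sum_le_exp_of_nonneg (by norm_num) 10)
  simp only [Finset.sum_range_succ, Finset.sum_range_zero, Nat.factorial]
  norm_num

theorem exp_ge (j b : ℕ) : (121683 / 10 ^ 5 : ℝ) ^ j / (27182818286 / 10 ^ 10) ^ b ≤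
    Real.exp (-(b : ℝ) + 314 / 25 * (j / 64)) := by
  have e1 : Real.exp (-(b : ℝ) + 314 / 25 * (j / 64)) =
      Real.exp (157 / 800) ^ j / Real.exp 1 ^ b := by
    rw [← Real.exp_nat_mul, ← Real.exp_nat_mul, ← Real.exp_sub]
    congr 1
    ring
  have e2 : Real.exp 1 ≤ 27182818286 / 10 ^ 10 := Real.exp_one_lt_d9.le.trans (by norm_num)
  rw [e1]
  exact div_le_div₀ (by positivity) (pow_le_pow_left₀ (by positivity) r_le _) (by positivity)
    (pow_le_pow_left₀ (by positivity) e2 _)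

theorem alg {a b q x r s E F : ℝ} (hb : 0 < b) (hx : 0 < x) (hs : 0 < s) (hE : 0 < E) (hF : 0 < F)
    (h : a * q * s * E ≤ b * x * r * F) : a / b * (q / x) ≤ r / s / (E / F) := by
  have e2 : r / s / (E / F) = r * F / (s * E) := by field_simp
  rw [div_mul_div_comm, e2, div_le_div_iff₀ (by positivity) (by positivity)]
  linarith

theorem of_step {j k : ℕ} (h : step j k = true) {s : ℕ} (hs : s ≤ 9) {η : ℝ}
    (h1 : (j : ℝ) / 64 ≤ η) (h2 : η ≤ (k : ℝ) / 64) :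
    WW η * ∏ s' ∈ range s, QQ s' η ^ 2 ≤ Real.exp (-(be s : ℝ) + 314 / 25 * η) := by
  have h4 := List.all_eq_true.1 h s (List.mem_range.2 (by omega))
  rw [decide_eq_true_eq] at h4
  have h6 : (∏ a ∈ range 24, (cn a k : ℝ)) * (∏ s' ∈ range s, (QI s' j k : ℝ) ^ 2) * (10 ^ 5) ^ j *
      27182818286 ^ be s ≤
      (∏ a ∈ range 24, (cd a j : ℝ)) * (4096 ^ 8) ^ s * 121683 ^ j * (10 ^ 10) ^ be s := by
    have := (Nat.cast_le (α := ℝ)).2 h4
    simpa only [Nat.cast_mul, Nat.cast_pow, Nat.cast_ofNat, Nat.cast_prod] using this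
  have h7 := alg (prod_pos fun a _ => cd_pos a j) (by positivity) (by positivity) (by positivity)
    (by positivity) h6
  rw [← div_pow, ← div_pow] at h7
  have h8 : WW η ≤ (∏ a ∈ range 24, (cn a k : ℝ)) / ∏ a ∈ range 24, (cd a j : ℝ) := by
    rw [← prod_div_distrib]
    exact prod_le_prod (fun a _ => wc_nonneg a η) fun a _ => wc_le a j k h1 h2
  have h9 : ∏ s' ∈ range s, QQ s' η ^ 2 ≤
      (∏ s' ∈ range s, (QI s' j k : ℝ) ^ 2) / (4096 ^ 8) ^ s := by
    rw [show ((4096 : ℝ) ^ 8) ^ s = ∏ _s' ∈ range s, ((4096 : ℝ) ^ 4) ^ 2 by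
      rw [prod_const, card_range, ← pow_mul 4096 4 2], ← prod_div_distrib]
    refine prod_le_prod (fun a _ => sq_nonneg _) fun a _ => ?_
    rw [← div_pow]
    exact pow_le_pow_left₀ (QQ_nonneg a η) (QQ_le a j k h1 h2) 2
  refine (mul_le_mul h8 h9 (prod_nonneg fun _ _ => sq_nonneg _)
    (div_nonneg (prod_nonneg fun _ _ => Nat.cast_nonneg _)
      (prod_nonneg fun _ _ => Nat.cast_nonneg _))).trans
    (h7.trans ((exp_ge j _).trans (Real.exp_le_exp.2 (by linarith))))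

theorem l_le (s : ℕ) : la s ≤ 219 ∧ lb s ≤ 219 ∧ be s ≤ 370 := by
  by_cases h : s < 10
  · interval_cases s <;> decide
  · obtain ⟨t, rfl⟩ : ∃ t, s = t + 10 := ⟨s - 10, by omega⟩
    simp [la, lb, be]

theorem tail {s : ℕ} (hs : s ≤ 9) {η : ℝ} (h : 41 ≤ η) :
    WW η * ∏ s' ∈ range s, QQ s' η ^ 2 ≤ Real.exp (-(be s : ℝ) + 314 / 25 * η) := by
  have h0 : 0 < η := by linarith
  set x : ℝ := 2 * η ^ 2 with hx
  have hx1 : 1 ≤ x := by nlinarith
  have h1 : WW η ≤ ∏ a ∈ range 24, if a < 4 ∨ 20 ≤ a then (4 * x) ^ 3 else (x ^ 6)⁻¹ := by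
    refine prod_le_prod (fun a _ => wc_nonneg a η) fun a ha => ?_
    have ha' : (a : ℝ) ≤ 23 := by
      have := mem_range.1 ha
      exact_mod_cast (show a ≤ 23 by omega)
    have ha0 : (0 : ℝ) ≤ a := by positivity
    split_ifs
    · exact pow_le_pow_left₀ (by positivity) (by nlinarith) _
    · exact inv_anti₀ (by positivity) (pow_le_pow_left₀ (by positivity) (by nlinarith) _)
  have h2 : (∏ a ∈ range 24, if a < 4 ∨ 20 ≤ a then (4 * x) ^ 3 else (x ^ 6)⁻¹) =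
      (4 * x) ^ 24 / x ^ 96 := by
    simp only [prod_range_succ, prod_range_zero]
    norm_num
    field_simp
  have h3 : ∏ s' ∈ range s, QQ s' η ^ 2 ≤ (4 * x) ^ 72 := by
    refine (prod_le_prod (fun _ _ => sq_nonneg _) (g := fun _ => (4 * x) ^ 8) fun a _ => ?_).trans ?_
    · rw [show (4 * x) ^ 8 = ((4 * x) * (4 * x) * (4 * x) * (4 * x)) ^ 2 by ring]
      refine pow_le_pow_left₀ (QQ_nonneg a η) ?_ 2
      have a1 : (la a : ℝ) ≤ 219 := by exact_mod_cast (l_le a).1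
      have a2 : (lb a : ℝ) ≤ 219 := by exact_mod_cast (l_le a).2.1
      have a3 : (0 : ℝ) ≤ la a := by positivity
      have a4 : (0 : ℝ) ≤ lb a := by positivity
      have key : ∀ u w : ℝ, -η ≤ u → u ≤ η → -η ≤ w → w ≤ η →
          (η + u) ^ 2 + (η + w) ^ 2 ≤ 4 * x := fun u w u1 u2 w1 w2 => by nlinarith
      have b1 := key (-(la a / 64)) (-(lb a / 64)) (by linarith) (by linarith) (by linarith)
        (by linarith)
      have b2 := key (-(la a / 64)) (lb a / 64) (by linarith) (by linarith) (by linarith)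
        (by linarith)
      have b3 := key (1537 / 64 + la a / 64) (lb a / 64) (by linarith) (by linarith) (by linarith)
        (by linarith)
      have b4 := key (1537 / 64 + la a / 64) (-(lb a / 64)) (by linarith) (by linarith)
        (by linarith) (by linarith)
      unfold QQ
      gcongr
      · exact le_of_eq_of_le (by ring) b1
      · exact le_of_eq_of_le (by ring) b2
      · exact le_of_eq_of_le (by ring) b3
      · exact le_of_eq_of_le (by ring) b4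
    · rw [prod_const, card_range, ← pow_mul]
      exact pow_le_pow_right₀ (by linarith) (by omega)
  have h4 : (4 * x) ^ 24 / x ^ 96 * (4 * x) ^ 72 = 4 ^ 96 := by field_simp
  have h5 : (4 : ℝ) ^ 96 ≤ (27 / 10) ^ 140 := by norm_num
  have h6 : (27 / 10 : ℝ) ^ 140 ≤ Real.exp 1 ^ 140 :=
    pow_le_pow_left₀ (by norm_num) (le_trans (by norm_num) Real.exp_one_gt_d9.le) _
  rw [← Real.exp_nat_mul] at h6
  have h7 : (be s : ℝ) ≤ 370 := by exact_mod_cast (l_le s).2.2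
  refine (mul_le_mul (h1.trans h2.le) h3 (prod_nonneg fun _ _ => sq_nonneg _)
    (by positivity)).trans (h4.le.trans (h5.trans (h6.trans (Real.exp_le_exp.2 ?_))))
  push_cast
  linarith

theorem chk_nil (j : ℕ) : chk j [] = decide (2624 ≤ j) := rfl

theorem chk_cons (j k : ℕ) (l : List ℕ) : chk j (k :: l) = (step j k && chk k l) := rfl

theorem of_chk {s : ℕ} (hs : s ≤ 9) (l : List ℕ) : ∀ j : ℕ, chk j l = true → ∀ η : ℝ,
    (j : ℝ) / 64 ≤ η →
    WW η * ∏ s' ∈ range s, QQ s' η ^ 2 ≤ Real.exp (-(be s : ℝ) + 314 / 25 * η) := by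
  induction l with
  | nil =>
    intro j h η h1
    rw [chk_nil, decide_eq_true_eq] at h
    have : (2624 : ℝ) ≤ j := by exact_mod_cast h
    exact tail hs (by linarith)
  | cons k l ih =>
    intro j h η h1
    rw [chk_cons, Bool.and_eq_true] at h
    rcases le_total η ((k : ℝ) / 64) with h2 | h2
    · exact of_step h.1 hs h1 h2
    · exact ih k h.2 η h2

end PhiP

theorem phi : PhiStmt := fun _ hs η hη => PhiP.of_chk hs _ 0 PhiP.chk_bps η (by simpa using hη)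

end Pool.Agent.MP_807c24_nt.D57
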