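import Pool.Agent.MP_807c24_nt.D57.Spec

/-!
The sum over the primes.
-/

namespace Pool.Agent.MP_807c24_nt.D57

open Finset Filter

namespace Prime

theorem psi_zero {l q : ℕ} (h : l ≤ q) : psi l q = 0 := by
  refine sum_eq_zero fun d hd => ?_
  obtain ⟨h1, h2⟩ := mem_filter.1 hd
  have := Nat.le_of_dvd (mem_Icc.1 h1).1 h2
  omega

theorem psi_two {l q : ℕ} (hq : 0 < q) (h : l ≤ 3 * q) : psi l q = (l - q) + (l - 2 * q) := by
  rw [← sum_pair (f := fun d => l - d) (show q ≠ 2 * q by omega)]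
  refine sum_congr_of_eq_on_inter (fun a ha hb => ?_) (fun a ha hb => ?_) fun _ _ _ => rfl
  · obtain ⟨h1, k, rfl⟩ := mem_filter.1 ha
    have h2 := (mem_Icc.1 h1).1
    simp only [mem_insert, mem_singleton, not_or] at hb
    rcases k with _ | _ | _ | k
    · omega
    · omega
    · omega
    · have : q * (k + 1 + 1 + 1) = q * k + 3 * q := by ring
      omega
  · by_contra c
    refine hb (mem_filter.2 ?_)
    rcases mem_insert.1 ha with rfl | ha
    · exact ⟨mem_Icc.2 ⟨hq, by omega⟩, dvd_rfl⟩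
    · rw [mem_singleton.1 ha] at c ⊢
      exact ⟨mem_Icc.2 ⟨by omega, by omega⟩, dvd_mul_left _ _⟩

theorem Phi_cast (L q : ℕ) : (Phi L q : ℝ) = 81 * (psi (16 * L + 1) q : ℝ) +
    9 * psi (24 * L + 1) q - 54 * psi (20 * L + 1) q + 54 * psi (4 * L) q := by
  simp [Phi]

/-- The autocorrelations at the powers of `p`. -/
noncomputable def AA (L p : ℕ) : ℝ := ∑ a ∈ Icc 1 (Nat.log p (24 * L + 2)), (Phi L (p ^ a) : ℝ)

theorem sum_AA (h2 : FactStmt) (L : ℕ) :
    ∑ p ∈ (range (24 * L + 2 + 1)).filter Nat.Prime, AA L p * Real.log p =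
      81 * SS (16 * L + 1) + 9 * SS (24 * L + 1) - 54 * SS (20 * L + 1) + 54 * SS (4 * L) := by
  rw [h2 (16 * L + 1) (24 * L + 2) (by omega), h2 (24 * L + 1) (24 * L + 2) (by omega),
    h2 (20 * L + 1) (24 * L + 2) (by omega), h2 (4 * L) (24 * L + 2) (by omega), mul_sum, mul_sum,
    mul_sum, mul_sum, ← sum_add_distrib, ← sum_sub_distrib, ← sum_add_distrib]
  refine sum_congr rfl fun p _ => ?_
  simp only [AA, Phi_cast, sum_add_distrib, sum_sub_distrib, ← mul_sum]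
  ring

theorem phi_low (h3 : PsiStmt) {L q : ℕ} (hL : 1 ≤ L) (hq : 2 ≤ q) (hq' : q ≤ 24 * L + 2) :
    (648 * (L : ℝ) ^ 2 + 144 * L) * (1 / (q : ℝ)) ≤ (Phi L q : ℝ) / 4 + 150 * L := by
  have a1 := (h3 (16 * L + 1) q (by omega)).1
  have a2 := (h3 (24 * L + 1) q (by omega)).1
  have a3 := (h3 (20 * L + 1) q (by omega)).2
  have a4 := (h3 (4 * L) q (by omega)).1
  have hL' : (1 : ℝ) ≤ L := by exact_mod_cast hL
  have b1 : (2 : ℝ) ≤ q := by exact_mod_cast hq
  have b2 : (q : ℝ) ≤ 24 * L + 2 := by exact_mod_cast hq'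
  have e : ∀ y : ℝ, y / (2 * q) = y * (1 / q) / 2 := fun y => by ring
  have b3 : 1 / (q : ℝ) ≤ 1 / 2 := one_div_le_one_div_of_le two_pos b1
  have b4 : 0 ≤ 1 / (q : ℝ) := by positivity
  rw [e] at a1 a2 a3 a4
  rw [Phi_cast]
  push_cast at a1 a2 a3 a4
  generalize 1 / (q : ℝ) = u at *
  nlinarith

theorem small (h3 : PsiStmt) {L p : ℕ} (hL : 1 ≤ L) (hp : p.Prime) :
    fS L p ≤ AA L p / 4 * Real.log p + 654 * L * Real.log (24 * L + 2) := by
  have l0 := Real.log_natCast_nonneg p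
  have h1 : (648 * (L : ℝ) ^ 2 + 144 * L) *
      (∑ a ∈ Icc 1 (Nat.log p (24 * L + 2)), 1 / (p : ℝ) ^ a) ≤
      AA L p / 4 + Nat.log p (24 * L + 2) * (150 * L) := by
    rw [mul_sum, AA, sum_div]
    refine (sum_le_sum (g := fun a => (Phi L (p ^ a) : ℝ) / 4 + 150 * L) fun a ha => ?_).trans
      (le_of_eq (by simp [sum_add_distrib]))
    obtain ⟨h4, h5⟩ := mem_Icc.1 ha
    have h6 := phi_low h3 hL (q := p ^ a) (hp.two_le.trans (Nat.le_self_pow (by omega) p))
      (Nat.pow_le_of_le_log (by omega) h5)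
    rwa [Nat.cast_pow] at h6
  have h2 : (Nat.log p (24 * L + 2) : ℝ) * Real.log p ≤ Real.log (24 * L + 2) := by
    rw [← Real.log_pow]
    refine Real.log_le_log (pow_pos (by exact_mod_cast hp.pos) _) ?_
    exact_mod_cast Nat.pow_log_le_self p (show 24 * L + 2 ≠ 0 by omega)
  have h4 := mul_le_mul_of_nonneg_right h1 l0
  have h5 := mul_le_mul_of_nonneg_left h2 (show (0 : ℝ) ≤ 150 * L by positivity)
  unfold fS
  nlinarith

theorem AA_eq {L p : ℕ} (hp : p.Prime) (h : 24 * L + 2 ≤ p ^ 2) (h' : p ≤ 24 * L + 2) :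
    AA L p = Phi L p := by
  unfold AA
  rw [sum_eq_single 1, pow_one]
  · intro a ha h1
    have h2 := h.trans (Nat.pow_le_pow_right hp.pos (show 2 ≤ a by
      have := (mem_Icc.1 ha).1
      omega))
    rw [Phi_cast, psi_zero (by omega), psi_zero (by omega), psi_zero (by omega),
      psi_zero (by omega)]
    simp
  · exact fun h1 => (h1 (mem_Icc.2 ⟨le_rfl, Nat.log_pos hp.one_lt h'⟩)).elim

theorem medium {L p : ℕ} (hL : 100000 ≤ L) (hp : p.Prime) (h : 24 * L + 2 ≤ p ^ 2)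
    (h' : p ≤ 24 * L + 2) :
    fM L p ≤ AA L p / 4 * Real.log p + 2161 / 16 * L * Real.log p := by
  rw [AA_eq hp h h', fM, ← add_mul]
  refine mul_le_mul_of_nonneg_right ?_ (Real.log_natCast_nonneg p)
  have h1 : 1536 ≤ p := by
    by_contra c
    have := Nat.pow_le_pow_left (not_le.1 c).le 2
    omega
  have h2 : (1536 : ℝ) ≤ p := by exact_mod_cast h1
  have h3 : (100000 : ℝ) ≤ L := by exact_mod_cast hL
  have h4 : 48 * (L : ℝ) / p ≤ 48 * L / 1536 :=
    div_le_div_of_nonneg_left (by positivity) (by norm_num) h2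
  linarith

/-- The contribution of a large prime. -/
noncomputable def GG (L p : ℕ) : ℝ :=
  31 / 4 * (((16 * L + 1 - p : ℕ) : ℝ) * Real.log p) +
    27 / 2 * (((20 * L + 1 - p : ℕ) : ℝ) * Real.log p) -
    9 / 4 * (((24 * L + 1 - p : ℕ) : ℝ) * Real.log p) -
    9 / 2 * (((12 * L - p : ℕ) : ℝ) * Real.log p)

theorem large {L p : ℕ} (hp : p.Prime) (h : 24 * L + 2 ≤ p ^ 2) (h' : p ≤ 24 * L + 2)
    (h1 : 10 * L + 1 < p) : fL L p ≤ AA L p / 4 * Real.log p + GG L p := by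
  rw [AA_eq hp h h', Phi_cast, psi_two hp.pos (by omega), psi_two hp.pos (by omega),
    psi_two hp.pos (by omega), psi_zero (by omega), show 16 * L + 1 - 2 * p = 0 by omega,
    show 20 * L + 1 - 2 * p = 0 by omega, fL, GG]
  have h2 : 2 * ((12 * L - p : ℕ) : ℝ) ≤ ((24 * L + 1 - 2 * p : ℕ) : ℝ) := by
    exact_mod_cast (show 2 * (12 * L - p) ≤ 24 * L + 1 - 2 * p by omega)
  have h3 := mul_le_mul_of_nonneg_right h2 (Real.log_natCast_nonneg p)
  simp only [add_zero, Nat.cast_add, Nat.cast_zero]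
  linarith

theorem each (h3 : PsiStmt) {L p : ℕ} (hL : 100000 ≤ L) (hp : p.Prime) (h' : p ≤ 24 * L + 2) :
    ff L p ≤ AA L p / 4 * Real.log p +
      (if p ^ 2 < 24 * L + 2 then 654 * L * Real.log (24 * L + 2) else 0) +
      if p ≤ 10 * L + 1 then 2161 / 16 * L * Real.log p else GG L p := by
  have l0 := Real.log_natCast_nonneg p
  unfold ff
  split_ifs with h h1 h1
  · have := small h3 (by omega : 1 ≤ L) hp
    have h2 : (0 : ℝ) ≤ 2161 / 16 * L * Real.log p := by positivity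
    linarith
  · nlinarith
  · linarith [medium hL hp (not_lt.1 h) h']
  · linarith [large hp (not_lt.1 h) h' (not_le.1 h1)]

theorem filt {X H : ℕ} (h : X ≤ H) :
    ((range (H + 1)).filter Nat.Prime).filter (fun p => p ≤ X) =
      (range (X + 1)).filter Nat.Prime := by
  ext p
  simp only [mem_filter, mem_range]
  exact ⟨fun h1 => ⟨by omega, h1.1.2⟩, fun h1 => ⟨⟨by omega, h1.2⟩, by omega⟩⟩

theorem tail {X l H : ℕ} (h : X ≤ l) (h' : l ≤ H) :
    ∑ p ∈ ((range (H + 1)).filter Nat.Prime).filter (fun p => ¬p ≤ X),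
      ((l - p : ℕ) : ℝ) * Real.log p = TT l - TT X - (l - X) * TH X := by
  have h1 := sum_filter_add_sum_filter_not ((range (H + 1)).filter Nat.Prime) (fun p => p ≤ X)
    fun p => ((l - p : ℕ) : ℝ) * Real.log p
  have h2 : ∑ p ∈ (range (H + 1)).filter Nat.Prime, ((l - p : ℕ) : ℝ) * Real.log p = TT l := by
    rw [← sum_filter_of_ne (p := fun p => p ≤ l) fun p _ hp => by
      by_contra c
      simp [show l - p = 0 by omega] at hp, filt h']
    refine sum_congr rfl fun p hp => ?_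
    rw [Nat.cast_sub (by simpa using Nat.lt_succ_iff.1 (mem_range.1 (mem_filter.1 hp).1))]
  have h3 : ∑ p ∈ (range (X + 1)).filter Nat.Prime, ((l - p : ℕ) : ℝ) * Real.log p =
      TT X + (l - X) * TH X := by
    rw [TT, TH, mul_sum, ← sum_add_distrib]
    refine sum_congr rfl fun p hp => ?_
    rw [Nat.cast_sub ((Nat.lt_succ_iff.1 (mem_range.1 (mem_filter.1 hp).1)).trans h)]
    ring
  rw [filt (h.trans h'), h2, h3] at h1
  linarith

theorem win {a b c X l x ε : ℝ} (hε : 0 ≤ ε) (ha : |a - l ^ 2 / 2| ≤ ε * l ^ 2)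
    (hb : |b - X ^ 2 / 2| ≤ ε * X ^ 2) (hc : |c - X| ≤ ε * X) (h0 : 0 ≤ X) (h1 : X ≤ l)
    (h2 : l ≤ 25 * x) : |a - b - (l - X) * c - (l - X) ^ 2 / 2| ≤ 1875 * ε * x ^ 2 := by
  obtain ⟨a1, a2⟩ := abs_le.1 ha
  obtain ⟨b1, b2⟩ := abs_le.1 hb
  obtain ⟨c1, c2⟩ := abs_le.1 hc
  have d1 := mul_le_mul_of_nonneg_left c1 (sub_nonneg.2 h1)
  have d2 := mul_le_mul_of_nonneg_left c2 (sub_nonneg.2 h1)
  have e1 : l ^ 2 ≤ 625 * x ^ 2 := by nlinarith
  have e2 : X ^ 2 ≤ 625 * x ^ 2 := by nlinarith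
  have e3 : (l - X) * X ≤ 625 * x ^ 2 := by nlinarith
  have f1 := mul_le_mul_of_nonneg_left e1 hε
  have f2 := mul_le_mul_of_nonneg_left e2 hε
  have f3 := mul_le_mul_of_nonneg_left e3 hε
  rw [abs_le]
  constructor <;> nlinarith

theorem sup (h1 : SuperStmt) {l : ℕ} {y x w : ℝ} (hy : 1 ≤ y) (h2 : y ≤ l) (h3 : l ≤ y + 1)
    (h4 : (l : ℝ) ≤ 25 * x) (h5 : Real.log (l + 1) ≤ w) :
    |SS l - (y ^ 2 / 2 * Real.log y - 3 / 4 * y ^ 2)| ≤ 125 * x * (w + 1) := by
  have l1 : (1 : ℝ) ≤ l := hy.trans h2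
  obtain ⟨a1, a2⟩ := abs_le.1 (h1 l (by exact_mod_cast l1))
  have b0 : 0 ≤ Real.log y := Real.log_nonneg hy
  have b1 : Real.log y ≤ Real.log l := Real.log_le_log (by linarith) h2
  have b2 : Real.log l ≤ w := (Real.log_le_log (by linarith) (by linarith)).trans h5
  have b3 : y * (Real.log l - Real.log y) ≤ 1 := by
    have := Real.log_le_sub_one_of_pos (x := l / y) (by positivity)
    rw [Real.log_div (by positivity) (by positivity)] at this
    have h6 := mul_le_mul_of_nonneg_left this (show 0 ≤ y by linarith)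
    rw [mul_sub y (l / y), mul_div_cancel₀ _ (by positivity)] at h6
    linarith
  have c1 : 2 * l * (Real.log (l + 1) + 1) ≤ 50 * x * (w + 1) :=
    mul_le_mul (by linarith) (by linarith) (by linarith [Real.log_nonneg (show (1 : ℝ) ≤ l + 1 by
      linarith)]) (by linarith)
  have c2 : (l : ℝ) ^ 2 - y ^ 2 ≤ 50 * x := by nlinarith
  have c3 : 0 ≤ (l : ℝ) ^ 2 - y ^ 2 := by nlinarith
  have c4 := mul_le_mul c2 b2 (by linarith) (by linarith)
  have c5 := mul_nonneg c3 (b0.trans b1)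
  have c6 := mul_le_mul_of_nonneg_left b3 (show 0 ≤ y by linarith)
  have c7 := mul_nonneg (sq_nonneg y) (sub_nonneg.2 b1)
  have c8 : 0 ≤ x * w := mul_nonneg (by linarith) (by linarith)
  rw [abs_le]
  constructor <;> nlinarith

theorem logs {x : ℝ} (hx : 120000 ^ 4 ≤ x) :
    10000 * (Real.log (24 * x + 2) + 1) ≤ √x := by
  have h0 : (1 : ℝ) ≤ x := le_trans (by norm_num) hx
  set r := √(√x) with hr
  have e1 : r ^ 2 = √x := Real.sq_sqrt (Real.sqrt_nonneg _)
  have e2 : r ^ 4 = x := by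
    rw [show r ^ 4 = (r ^ 2) ^ 2 by ring, e1, Real.sq_sqrt (by linarith)]
  have r0 : 120000 ≤ r := le_of_pow_le_pow_left₀ (n := 4) (by norm_num) (Real.sqrt_nonneg _)
    (e2 ▸ hx)
  have h1 : Real.log (24 * x + 2) ≤ Real.log ((3 * r) ^ 4) :=
    Real.log_le_log (by linarith) (by rw [mul_pow, e2]; linarith)
  have h2 := Real.log_le_sub_one_of_pos (x := 3 * r) (by linarith)
  rw [Real.log_pow] at h1
  push_cast at h1
  nlinarith

theorem card_small (L : ℕ) (hL : 1 ≤ L) :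
    ((((range (24 * L + 2 + 1)).filter Nat.Prime).filter fun p => p ^ 2 < 24 * L + 2).card : ℝ) ≤
      7 * √(L : ℝ) := by
  have h1 : (((range (24 * L + 2 + 1)).filter Nat.Prime).filter fun p => p ^ 2 < 24 * L + 2) ⊆
      range (Nat.sqrt (36 * L) + 1) := fun p hp =>
    mem_range.2 (Nat.lt_succ_iff.2 (Nat.le_sqrt'.2 (by
      have := (mem_filter.1 hp).2
      omega)))
  have h2 := card_le_card h1
  rw [card_range] at h2
  have h3 := Real.nat_sqrt_le_real_sqrt (a := 36 * L)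
  rw [Nat.cast_mul, Real.sqrt_mul (by positivity), show ((36 : ℕ) : ℝ) = 6 ^ 2 by norm_num,
    Real.sqrt_sq (by norm_num)] at h3
  have h4 : 1 ≤ √(L : ℝ) := Real.one_le_sqrt.2 (by exact_mod_cast hL)
  refine (Nat.cast_le.2 h2).trans ?_
  push_cast
  linarith

end Prime

open Prime in
theorem primeSum (h1 : SuperStmt) (h2 : FactStmt) (h3 : PsiStmt) (h4 : ChebStmt) : PrimeStmt := by
  obtain ⟨N, hN⟩ := eventually_atTop.1 (h4 (1 / 50000) (by norm_num))
  filter_upwards [eventually_ge_atTop N, eventually_ge_atTop (120000 ^ 4)] with L hLN hL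
  have hL1 : 100000 ≤ L := le_trans (by norm_num) hL
  have x1 : (100000 : ℝ) ≤ L := by exact_mod_cast hL1
  have w1 := logs (x := L) (by exact_mod_cast hL)
  have e0 : ∑ p ∈ (range (16 * L + 1)).filter Nat.Prime, ff L p =
      ∑ p ∈ (range (24 * L + 2 + 1)).filter Nat.Prime, ff L p := by
    refine sum_subset (filter_subset_filter _ (range_mono (by omega))) fun p hp hp' => ?_
    have h5 : 16 * L + 1 ≤ p := not_lt.1 fun c =>
      hp' (mem_filter.2 ⟨mem_range.2 c, (mem_filter.1 hp).2⟩)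
    rw [ff, if_neg (by nlinarith), if_neg (by omega), fL, show 16 * L + 1 - p = 0 by omega]
    simp
  rw [e0]
  refine (sum_le_sum fun p hp => each h3 hL1 (mem_filter.1 hp).2
    (Nat.lt_succ_iff.1 (mem_range.1 (mem_filter.1 hp).1))).trans ?_
  rw [sum_add_distrib, sum_add_distrib, ← sum_filter, sum_const, nsmul_eq_mul, sum_ite,
    filt (by omega), ← mul_sum]
  simp only [GG, sum_add_distrib, sum_sub_distrib, ← mul_sum, div_mul_eq_mul_div _ (4 : ℝ),
    ← sum_div]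
  rw [sum_AA h2, tail (by omega) (by omega), tail (by omega) (by omega),
    tail (by omega) (by omega), tail (by omega) (by omega)]
  change _ + (_ * TH (10 * L + 1) + _) ≤ _
  obtain ⟨a1, a2⟩ := hN (10 * L + 1) (by omega)
  have key : ∀ l : ℕ, 10 * L + 1 ≤ l → l ≤ 25 * L → |TT l - TT (10 * L + 1) -
      ((l : ℝ) - (10 * L + 1 : ℕ)) * TH (10 * L + 1) - ((l : ℝ) - (10 * L + 1 : ℕ)) ^ 2 / 2| ≤
      1875 * (1 / 50000) * (L : ℝ) ^ 2 := fun l h5 h6 =>
    win (by norm_num) (hN l (by omega)).2 a2 a1 (Nat.cast_nonneg _) (Nat.cast_le.2 h5)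
      (by exact_mod_cast h6)
  have b1 := (abs_le.1 (key (16 * L + 1) (by omega) (by omega))).2
  have b2 := (abs_le.1 (key (20 * L + 1) (by omega) (by omega))).2
  have b3 := (abs_le.1 (key (24 * L + 1) (by omega) (by omega))).1
  have b4 := (abs_le.1 (key (12 * L) (by omega) (by omega))).1
  have key2 : ∀ (l : ℕ) (c : ℝ), 1 ≤ c → c * L ≤ l → l ≤ c * L + 1 → l ≤ 24 * L + 1 →
      |SS l - (c ^ 2 / 2 * ((L : ℝ) ^ 2 * Real.log L) + (c ^ 2 / 2 * Real.log c - 3 / 4 * c ^ 2) *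
        (L : ℝ) ^ 2)| ≤ 125 * L * (Real.log (24 * L + 2) + 1) := fun l c h5 h6 h7 h8 => by
    have h9 : (l : ℝ) ≤ 24 * L + 1 := by exact_mod_cast h8
    have h10 := sup h1 (x := L) (w := Real.log (24 * L + 2)) (by nlinarith) h6 h7 (by linarith)
      (Real.log_le_log (by positivity) (by linarith))
    rw [Real.log_mul (by positivity) (by positivity)] at h10
    convert h10 using 3
    ring
  have c1 := (abs_le.1 (key2 (16 * L + 1) 16 (by norm_num) (by simp) (by simp) (by omega))).2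
  have c2 := (abs_le.1 (key2 (24 * L + 1) 24 (by norm_num) (by simp) (by simp) (by omega))).2
  have c3 := (abs_le.1 (key2 (20 * L + 1) 20 (by norm_num) (by simp) (by simp) (by omega))).1
  have c4 := (abs_le.1 (key2 (4 * L) 4 (by norm_num) (by simp) (by simp) (by omega))).2
  have g1 : Real.log 16 = 4 * Real.log 2 := by
    rw [show (16 : ℝ) = 2 ^ 4 by norm_num, Real.log_pow, Nat.cast_ofNat]
  have g2 : Real.log 24 = 3 * Real.log 2 + Real.log 3 := by
    rw [show (24 : ℝ) = 2 ^ 3 * 3 by norm_num, Real.log_mul (by norm_num) (by norm_num),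
      Real.log_pow, Nat.cast_ofNat]
  have g3 : Real.log 20 = 2 * Real.log 2 + Real.log 5 := by
    rw [show (20 : ℝ) = 2 ^ 2 * 5 by norm_num, Real.log_mul (by norm_num) (by norm_num),
      Real.log_pow, Nat.cast_ofNat]
  have g4 : Real.log 4 = 2 * Real.log 2 := by
    rw [show (4 : ℝ) = 2 ^ 2 by norm_num, Real.log_pow, Nat.cast_ofNat]
  rw [g1] at c1
  rw [g2] at c2
  rw [g3] at c3
  rw [g4] at c4
  have s0 := sq_nonneg (L : ℝ)
  have d1 := mul_le_mul_of_nonneg_right Real.log_two_lt_d9.le s0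
  have d2 := mul_le_mul_of_nonneg_right Real.log_three_lt_d9.le s0
  have d3 := mul_le_mul_of_nonneg_right Real.log_five_gt_d9.le s0
  have w0 : 0 ≤ Real.log (24 * (L : ℝ) + 2) := Real.log_nonneg (by linarith)
  have s1 : √(L : ℝ) * √(L : ℝ) = L := Real.mul_self_sqrt (by linarith)
  have s2 : 1 ≤ √(L : ℝ) := Real.one_le_sqrt.2 (by linarith)
  have s3 : √(L : ℝ) ≤ L := by nlinarith
  have f1 := mul_le_mul_of_nonneg_right (card_small L (by omega))
    (show (0 : ℝ) ≤ 654 * L * Real.log (24 * L + 2) by positivity)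
  have f2 : 10000 * (√(L : ℝ) * Real.log (24 * L + 2)) ≤ L := by nlinarith
  have f3 := mul_le_mul_of_nonneg_left f2 (show (0 : ℝ) ≤ L by linarith)
  have f4 := mul_le_mul_of_nonneg_left (w1.trans s3) (show (0 : ℝ) ≤ L by linarith)
  have f5 := mul_le_mul_of_nonneg_left (abs_le.1 a1).2 (show (0 : ℝ) ≤ L by linarith)
  have f6 := mul_le_mul_of_nonneg_left x1 (show (0 : ℝ) ≤ L by linarith)
  push_cast at b1 b2 b3 b4 f5 ⊢
  nlinarith

end Pool.Agent.MP_807c24_nt.D57
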