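import Pool.Agent.MP_807c24_nt.D57.Spec
import Pool.Agent.MP_807c24_nt.H13.Contour

/-! The contour integral bound on the ray of direction `1 + i`. -/

namespace Pool.Agent.MP_807c24_nt.D57

open Finset Filter Topology MeasureTheory Complex
open Pool.Agent.MP_807c24_nt.H13.Contour (int_lor half_ne summ)

noncomputable section

namespace Ray

/-- `1 / (A + (1 + i) y)`. -/
def u (A y : ℝ) : ℂ := ((A : ℂ) + y * (1 + I))⁻¹

lemma ne0 {A : ℝ} (hA : A ≠ 0) (y : ℝ) : ((A : ℂ) + y * (1 + I)) ≠ 0 := by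
  intro h
  have h1 := congrArg Complex.re h
  have h2 := congrArg Complex.im h
  simp at h1 h2
  exact hA (by linarith)

lemma norm_sq_u (A y : ℝ) : ‖u A y‖ ^ 2 = ((A + y) ^ 2 + y ^ 2)⁻¹ := by
  unfold u
  have : (A : ℂ) + y * (1 + I) = ((A + y : ℝ) : ℂ) + y * I := by push_cast; ring
  rw [norm_inv, inv_pow, Complex.sq_norm, this, Complex.normSq_add_mul_I]

lemma inv_le {A : ℝ} (hA : A ≠ 0) (y : ℝ) :
    ((A + y) ^ 2 + y ^ 2)⁻¹ ≤ 3 * (A ^ 2 + y ^ 2)⁻¹ := by
  have h1 : 0 < A ^ 2 + y ^ 2 := by positivity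
  have h2 : 3 * (A ^ 2 + y ^ 2)⁻¹ = ((A ^ 2 + y ^ 2) / 3)⁻¹ := by field_simp
  rw [h2]
  apply inv_anti₀ (by positivity)
  nlinarith [sq_nonneg (2 * A + 3 * y), sq_nonneg y]

lemma norm_u_le {A : ℝ} (hA : A ≠ 0) (y : ℝ) : ‖u A y‖ ≤ 2 * |A|⁻¹ := by
  have h1 : 0 < |A| := abs_pos.mpr hA
  refine (pow_le_pow_iff_left₀ (norm_nonneg _) (by positivity) two_ne_zero).mp ?_
  have h2 : (2 * |A|⁻¹) ^ 2 = (A ^ 2 / 4)⁻¹ := by
    rw [mul_pow, inv_pow, sq_abs]
    field_simp
    norm_num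
  rw [norm_sq_u, h2]
  apply inv_anti₀ (by positivity)
  nlinarith [sq_nonneg (A + 2 * y), sq_nonneg A]

lemma cont_u {A : ℝ} (hA : A ≠ 0) : Continuous (u A) := by
  unfold u
  exact Continuous.inv₀ (by fun_prop) (ne0 hA)

lemma int_uu {A B : ℝ} (hA : A ≠ 0) (hB : B ≠ 0) : Integrable fun y => u A y * u B y := by
  refine Integrable.mono' ((((int_lor hA).const_mul 3).add ((int_lor hB).const_mul 3)).div_const 2)
    ((cont_u hA).mul (cont_u hB)).aestronglyMeasurable (Eventually.of_forall fun y => ?_)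
  simp only [Pi.add_apply, norm_mul]
  have h1 := inv_le hA y
  have h2 := inv_le hB y
  rw [← norm_sq_u] at h1 h2
  nlinarith [sq_nonneg (‖u A y‖ - ‖u B y‖)]

lemma int_mul {A : ℝ} (hA : A ≠ 0) {μ : Measure ℝ} {f : ℝ → ℂ} (hf : Integrable f μ) (k : ℕ) :
    Integrable (fun y => u A y ^ k * f y) μ :=
  hf.bdd_mul (c := (2 * |A|⁻¹) ^ k) ((cont_u hA).pow k).aestronglyMeasurable
    (Eventually.of_forall fun y => by
      rw [norm_pow]; exact pow_le_pow_left₀ (norm_nonneg _) (norm_u_le hA y) k)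

lemma int_pow {A B : ℝ} (hA : A ≠ 0) (hB : B ≠ 0) (i j : ℕ) (h : 2 ≤ i + j) :
    Integrable fun y => u A y ^ i * u B y ^ j := by
  match i, j, h with
  | 0, j + 2, _ =>
    refine (int_mul hB (int_uu hB hB) j).congr (Eventually.of_forall fun y => ?_)
    simp only; ring
  | i + 2, 0, _ =>
    refine (int_mul hA (int_uu hA hA) i).congr (Eventually.of_forall fun y => ?_)
    simp only; ring
  | i + 1, j + 1, _ =>
    refine (int_mul hA (int_mul hB (int_uu hA hB) j) i).congr (Eventually.of_forall fun y => ?_)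
    simp only; ring

lemma tend_u (A : ℝ) : Tendsto (u A) atTop (𝓝 0) := by
  rw [tendsto_zero_iff_norm_tendsto_zero]
  refine squeeze_zero' (Eventually.of_forall fun y => norm_nonneg _) ?_ tendsto_inv_atTop_zero
  filter_upwards [eventually_gt_atTop 0] with y hy
  refine (pow_le_pow_iff_left₀ (norm_nonneg _) (by positivity) two_ne_zero).mp ?_
  rw [norm_sq_u, inv_pow]
  apply inv_anti₀ (by positivity)
  nlinarith [sq_nonneg (A + y)]

/-- The imaginary part of the integral along the ray. -/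
def J (f : ℝ → ℂ) : ℝ := ((∫ y in Set.Ioi (0 : ℝ), f y) * (1 + I)).im

lemma val_pow {A : ℝ} (hA : A ≠ 0) (k : ℕ) : J (fun y => u A y ^ (k + 2)) = 0 := by
  have hd : ∀ y : ℝ, HasDerivAt (fun y : ℝ => -1 / (k + 1) * u A y ^ (k + 1))
      (u A y ^ (k + 2) * (1 + I)) y := by
    intro y
    have h0 : HasDerivAt (fun z : ℂ => (A : ℂ) + z * (1 + I)) (1 + I) (y : ℂ) := by
      simpa using ((hasDerivAt_id (y : ℂ)).mul_const (1 + I)).const_add (A : ℂ)
    have h1 := ((h0.inv (ne0 hA y)).pow (k + 1)).const_mul (-1 / ((k : ℂ) + 1))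
    have h2 := h1.comp_ofReal
    refine h2.congr_deriv ?_
    have hk : ((k : ℂ) + 1) ≠ 0 := by exact_mod_cast Nat.succ_ne_zero k
    have hn := ne0 hA y
    unfold u
    simp only [Pi.inv_apply, Nat.add_sub_cancel, Nat.cast_add, Nat.cast_one, inv_pow]
    field_simp
    ring
  have hi : Integrable fun y => u A y ^ (k + 2) := by
    simpa using int_pow hA hA (k + 2) 0 (by omega)
  have ht : Tendsto (fun y : ℝ => -1 / ((k : ℂ) + 1) * u A y ^ (k + 1)) atTop (𝓝 0) := by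
    simpa using ((tend_u A).pow (k + 1)).const_mul (-1 / ((k : ℂ) + 1))
  unfold J
  rw [← integral_mul_const, integral_Ioi_of_hasDerivAt_of_tendsto' (fun y _ => hd y)
    (hi.mul_const _).integrableOn ht]
  have h3 : (0 : ℂ) - -1 / ((k : ℂ) + 1) * u A 0 ^ (k + 1) =
      ((1 / ((k : ℝ) + 1) * A⁻¹ ^ (k + 1) : ℝ) : ℂ) := by
    unfold u
    push_cast
    ring
  rw [h3, Complex.ofReal_im]

lemma split {A B : ℝ} (hA : A ≠ 0) (hB : B ≠ 0) (hAB : A ≠ B) (y : ℝ) :
    u A y * u B y = (u A y - u B y) / ((B - A : ℝ) : ℂ) := by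
  have h1 := ne0 hA y
  have h2 := ne0 hB y
  have h3 : (B : ℂ) - A ≠ 0 := by
    rw [sub_ne_zero]; exact_mod_cast hAB.symm
  unfold u
  push_cast
  field_simp
  ring

lemma im_u (A y : ℝ) : (u A y * (1 + I)).im = A * ((A + y) ^ 2 + y ^ 2)⁻¹ := by
  unfold u
  have : (A : ℂ) + y * (1 + I) = ((A + y : ℝ) : ℂ) + y * I := by push_cast; ring
  rw [this, Complex.inv_def, Complex.normSq_add_mul_I]
  generalize ((A + y) ^ 2 + y ^ 2)⁻¹ = N
  simp
  ring

lemma int_im {A : ℝ} (hA : A ≠ 0) : Integrable fun y : ℝ => A * ((A + y) ^ 2 + y ^ 2)⁻¹ := by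
  refine Integrable.const_mul (Integrable.mono' ((int_lor hA).const_mul 3) ?_
    (Eventually.of_forall fun y => ?_)) A
  · exact Measurable.aestronglyMeasurable (by fun_prop)
  · rw [Real.norm_of_nonneg (by positivity)]
    exact inv_le hA y

lemma val_im {A : ℝ} (hA : A ≠ 0) : ∫ y in Set.Ioi (0 : ℝ), A * ((A + y) ^ 2 + y ^ 2)⁻¹ =
    Real.pi / 2 * (A / |A|) - Real.pi / 4 := by
  have hd : ∀ y : ℝ, HasDerivAt (fun y : ℝ => Real.arctan (2 / A * y + 1))
      (A * ((A + y) ^ 2 + y ^ 2)⁻¹) y := by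
    intro y
    have h0 : HasDerivAt (fun y : ℝ => 2 / A * y + 1) (2 / A) y := by
      simpa using ((hasDerivAt_id y).const_mul (2 / A)).add_const 1
    refine h0.arctan.congr_deriv ?_
    have h1 : 0 < (A + y) ^ 2 + y ^ 2 := by
      have : 0 < A ^ 2 := by positivity
      nlinarith [sq_nonneg (A + 2 * y)]
    have h2 : 1 + (2 / A * y + 1) ^ 2 = 2 * ((A + y) ^ 2 + y ^ 2) / A ^ 2 := by
      field_simp
      ring
    rw [h2]
    field_simp
  have ht : Tendsto (fun y : ℝ => Real.arctan (2 / A * y + 1)) atTop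
      (𝓝 (Real.pi / 2 * (A / |A|))) := by
    rcases lt_or_gt_of_ne hA with h | h
    · rw [abs_of_neg h, div_neg, div_self hA, mul_neg, mul_one]
      refine (tendsto_nhds_of_tendsto_nhdsWithin Real.tendsto_arctan_atBot).comp ?_
      exact tendsto_atBot_add_const_right _ _
        (tendsto_id.const_mul_atTop_of_neg (div_neg_of_pos_of_neg two_pos h))
    · rw [abs_of_pos h, div_self hA, mul_one]
      refine (tendsto_nhds_of_tendsto_nhdsWithin Real.tendsto_arctan_atTop).comp ?_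
      exact tendsto_atTop_add_const_right _ _ (tendsto_id.const_mul_atTop (by positivity))
  rw [integral_Ioi_of_hasDerivAt_of_tendsto' (fun y _ => hd y) (int_im hA).integrableOn ht]
  simp

/-- The jump constant. -/
def cc (A B : ℝ) : ℝ := Real.pi / 2 * (A / |A| - B / |B|)

lemma val_uu {A B : ℝ} (hA : A ≠ 0) (hB : B ≠ 0) (hAB : A ≠ B) :
    J (fun y => u A y * u B y) = cc A B / (B - A) := by
  have hi : IntegrableOn (fun y => u A y * u B y * (1 + I)) (Set.Ioi 0) :=
    ((int_uu hA hB).mul_const _).integrableOn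
  have h1 := integral_im hi
  simp only [RCLike.im_to_complex] at h1
  have h3 : ∀ y, (u A y * u B y * (1 + I)).im =
      (A * ((A + y) ^ 2 + y ^ 2)⁻¹ - B * ((B + y) ^ 2 + y ^ 2)⁻¹) / (B - A) := by
    intro y
    rw [split hA hB hAB, ← im_u, ← im_u, ← Complex.sub_im, ← Complex.div_ofReal_im]
    congr 1
    ring
  unfold J
  rw [← integral_mul_const, ← h1]
  simp_rw [h3]
  rw [integral_div, integral_sub (int_im hA).integrableOn (int_im hB).integrableOn, val_im hA,
    val_im hB, cc]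
  ring

lemma step {A B : ℝ} (hA : A ≠ 0) (hB : B ≠ 0) (hAB : A ≠ B) (i j : ℕ) (h : 1 ≤ i + j) :
    J (fun y => u A y ^ (i + 1) * u B y ^ (j + 1)) =
      (J (fun y => u A y ^ (i + 1) * u B y ^ j) - J fun y => u A y ^ i * u B y ^ (j + 1)) /
        (B - A) := by
  unfold J
  rw [← Complex.sub_im, ← sub_mul, ← Complex.div_ofReal_im, mul_div_right_comm,
    ← integral_sub (int_pow hA hB _ _ (by omega)).integrableOn
      (int_pow hA hB _ _ (by omega)).integrableOn, ← integral_div]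
  congr 3
  ext y
  have := split hA hB hAB y
  calc u A y ^ (i + 1) * u B y ^ (j + 1) = u A y ^ i * u B y ^ j * (u A y * u B y) := by ring
    _ = _ := by rw [this]; ring

lemma val_gen {A B : ℝ} (hA : A ≠ 0) (hB : B ≠ 0) (hAB : A ≠ B) (i j : ℕ) :
    J (fun y => u A y ^ (i + 1) * u B y ^ (j + 1)) =
      cc A B * (-1) ^ i * ((i + j).choose i : ℝ) / (B - A) ^ (i + j + 1) := by
  have h3 : B - A ≠ 0 := sub_ne_zero.mpr hAB.symm
  induction i generalizing j with
  | zero =>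
    induction j with
    | zero => simpa using val_uu hA hB hAB
    | succ j ih =>
      rw [step hA hB hAB 0 (j + 1) (by omega), ih]
      have := val_pow hB j
      simp only [pow_zero, one_mul, this, Nat.choose_zero_right, zero_add]
      field_simp
      ring
  | succ i ihi =>
    induction j with
    | zero =>
      rw [step hA hB hAB (i + 1) 0 (by omega), ihi 0]
      have := val_pow hA i
      simp only [pow_zero, mul_one, this, add_zero, Nat.choose_self]
      field_simp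
      ring
    | succ j ih =>
      rw [step hA hB hAB (i + 1) (j + 1) (by omega), ih, ihi (j + 1)]
      have e1 : i + 1 + (j + 1) = (i + 1 + j) + 1 := by ring
      have e2 : i + (j + 1) = i + 1 + j := by ring
      rw [e1, e2, Nat.choose_succ_succ' (i + 1 + j) i]
      push_cast
      field_simp
      ring

lemma val_pos {A B : ℝ} (hA : 0 < A) (hB : 0 < B) (i : ℕ) :
    J (fun y => u A y ^ (i + 1) * u B y ^ 3) = 0 := by
  by_cases hAB : A = B
  · subst hAB
    have := val_pow hA.ne' (i + 2)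
    rw [← this]
    congr 1; ext y; ring
  · rw [val_gen hA.ne' hB.ne' hAB i 2]
    have : cc A B = 0 := by
      unfold cc
      rw [abs_of_pos hA, abs_of_pos hB, div_self hA.ne', div_self hB.ne']; ring
    simp [this]

lemma val_neg {A B : ℝ} (hA : 0 < A) (hB : B < 0) (i : ℕ) :
    J (fun y => u A y ^ (i + 1) * u B y ^ 3) =
      -Real.pi * ((i + 2).choose 2 : ℝ) * (1 / (A - B) ^ (i + 3)) := by
  rw [val_gen hA.ne' hB.ne (by linarith) i 2]
  have h1 : cc A B = Real.pi := by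
    unfold cc
    rw [abs_of_pos hA, abs_of_neg hB, div_self hA.ne', div_neg, div_self hB.ne]; ring
  have h2 : (i + 2).choose i = (i + 2).choose 2 := Nat.choose_symm_add
  have h3 : A - B ≠ 0 := by linarith
  have h4 : (B - A) ^ (i + 2 + 1) = -((-1) ^ i * (A - B) ^ (i + 3)) := by
    rw [show B - A = (-1) * (A - B) by ring, mul_pow]; ring
  have h5 : ((-1 : ℝ)) ^ i ≠ 0 := pow_ne_zero _ (by norm_num)
  rw [h1, h2, h4]
  field_simp

/-- The kernel on the ray. -/
def K (y : ℝ) : ℂ := ∑' v : ℤ, u (v + 1 / 2) y ^ 3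

lemma summ2 (s : ℕ) (hs : 1 < s) : Summable fun v : ℤ => (2 * |(v : ℝ) + 1 / 2|⁻¹) ^ s := by
  simp_rw [mul_pow]
  exact (summ s hs).mul_left _

lemma int_K {A : ℝ} (hA : 0 < A) (i : ℕ) :
    HasSum (fun v : ℤ => ∫ y in Set.Ioi (0 : ℝ), u A y ^ (i + 1) * u (v + 1 / 2) y ^ 3)
      (∫ y in Set.Ioi (0 : ℝ), u A y ^ (i + 1) * K y) := by
  have h := hasSum_integral_of_summable_integral_norm (μ := volume.restrict (Set.Ioi (0 : ℝ)))
    (F := fun (v : ℤ) (y : ℝ) => u A y ^ (i + 1) * u (v + 1 / 2) y ^ 3)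
    (fun v => (int_pow hA.ne' (half_ne v) _ _ (by omega)).integrableOn) ?_
  · simpa only [K, tsum_mul_left] using h
  refine Summable.of_nonneg_of_le (fun v => integral_nonneg fun y => norm_nonneg _) (fun v => ?_)
    ((summ 2 (by norm_num)).mul_left ((2 * |A|⁻¹) ^ (i + 1) * (6 * Real.pi)))
  have hv := half_ne v
  have hi := (int_pow hA.ne' hv (i + 1) 3 (by omega)).norm
  calc ∫ y in Set.Ioi (0 : ℝ), ‖u A y ^ (i + 1) * u (v + 1 / 2) y ^ 3‖
      ≤ ∫ y, ‖u A y ^ (i + 1) * u (v + 1 / 2) y ^ 3‖ :=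
        setIntegral_le_integral hi (Eventually.of_forall fun y => norm_nonneg _)
    _ ≤ ∫ y : ℝ, (2 * |A|⁻¹) ^ (i + 1) * (2 * |(v : ℝ) + 1 / 2|⁻¹) * 3 *
          (((v : ℝ) + 1 / 2) ^ 2 + y ^ 2)⁻¹ := by
        refine integral_mono hi ((int_lor hv).const_mul _) fun y => ?_
        simp only [norm_mul, norm_pow]
        have h1 := norm_u_le hA.ne' y
        have h2 := norm_u_le hv y
        have h3 := inv_le hv y
        rw [← norm_sq_u] at h3
        rw [mul_assoc, mul_assoc, pow_succ' _ 2]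
        gcongr
    _ = _ := by
        rw [integral_const_mul, H13.Contour.val_lor hv]
        ring

lemma val_K (κ i : ℕ) :
    J (fun y => u (1 / 2 + κ) y ^ (i + 1) * K y) =
      -Real.pi * (((i + 2).choose 2 : ℝ) * ∑' ν : ℕ, 1 / ((ν : ℝ) + 1 + κ) ^ (i + 3)) := by
  have hA : (0 : ℝ) < 1 / 2 + κ := by positivity
  have h : HasSum (fun v : ℤ => J fun y => u (1 / 2 + κ) y ^ (i + 1) * u (v + 1 / 2) y ^ 3)
      (J fun y => u (1 / 2 + κ) y ^ (i + 1) * K y) :=
    Complex.hasSum_im ((int_K hA i).mul_right (1 + I))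
  rw [← h.nat_add_neg_add_one.tsum_eq, ← mul_assoc, ← tsum_mul_left]
  refine tsum_congr fun ν => ?_
  have hν : (0 : ℝ) ≤ ν := Nat.cast_nonneg ν
  rw [val_pos hA (by push_cast; positivity), val_neg hA (by push_cast; linarith), zero_add]
  congr 3
  push_cast
  ring

lemma K_near (y : ℝ) : ‖K y‖ ≤ ∑' v : ℤ, (2 * |(v : ℝ) + 1 / 2|⁻¹) ^ 3 := by
  refine tsum_of_norm_bounded (summ2 3 (by norm_num)).hasSum fun v => ?_
  rw [norm_pow]
  exact pow_le_pow_left₀ (norm_nonneg _) (norm_u_le (half_ne v) y) 3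

lemma K_far : ∃ C : ℝ, 0 ≤ C ∧ ∀ y : ℝ, 1 ≤ y → ‖K y‖ ≤ C * Real.exp (-(2 * Real.pi * y)) := by
  set r : ℝ := Real.exp (-(2 * Real.pi)) with hr
  have hr0 : 0 < r := Real.exp_pos _
  have hr1 : r < 1 := Real.exp_lt_one_iff.mpr (by have := Real.pi_pos; linarith)
  have hs : Summable fun n : ℕ => (n : ℝ) ^ 2 * r ^ n :=
    summable_pow_mul_geometric_of_norm_lt_one 2 (by rw [Real.norm_of_nonneg hr0.le]; exact hr1)
  refine ⟨‖((-2 * Real.pi * I) ^ (2 + 1) / (Nat.factorial 2 : ℕ) : ℂ)‖ *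
    ((∑' n : ℕ, (n : ℝ) ^ 2 * r ^ n) / r), ?_, fun y hy => ?_⟩
  · have : 0 ≤ ∑' n : ℕ, (n : ℝ) ^ 2 * r ^ n := tsum_nonneg fun n => by positivity
    positivity
  have hz : 0 < ((1 / 2 : ℂ) + y * (1 + I)).im := by simp; linarith
  have h := EisensteinSeries.qExpansion_identity (k := 2) (by norm_num) ⟨_, hz⟩
  have hK : K y = ∑' n : ℤ, 1 / (((1 / 2 : ℂ) + y * (1 + I)) + n) ^ (2 + 1) := by
    unfold K u
    refine tsum_congr fun v => ?_
    rw [one_div, inv_pow]
    push_cast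
    ring
  simp only at h
  rw [hK, h, norm_mul, mul_assoc _ (_ / r)]
  refine mul_le_mul_of_nonneg_left ?_ (norm_nonneg _)
  set q : ℝ := Real.exp (-(2 * Real.pi * y)) with hq
  have hq0 : 0 < q := Real.exp_pos _
  have hqr : q ≤ r := Real.exp_le_exp.mpr (by have := Real.pi_pos; nlinarith)
  have hn : ‖cexp (2 * Real.pi * I * ((1 / 2 : ℂ) + y * (1 + I)))‖ = q := by
    rw [Complex.norm_exp]
    congr 1
    simp
  have hsum := (hs.hasSum.div_const r).mul_right q
  refine tsum_of_norm_bounded hsum fun n => ?_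
  rw [norm_mul, norm_pow, norm_pow, hn, Complex.norm_natCast]
  cases n with
  | zero => simp
  | succ n =>
    have h1 : q ^ n ≤ r ^ n := pow_le_pow_left₀ hq0.le hqr n
    calc ((n + 1 : ℕ) : ℝ) ^ 2 * q ^ (n + 1) = ((n + 1 : ℕ) : ℝ) ^ 2 * q ^ n * q := by ring
      _ ≤ ((n + 1 : ℕ) : ℝ) ^ 2 * r ^ n * q := by gcongr
      _ = _ := by field_simp; ring

lemma K_le : ∃ C : ℝ, 0 ≤ C ∧ ∀ y : ℝ, ‖K y‖ ≤ C * Real.exp (-(2 * Real.pi) * y) := by
  obtain ⟨C, hC, h⟩ := K_far
  set D : ℝ := ∑' v : ℤ, (2 * |(v : ℝ) + 1 / 2|⁻¹) ^ 3 with hD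
  have hD0 : 0 ≤ D := tsum_nonneg fun v => by positivity
  refine ⟨C + D * Real.exp (2 * Real.pi), by positivity, fun y => ?_⟩
  rw [neg_mul]
  have he := Real.exp_pos (-(2 * Real.pi * y))
  have he2 := Real.exp_pos (2 * Real.pi)
  by_cases hy : 1 ≤ y
  · refine (h _ hy).trans ?_
    gcongr
    exact le_add_of_nonneg_right (by positivity)
  · push Not at hy
    refine (K_near y).trans ?_
    have h3 : 1 ≤ Real.exp (2 * Real.pi) * Real.exp (-(2 * Real.pi * y)) := by
      rw [← Real.exp_add]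
      apply Real.one_le_exp
      have := Real.pi_pos
      nlinarith
    nlinarith [mul_nonneg hC he.le]

lemma cont_K : Continuous K := by
  unfold K
  refine continuous_tsum (fun v => (cont_u (half_ne v)).pow 3) (summ2 3 (by norm_num))
    fun v y => ?_
  rw [norm_pow]
  exact pow_le_pow_left₀ (norm_nonneg _) (norm_u_le (half_ne v) y) 3

lemma intg_K : Integrable K (volume.restrict (Set.Ioi 0)) := by
  obtain ⟨C, _, h⟩ := K_le
  exact Integrable.mono' ((exp_neg_integrableOn_Ioi 0 (b := 2 * Real.pi)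
    (by positivity)).const_mul C) cont_K.aestronglyMeasurable (Eventually.of_forall h)

end Ray

open Ray in
theorem ray : RayStmt := by
  obtain ⟨C, hC, hK⟩ := K_le
  have hδ : 0 < 2 * Real.pi - 6281 / 1000 := by
    have := Real.pi_gt_d4; linarith
  set T : ℝ := ∫ y in Set.Ioi (0 : ℝ), Real.exp (-(2 * Real.pi - 6281 / 1000) * y) with hT
  have hT0 : 0 ≤ T := integral_nonneg fun y => (Real.exp_pos _).le
  refine ⟨C * T + 1, by positivity, fun ι s κ i a B hi hB => ?_⟩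
  have hB0 : 0 ≤ B := by simpa using (norm_nonneg _).trans (hB 0 le_rfl)
  have hA : ∀ j, (1 / 2 + (κ j : ℝ)) ≠ 0 := fun j => by positivity
  have h1 : ∀ y : ℝ, ∑ j ∈ s, (a j : ℂ) / (1 / 2 + κ j + y * (1 + Complex.I)) ^ (i j) =
      ∑ j ∈ s, (a j : ℂ) * u (1 / 2 + κ j) y ^ (i j) := by
    intro y
    refine Finset.sum_congr rfl fun j _ => ?_
    unfold u
    rw [div_eq_mul_inv, inv_pow]
    push_cast
    rfl
  set S : ℝ := ∑ j ∈ s, a j * ((i j + 1).choose 2 : ℝ) *
      ∑' ν : ℕ, 1 / ((ν : ℝ) + 1 + κ j) ^ (i j + 2) with hS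
  have h2 : ((∫ y in Set.Ioi (0 : ℝ), (∑ j ∈ s, (a j : ℂ) * u (1 / 2 + κ j) y ^ (i j)) * K y) *
      (1 + I)).im = -Real.pi * S := by
    simp_rw [Finset.sum_mul, mul_assoc]
    rw [integral_finsetSum _ fun j _ => (int_mul (hA j) intg_K (i j)).const_mul _]
    rw [hS, Finset.mul_sum, Finset.sum_mul, Complex.im_sum]
    refine Finset.sum_congr rfl fun j hj => ?_
    obtain ⟨k, hk⟩ : ∃ k, i j = k + 1 := ⟨i j - 1, by have := hi j hj; omega⟩
    have h3 := val_K (κ j) k
    unfold J at h3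
    rw [integral_const_mul, hk, mul_assoc, Complex.im_ofReal_mul, h3]
    ring
  have h3 : ‖∫ y in Set.Ioi (0 : ℝ), (∑ j ∈ s, (a j : ℂ) * u (1 / 2 + κ j) y ^ (i j)) * K y‖ ≤
      ∫ y in Set.Ioi (0 : ℝ), B * C * Real.exp (-(2 * Real.pi - 6281 / 1000) * y) := by
    refine norm_integral_le_of_norm_le ((exp_neg_integrableOn_Ioi 0 hδ).const_mul _) ?_
    filter_upwards [ae_restrict_mem measurableSet_Ioi] with y hy
    rw [norm_mul, ← h1]
    calc _ ≤ (B * Real.exp (6281 / 1000 * y)) * (C * Real.exp (-(2 * Real.pi) * y)) :=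
          mul_le_mul (hB y (le_of_lt hy)) (hK y) (norm_nonneg _) (by positivity)
      _ = B * C * (Real.exp (6281 / 1000 * y) * Real.exp (-(2 * Real.pi) * y)) := by ring
      _ = _ := by rw [← Real.exp_add]; congr 2; ring
  rw [integral_const_mul] at h3
  have h4 := Complex.abs_im_le_norm ((∫ y in Set.Ioi (0 : ℝ),
    (∑ j ∈ s, (a j : ℂ) * u (1 / 2 + κ j) y ^ (i j)) * K y) * (1 + I))
  have h5 : ‖(1 + I : ℂ)‖ ≤ 2 := (norm_add_le _ _).trans (by simp; norm_num)
  rw [h2, abs_mul, abs_neg, abs_of_pos Real.pi_pos, norm_mul] at h4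
  have h6 := h4.trans (mul_le_mul h3 h5 (norm_nonneg _) (by positivity))
  have h7 := Real.pi_gt_three
  have h8 := abs_nonneg S
  nlinarith [mul_nonneg (mul_nonneg hB0 hC) hT0]

end

end Pool.Agent.MP_807c24_nt.D57
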