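import Pool.Agent.MP_807c24_nt.D57.Spec

/-!
The Hankel determinant is small.
-/

namespace Pool.Agent.MP_807c24_nt.D57

open Finset Polynomial

noncomputable section

namespace RealS

lemma sum_div_mod (f : ℕ → ℕ → ℝ) {n : ℕ} (hn : 0 < n) (m : ℕ) :
    ∑ g ∈ range (m * n), f (g / n) (g % n) = ∑ s ∈ range m, ∑ t ∈ range n, f s t := by
  induction m with
  | zero => simp
  | succ m ih =>
    rw [Nat.succ_mul, sum_range_add, ih, sum_range_succ]
    congr 1
    refine sum_congr rfl fun t ht => ?_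
    have ht := mem_range.1 ht
    rw [Nat.add_comm, Nat.add_mul_div_right _ _ hn, Nat.add_mul_mod_self_right,
      Nat.div_eq_of_lt ht, Nat.mod_eq_of_lt ht, Nat.zero_add]

lemma sum_id (n : ℕ) : ∑ t ∈ range n, (t : ℝ) = n * (n - 1) / 2 := by
  induction n with
  | zero => simp
  | succ n ih =>
    rw [sum_range_succ, ih]
    push_cast
    ring

lemma qq_monic (L s : ℕ) : (qq L s).Monic ∧ (qq L s).natDegree = 2 := by
  unfold qq
  constructor
  · monicity!
  · compute_degree!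

/-- The even part of the basis. -/
def Q (L g : ℕ) : ℝ[X] := (∏ s ∈ range (g / L), qq L s ^ L) * qq L (g / L) ^ (g % L)

lemma Q_monic (L g : ℕ) : (Q L g).Monic ∧ (Q L g).natDegree = 2 * g := by
  have h1 : ∀ s ∈ range (g / L), (qq L s ^ L).Monic := fun s _ => (qq_monic L s).1.pow _
  have h2 := monic_prod_of_monic _ _ h1
  have h3 : (qq L (g / L) ^ (g % L)).Monic := (qq_monic L _).1.pow _
  refine ⟨h2.mul h3, ?_⟩
  rw [Q, h2.natDegree_mul h3, natDegree_prod_of_monic _ _ h1, (qq_monic L _).1.natDegree_pow,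
    (qq_monic L _).2,
    sum_congr rfl fun s _ => ((qq_monic L s).1.natDegree_pow L).trans (by rw [(qq_monic L s).2]),
    sum_const, card_range, smul_eq_mul]
  have := Nat.div_add_mod g L
  calc g / L * (L * 2) + g % L * 2 = 2 * (L * (g / L) + g % L) := by ring
    _ = 2 * g := by rw [this]

/-- The basis. -/
def P (L i : ℕ) : ℝ[X] := Q L (i / 2) * X ^ (i % 2)

lemma P_monic (L i : ℕ) : (P L i).Monic ∧ (P L i).natDegree = i := by
  refine ⟨(Q_monic L _).1.mul (monic_X_pow _), ?_⟩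
  rw [P, (Q_monic L _).1.natDegree_mul (monic_X_pow _), (Q_monic L _).2, natDegree_X_pow]
  omega

/-- The interpolated exponent. -/
def ex (L s t : ℕ) : ℝ := be s * ((L : ℝ) - t) + be (s + 1) * t

/-- Logarithm of the size of a basis element. -/
def bb (L g : ℕ) : ℝ := -ex L (g / L) (g % L) / 4 + (4 * (g : ℝ) - 36 * L) * Real.log L

lemma WW_nonneg {η : ℝ} : 0 ≤ WW η := by
  refine prod_nonneg fun a _ => ?_
  split_ifs
  · positivity
  · exact inv_nonneg.2 (Even.pow_nonneg (by decide) _)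

lemma core {l u t s g : ℕ} (hu : l = u + t) (hg : l * s + t = g) (l0 : 0 < l) {R W b b' η : ℝ}
    {n q : ℕ → ℝ} (R0 : 0 ≤ R) (W0 : 0 ≤ W) (n0 : ∀ s, 0 ≤ n s)
    (h1 : R ^ 2 ≤ W ^ l / (l : ℝ) ^ (144 * l)) (h2 : ∀ s, n s ^ 2 ≤ (l : ℝ) ^ 8 * q s)
    (p1 : W * ∏ s' ∈ range s, q s' ^ 2 ≤ Real.exp (-b + 314 / 25 * η))
    (p2 : W * ∏ s' ∈ range (s + 1), q s' ^ 2 ≤ Real.exp (-b' + 314 / 25 * η)) :
    R * ((∏ s' ∈ range s, n s') ^ l * n s ^ t) ^ 2 ≤ Real.exp (2 * (-(b * ((l : ℝ) - t) + b' * t) / 4 +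
      (4 * (g : ℝ) - 36 * l) * Real.log l) + 628 / 100 * (η * l)) := by
  have Lp : (0 : ℝ) < l := Nat.cast_pos.2 l0
  have n4 : ∀ s, n s ^ 4 ≤ (l : ℝ) ^ 16 * q s ^ 2 := fun s => by
    have := pow_le_pow_left₀ (sq_nonneg _) (h2 s) 2
    calc n s ^ 4 = (n s ^ 2) ^ 2 := by ring
      _ ≤ _ := this
      _ = _ := by ring
  rw [prod_range_succ] at p2
  have A0 : 0 ≤ ∏ s' ∈ range s, q s' ^ 2 := prod_nonneg fun _ _ => sq_nonneg _
  have N0 : 0 ≤ ∏ s' ∈ range s, n s' := prod_nonneg fun _ _ => n0 _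
  have e2 : (∏ s' ∈ range s, n s') ^ 4 ≤ ((l : ℝ) ^ 16) ^ s * ∏ s' ∈ range s, q s' ^ 2 := by
    rw [← prod_pow, ← card_range s, ← prod_const, card_range, ← prod_mul_distrib]
    exact prod_le_prod (fun _ _ => pow_nonneg (n0 _) _) fun s' _ => n4 s'
  have m0 := n0 s
  have m4 := n4 s
  generalize ∏ s' ∈ range s, q s' ^ 2 = A at *
  generalize ∏ s' ∈ range s, n s' = N at *
  generalize n s = m at *
  have r0 : 0 ≤ q s ^ 2 := sq_nonneg _
  generalize q s ^ 2 = r at *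
  have e3 : (N ^ l * m ^ t) ^ 4 ≤ (l : ℝ) ^ (16 * g) * (A ^ l * r ^ t) :=
    calc (N ^ l * m ^ t) ^ 4 = (N ^ 4) ^ l * (m ^ 4) ^ t := by ring
      _ ≤ (((l : ℝ) ^ 16) ^ s * A) ^ l * ((l : ℝ) ^ 16 * r) ^ t := by gcongr
      _ = (l : ℝ) ^ (16 * (l * s + t)) * (A ^ l * r ^ t) := by ring
      _ = _ := by rw [hg]
  have e4 : W ^ l * (A ^ l * r ^ t) ≤
      Real.exp (-(b * ((l : ℝ) - t) + b' * t) + 314 / 25 * (η * l)) :=
    calc W ^ l * (A ^ l * r ^ t) = (W * A) ^ u * (W * (A * r)) ^ t := by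
          rw [hu]
          ring
      _ ≤ Real.exp (-b + 314 / 25 * η) ^ u * Real.exp (-b' + 314 / 25 * η) ^ t := by gcongr
      _ = _ := by
          rw [← Real.exp_nat_mul, ← Real.exp_nat_mul, ← Real.exp_add, hu]
          congr 1
          push_cast
          ring
  have e5 : (l : ℝ) ^ (16 * g) / (l : ℝ) ^ (144 * l) =
      Real.exp ((16 * (g : ℝ) - 144 * l) * Real.log l) := by
    rw [sub_mul, Real.exp_sub]
    congr 1
    · rw [show 16 * (g : ℝ) = ((16 * g : ℕ) : ℝ) by push_cast; rfl, Real.exp_nat_mul,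
        Real.exp_log Lp]
    · rw [show 144 * (l : ℝ) = ((144 * l : ℕ) : ℝ) by push_cast; rfl, Real.exp_nat_mul,
        Real.exp_log Lp]
  refine (pow_le_pow_iff_left₀ (by positivity) (Real.exp_pos _).le two_ne_zero).1 ?_
  calc (R * (N ^ l * m ^ t) ^ 2) ^ 2 = R ^ 2 * (N ^ l * m ^ t) ^ 4 := by ring
    _ ≤ W ^ l / (l : ℝ) ^ (144 * l) * ((l : ℝ) ^ (16 * g) * (A ^ l * r ^ t)) :=
        mul_le_mul h1 e3 (by positivity) (by positivity)
    _ = (l : ℝ) ^ (16 * g) / (l : ℝ) ^ (144 * l) * (W ^ l * (A ^ l * r ^ t)) := by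
        rw [div_mul_eq_mul_div, div_mul_eq_mul_div, mul_left_comm]
    _ ≤ Real.exp ((16 * (g : ℝ) - 144 * l) * Real.log l) *
        Real.exp (-(b * ((l : ℝ) - t) + b' * t) + 314 / 25 * (η * l)) := by
        rw [e5]
        exact mul_le_mul_of_nonneg_left e4 (Real.exp_pos _).le
    _ = _ := by
        rw [← Real.exp_add, ← Real.exp_nat_mul]
        congr 1
        push_cast
        ring

lemma key (hp : PhiStmt) (hs : SizeStmt) {L g : ℕ} {y : ℝ} (hL : 64 ≤ L) (hy : 0 ≤ y)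
    (hg : g < 9 * L) :
    ‖Rp L y‖ * ‖aeval (vv L y ^ 2) (Q L g)‖ ^ 2 ≤ Real.exp (2 * bb L g + 628 / 100 * y) := by
  obtain ⟨h1, h2, -⟩ := hs L y hL hy
  have L0 : 0 < L := by omega
  have Lp : (0 : ℝ) < L := Nat.cast_pos.2 L0
  have hη : 0 ≤ y / L := div_nonneg hy Lp.le
  have hs9 : g / L < 9 := Nat.div_lt_of_lt_mul (by omega)
  have ht : g % L < L := Nat.mod_lt _ L0
  have h := core (u := L - g % L) (t := g % L) (by omega) (Nat.div_add_mod g L) L0 (norm_nonneg _)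
    WW_nonneg (fun _ => norm_nonneg _) h1 h2 (hp _ (by omega) _ hη) (hp _ (by omega) _ hη)
  rw [div_mul_cancel₀ _ Lp.ne'] at h
  refine le_of_eq_of_le ?_ h
  simp only [Q, map_mul, map_prod, map_pow, norm_mul, norm_prod, norm_pow, prod_pow]

lemma ray (hp : PhiStmt) (hs : SizeStmt) {L i j : ℕ} {y : ℝ} (hL : 64 ≤ L) (hy : 0 ≤ y)
    (hi : i < 18 * L) (hj : j < 18 * L) :
    ‖2 * vv L y * Rp L y * aeval (vv L y ^ 2) (P L i * P L j)‖ ≤
      2 * (65000 * (L : ℝ)) ^ 5 * (Real.exp (bb L (i / 2)) * Real.exp (bb L (j / 2))) *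
        Real.exp (6281 / 1000 * y) := by
  obtain ⟨-, -, v1, v2⟩ := hs L y hL hy
  have k1 := key hp hs hL hy (show i / 2 < 9 * L by omega)
  have k2 := key hp hs hL hy (show j / 2 < 9 * L by omega)
  set a := ‖aeval (vv L y ^ 2) (Q L (i / 2))‖ with ha
  set b := ‖aeval (vv L y ^ 2) (Q L (j / 2))‖ with hb
  have k3 : ‖Rp L y‖ * (a * b) ≤
      Real.exp (bb L (i / 2)) * Real.exp (bb L (j / 2)) * Real.exp (628 / 100 * y) := by
    refine (pow_le_pow_iff_left₀ (by positivity) (by positivity) two_ne_zero).1 ?_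
    calc (‖Rp L y‖ * (a * b)) ^ 2 = ‖Rp L y‖ * a ^ 2 * (‖Rp L y‖ * b ^ 2) := by ring
      _ ≤ Real.exp (2 * bb L (i / 2) + 628 / 100 * y) *
          Real.exp (2 * bb L (j / 2) + 628 / 100 * y) :=
        mul_le_mul k1 k2 (by positivity) (Real.exp_pos _).le
      _ = _ := by
        rw [← Real.exp_add, ← Real.exp_add, ← Real.exp_add, ← Real.exp_nat_mul]
        congr 1
        push_cast
        ring
  have k4 : ‖vv L y‖ ^ (1 + 2 * (i % 2) + 2 * (j % 2)) ≤
      (65000 * (L : ℝ)) ^ 5 * Real.exp (y / 1000) :=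
    calc _ ≤ ‖vv L y‖ ^ 5 := pow_le_pow_right₀ v1 (by omega)
      _ ≤ (65000 * L * Real.exp (y / 5000)) ^ 5 := pow_le_pow_left₀ (norm_nonneg _) v2 5
      _ = _ := by
        rw [mul_pow _ (Real.exp _), ← Real.exp_nat_mul]
        congr 2
        push_cast
        ring
  have e : ‖2 * vv L y * Rp L y * aeval (vv L y ^ 2) (P L i * P L j)‖ =
      2 * ‖vv L y‖ ^ (1 + 2 * (i % 2) + 2 * (j % 2)) * (‖Rp L y‖ * (a * b)) := by
    simp only [P, map_mul, map_pow, aeval_X, norm_mul, norm_pow, Complex.norm_ofNat, ha, hb]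
    ring
  rw [e]
  calc _ ≤ 2 * ((65000 * (L : ℝ)) ^ 5 * Real.exp (y / 1000)) *
        (Real.exp (bb L (i / 2)) * Real.exp (bb L (j / 2)) * Real.exp (628 / 100 * y)) := by
        gcongr
    _ = _ := by
        rw [show 6281 / 1000 * y = y / 1000 + 628 / 100 * y by ring, Real.exp_add]
        ring

lemma sum_bb {L : ℕ} (hL : 0 < L) : ∑ i ∈ range (18 * L), 2 * bb L (i / 2) ≤
    -648 * (L : ℝ) ^ 2 * Real.log L - 2291 * (L : ℝ) ^ 2 := by
  have h1 := sum_div_mod (fun g _ => 2 * bb L g) two_pos (9 * L)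
  rw [show 9 * L * 2 = 18 * L by ring] at h1
  have h2 := sum_div_mod (ex L) hL 9
  have h3 : ∀ s, ∑ t ∈ range L, ex L s t =
      be s * ((L : ℝ) * (L + 1) / 2) + be (s + 1) * ((L : ℝ) * (L - 1) / 2) := fun s => by
    simp only [ex, sum_add_distrib, ← mul_sum, sum_sub_distrib, sum_id, sum_const, card_range,
      nsmul_eq_mul]
    ring
  have h4 : ∑ s ∈ range 9, ∑ t ∈ range L, ex L s t =
      2425 * ((L : ℝ) * (L + 1) / 2) + 2158 * ((L : ℝ) * (L - 1) / 2) := by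
    simp only [h3, sum_range_succ, sum_range_zero, be]
    norm_num
    ring
  have h5 : ∑ g ∈ range (9 * L), ∑ _t ∈ range 2, 2 * bb L g =
      -∑ g ∈ range (9 * L), ex L (g / L) (g % L) +
        (16 * ∑ g ∈ range (9 * L), (g : ℝ) - ∑ _g ∈ range (9 * L), 144 * (L : ℝ)) * Real.log L := by
    rw [mul_sum, ← sum_sub_distrib, sum_mul, ← sum_neg_distrib, ← sum_add_distrib]
    refine sum_congr rfl fun g _ => ?_
    rw [sum_const, card_range, nsmul_eq_mul, bb]
    push_cast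
    ring
  have L1 : (1 : ℝ) ≤ L := by exact_mod_cast hL
  have lg : 0 ≤ L * Real.log L := mul_nonneg (by linarith) (Real.log_nonneg L1)
  rw [h1, h5, h2, h4, sum_id, sum_const, card_range, nsmul_eq_mul]
  push_cast
  nlinarith [sq_nonneg (L : ℝ)]

end RealS

open RealS in
theorem real (hb : BoundStmt) (hg : GramStmt) (hd : DetRStmt) (hp : PhiStmt) (hs : SizeStmt) :
    RealStmt := by
  obtain ⟨c, c0, hb⟩ := hb
  refine ⟨Real.log (36 * c * 65000 ^ 5), fun L hL => ?_⟩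
  have Lp : (0 : ℝ) < L := Nat.cast_pos.2 (by omega)
  set A : ℝ := c * (2 * (65000 * (L : ℝ)) ^ 5) with hA
  have A0 : 0 < A := by positivity
  rw [← hg ℝ (mom L) (18 * L) (fun i => P L i) fun i => P_monic L i]
  refine (hd _ _ (fun i => √A * Real.exp (bb L (i / 2))) fun i j => ?_).trans ?_
  · refine (hb L _ _ (by omega) ?_ fun y hy => ray hp hs hL hy i.2 j.2).trans_eq ?_
    · rw [(P_monic L i).1.natDegree_mul (P_monic L j).1, (P_monic L i).2, (P_monic L j).2]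
      omega
    · rw [mul_mul_mul_comm √A, Real.mul_self_sqrt A0.le, hA]
      ring
  · have e1 : ∏ i : Fin (18 * L), (√A * Real.exp (bb L (i / 2))) ^ 2 =
        A ^ (18 * L) * Real.exp (∑ i ∈ range (18 * L), 2 * bb L (i / 2)) := by
      rw [Real.exp_sum, ← Fin.prod_univ_eq_prod_range fun i => Real.exp (2 * bb L (i / 2))]
      simp only [mul_pow, Real.sq_sqrt A0.le, prod_mul_distrib, prod_const, card_univ,
        Fintype.card_fin, ← Real.exp_nat_mul, Nat.cast_ofNat]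
    have e2 : ((18 * L).factorial : ℝ) ≤ (18 * (L : ℝ)) ^ (18 * L) := by
      exact_mod_cast Nat.factorial_le_pow (18 * L)
    have e3 : (18 * (L : ℝ)) ^ (18 * L) * A ^ (18 * L) =
        Real.exp (18 * L * (Real.log (36 * c * 65000 ^ 5) + 6 * Real.log L)) := by
      rw [show 18 * (L : ℝ) * (Real.log (36 * c * 65000 ^ 5) + 6 * Real.log L) =
          ((18 * L : ℕ) : ℝ) * (Real.log (36 * c * 65000 ^ 5) + (6 : ℕ) * Real.log L) by
        push_cast; rfl, Real.exp_nat_mul, Real.exp_add, Real.exp_nat_mul, Real.exp_log Lp,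
        Real.exp_log (by positivity), ← mul_pow, hA]
      congr 1
      ring
    have e4 := Real.exp_le_exp.2 (sum_bb (show 0 < L by omega))
    rw [e1]
    calc _ ≤ (18 * (L : ℝ)) ^ (18 * L) * (A ^ (18 * L) *
          Real.exp (-648 * (L : ℝ) ^ 2 * Real.log L - 2291 * (L : ℝ) ^ 2)) := by gcongr
      _ = _ := by
        rw [← mul_assoc, e3, ← Real.exp_add]
        congr 1
        ring

end

end Pool.Agent.MP_807c24_nt.D57
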