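import Pool.Agent.MP_807c24_nt.D57.Spec
import Pool.Agent.MP_807c24_nt.H13.Size

/-! Sizes on the ray. -/

namespace Pool.Agent.MP_807c24_nt.D57

open Finset Polynomial
open Pool.Agent.MP_807c24_nt.H13 (pts)

namespace Size

lemma nsq (a b : ℝ) : ‖(a : ℂ) + b * Complex.I‖ ^ 2 = a ^ 2 + b ^ 2 := by
  rw [Complex.sq_norm, Complex.normSq_add_mul_I]

lemma tsq (y x : ℝ) : ‖tt y + (x : ℂ)‖ ^ 2 = (x - 1 / 2 + y) ^ 2 + y ^ 2 := by
  rw [← nsq]
  congr 2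
  unfold tt
  push_cast
  ring

/-- The exponent on a cell. -/
def ce (a : ℕ) : ℤ := if a < 4 ∨ 20 ≤ a then 3 else -6

/-- The factor of a cell. -/
noncomputable def F (a : ℕ) (η : ℝ) : ℝ :=
  if a < 4 ∨ 20 ≤ a then (((a : ℝ) + 1 / 2 + η) ^ 2 + η ^ 2 + 1 / 4) ^ 3
    else ((((a : ℝ) + 1 / 2 + η) ^ 2 + η ^ 2 - 1 / 4) ^ 6)⁻¹

lemma sum_ce : ∑ a ∈ range 24, ce a = -72 := by decide +kernel

lemma F_nonneg (a : ℕ) (η : ℝ) : 0 ≤ F a η := by
  unfold F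
  split_ifs <;> positivity

lemma m0_cell {L a j : ℕ} (ha : a < 24) (hj : j < L) :
    -m0 L (((a * L + j : ℕ) : ℤ) + 1) = ce a + if a * L + j = 20 * L then -9 else 0 := by
  unfold m0 ce
  simp only [abs_le]
  interval_cases a <;> split_ifs <;> omega

lemma cell_bound {L : ℕ} (hL : 1 ≤ L) {y : ℝ} (hy : 0 ≤ y) (a : ℕ) :
    ((∏ j ∈ range L, ‖tt y + (((a * L + j : ℕ) : ℤ) + 1 : ℤ)‖) ^ ce a) ^ 2 ≤
      (((L : ℝ) ^ 2) ^ L) ^ ce a * F a (y / L) ^ L := by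
  have hL' : (0 : ℝ) < L := by exact_mod_cast hL
  set w : ℂ := ((((a : ℝ) + 1 / 2) * L + y : ℝ) : ℂ) + y * Complex.I with hw
  have e1 : ∀ j : ℕ, tt y + (((a * L + j : ℕ) : ℤ) + 1 : ℤ) = w + ((j : ℂ) + 1 / 2 - L / 2) := by
    intro j
    rw [hw, tt]
    push_cast
    ring
  have e2 : ‖w‖ ^ 2 = (L : ℝ) ^ 2 * (((a : ℝ) + 1 / 2 + y / L) ^ 2 + (y / L) ^ 2) := by
    rw [hw, nsq]
    field_simp
  simp only [e1]
  have h1 := H13.Size.cell_le w L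
  have h2 := H13.Size.le_cell w L
  set P := ∏ j ∈ range L, ‖w + ((j : ℂ) + 1 / 2 - L / 2)‖ with hP
  have hη : 0 ≤ y / L := by positivity
  set η := y / L
  unfold ce F
  split_ifs with h
  · rw [show (3 : ℤ) = ((3 : ℕ) : ℤ) from rfl, zpow_natCast, zpow_natCast, pow_right_comm P,
      pow_right_comm _ 3 L, ← mul_pow, ← mul_pow]
    refine pow_le_pow_left₀ (sq_nonneg _) (h1.trans_eq ?_) 3
    rw [e2]
    congr 1
    ring
  · have h4 : (4 : ℝ) ≤ a := by exact_mod_cast (by omega : 4 ≤ a)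
    have hA : 0 < ((a : ℝ) + 1 / 2 + η) ^ 2 + η ^ 2 - 1 / 4 := by nlinarith
    have e4 : ‖w‖ ^ 2 - (L : ℝ) ^ 2 / 4 =
        (L : ℝ) ^ 2 * (((a : ℝ) + 1 / 2 + η) ^ 2 + η ^ 2 - 1 / 4) := by
      rw [e2]
      ring
    rw [e4] at h2
    rw [show (-6 : ℤ) = -((6 : ℕ) : ℤ) from rfl, zpow_neg, zpow_neg, zpow_natCast, zpow_natCast,
      inv_pow, inv_pow, ← mul_inv, pow_right_comm P, pow_right_comm _ 6 L, ← mul_pow, ← mul_pow]
    exact inv_anti₀ (by positivity) (pow_le_pow_left₀ (by positivity) (h2 (by positivity)) 6)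

lemma ends {L : ℕ} (hL : 1 ≤ L) {y : ℝ} (hy : 0 ≤ y) :
    ‖tt y + (((20 * L : ℕ) : ℤ) + 1 : ℤ)‖ ^ (-9 : ℤ) *
      ‖tt y + (((24 * L : ℕ) : ℤ) + 1 : ℤ)‖ ^ (3 : ℤ) ≤ 1 := by
  have hL' : (1 : ℝ) ≤ L := by exact_mod_cast hL
  have h1 := tsq y (20 * L + 1)
  have h2 := tsq y (24 * L + 1)
  push_cast at h1 h2 ⊢
  have p0 := norm_nonneg (tt y + (20 * L + 1))
  have q0 := norm_nonneg (tt y + (24 * L + 1))
  set p := ‖tt y + (20 * L + 1)‖
  set q := ‖tt y + (24 * L + 1)‖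
  have h3 : 2 ≤ p := by
    refine (pow_le_pow_iff_left₀ (by norm_num) p0 two_ne_zero).1 ?_
    rw [h1]
    nlinarith
  have h4 : q ≤ 2 * p := by
    refine (pow_le_pow_iff_left₀ q0 (by positivity) two_ne_zero).1 ?_
    rw [mul_pow, h1, h2]
    nlinarith
  rw [zpow_neg, inv_mul_le_one₀ (by positivity), show (9 : ℤ) = ((9 : ℕ) : ℤ) from rfl,
    show (3 : ℤ) = ((3 : ℕ) : ℤ) from rfl, zpow_natCast, zpow_natCast,
    show p ^ 9 = (p ^ 2 * p) ^ 3 by ring]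
  refine pow_le_pow_left₀ q0 (h4.trans ?_) 3
  exact mul_le_mul_of_nonneg_right (by nlinarith) p0

lemma rp_bound {L : ℕ} (hL : 1 ≤ L) {y : ℝ} (hy : 0 ≤ y) :
    ‖Rp L y‖ ^ 2 ≤ WW (y / L) ^ L / (L : ℝ) ^ (144 * L) := by
  have hL' : (0 : ℝ) < L := by exact_mod_cast hL
  have e0 : pts (hh L) = Icc (1 : ℤ) ((24 * L + 1 : ℕ) : ℤ) := by
    unfold pts hh
    congr 1
    push_cast
    ring
  set g : ℕ → ℝ := fun k => ‖tt y + ((k : ℤ) + 1 : ℤ)‖ with hg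
  have g0 : ∀ k, 0 < g k := fun k => by
    have h1 := tsq y (k + 1)
    have h2 : (0 : ℝ) ≤ k := Nat.cast_nonneg k
    refine lt_of_le_of_ne (norm_nonneg _) fun h => ?_
    simp only [hg] at h
    push_cast at h h1
    rw [← h] at h1
    nlinarith
  have e1 : ‖Rp L y‖ = (∏ a ∈ range 24, (∏ j ∈ range L, g (a * L + j)) ^ ce a) *
      (g (20 * L) ^ (-9 : ℤ) * g (24 * L) ^ (3 : ℤ)) := by
    unfold Rp
    rw [e0, H13.Size.prod_Icc_eq, norm_prod, prod_range_succ, ← mul_assoc]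
    simp only [norm_zpow]
    congr 1
    · have e2 : g (20 * L) ^ (-9 : ℤ) =
          ∏ k ∈ range (24 * L), g k ^ (if k = 20 * L then (-9 : ℤ) else 0) := by
        rw [prod_eq_single_of_mem (20 * L) (mem_range.2 (by omega)) fun k _ hk => by
          rw [if_neg hk, zpow_zero], if_pos rfl]
      rw [e2, H13.Size.prod_cells, H13.Size.prod_cells, ← prod_mul_distrib]
      refine prod_congr rfl fun a ha => ?_
      rw [← prod_zpow, ← prod_mul_distrib]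
      refine prod_congr rfl fun j hj => ?_
      rw [m0_cell (mem_range.1 ha) (mem_range.1 hj), zpow_add₀ (g0 _).ne']
    · congr 1
      unfold m0
      simp only [abs_le]
      split_ifs <;> omega
  have h1 : ‖Rp L y‖ ≤ ∏ a ∈ range 24, (∏ j ∈ range L, g (a * L + j)) ^ ce a := by
    rw [e1]
    exact mul_le_of_le_one_right (prod_nonneg fun _ _ =>
      zpow_nonneg (prod_nonneg fun _ _ => (g0 _).le) _) (ends hL hy)
  refine (pow_le_pow_left₀ (norm_nonneg _) h1 2).trans ?_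
  rw [← prod_pow]
  refine (prod_le_prod (fun _ _ => sq_nonneg _) fun a _ => cell_bound hL hy a).trans_eq ?_
  rw [prod_mul_distrib, prod_pow, H13.Size.prod_zpow_const (by positivity), sum_ce,
    show (-72 : ℤ) = -((72 : ℕ) : ℤ) from rfl, zpow_neg, zpow_natCast, ← pow_mul, ← pow_mul,
    show 2 * (L * 72) = 144 * L by ring, mul_comm, div_eq_mul_inv]
  rfl

lemma qq_bound {L : ℕ} (hL : 64 ≤ L) {y : ℝ} (hy : 0 ≤ y) (s : ℕ) :
    ‖aeval (vv L y ^ 2) (qq L s)‖ ^ 2 ≤ (L : ℝ) ^ 8 * QQ s (y / L) := by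
  have hL' : (64 : ℝ) ≤ L := by exact_mod_cast hL
  have a0 : (0 : ℝ) ≤ la s := Nat.cast_nonneg _
  unfold qq QQ
  generalize (la s : ℝ) = a at a0
  generalize (lb s : ℝ) = b
  have e1 : aeval (vv L y ^ 2) ((X - C ((12 * L + 1 / 2 + L * a / 64) ^ 2 - (L * b / 64) ^ 2 : ℝ)) ^ 2 +
      C ((2 * (12 * L + 1 / 2 + L * a / 64) * (L * b / 64)) ^ 2 : ℝ)) =
      (((y - L * a / 64 : ℝ) : ℂ) + ((y - L * b / 64 : ℝ) : ℂ) * Complex.I) *
      (((y - L * a / 64 : ℝ) : ℂ) + ((y + L * b / 64 : ℝ) : ℂ) * Complex.I) *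
      (((24 * L + 1 + y + L * a / 64 : ℝ) : ℂ) + ((y + L * b / 64 : ℝ) : ℂ) * Complex.I) *
      (((24 * L + 1 + y + L * a / 64 : ℝ) : ℂ) + ((y - L * b / 64 : ℝ) : ℂ) * Complex.I) := by
    simp only [map_add, map_pow, map_sub, aeval_X, aeval_C, Complex.coe_algebraMap]
    have hv : ∀ v u w : ℂ, (v ^ 2 - (u ^ 2 - w ^ 2)) ^ 2 + (2 * u * w) ^ 2 =
        (v - (u + w * Complex.I)) * (v - (u - w * Complex.I)) * (v + (u + w * Complex.I)) *
          (v + (u - w * Complex.I)) := fun v u w => by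
      linear_combination (2 * v ^ 2 * w ^ 2 + 2 * u ^ 2 * w ^ 2 + w ^ 4 - w ^ 4 * Complex.I ^ 2) *
        Complex.I_sq
    push_cast
    rw [hv, vv, tt]
    congr 1
    · congr 1
      · congr 1 <;> ring
      · ring
    · ring
  rw [e1]
  simp only [norm_mul, mul_pow, nsq]
  obtain ⟨η, rfl⟩ : ∃ η, y = L * η := ⟨y / L, by field_simp⟩
  have hη : 0 ≤ η := nonneg_of_mul_nonneg_right hy (by linarith)
  rw [mul_div_cancel_left₀ _ (by linarith : (L : ℝ) ≠ 0)]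
  have h1 : (24 * L + 1 + L * η + L * a / 64 : ℝ) ^ 2 ≤ (L * (1537 / 64 + η + a / 64)) ^ 2 :=
    pow_le_pow_left₀ (by positivity) (by nlinarith) 2
  calc _ ≤ ((L * η - L * a / 64) ^ 2 + (L * η - L * b / 64) ^ 2) *
        ((L * η - L * a / 64) ^ 2 + (L * η + L * b / 64) ^ 2) *
        ((L * (1537 / 64 + η + a / 64)) ^ 2 + (L * η + L * b / 64) ^ 2) *
        ((L * (1537 / 64 + η + a / 64)) ^ 2 + (L * η - L * b / 64) ^ 2) := by gcongr
    _ = _ := by ring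

lemma vv_bound {L : ℕ} (hL : 1 ≤ L) {y : ℝ} (hy : 0 ≤ y) :
    1 ≤ ‖vv L y‖ ∧ ‖vv L y‖ ≤ 65000 * L * Real.exp (y / 5000) := by
  have hL' : (1 : ℝ) ≤ L := by exact_mod_cast hL
  have h1 := tsq y (12 * L + 1)
  push_cast at h1
  unfold vv
  have p0 := norm_nonneg (tt y + (12 * L + 1))
  set p := ‖tt y + (12 * L + 1)‖
  have h2 := Real.add_one_le_exp (y / 5000)
  refine ⟨(pow_le_pow_iff_left₀ (by norm_num) p0 two_ne_zero).1 (by rw [h1]; nlinarith), ?_⟩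
  have h3 : p ≤ 12 * L + 1 + 2 * y :=
    (pow_le_pow_iff_left₀ p0 (by positivity) two_ne_zero).1 (by rw [h1]; nlinarith)
  nlinarith

end Size

theorem size : SizeStmt := fun _ _ hL hy =>
  ⟨Size.rp_bound (by omega) hy, Size.qq_bound hL hy, Size.vv_bound (by omega) hy⟩

end Pool.Agent.MP_807c24_nt.D57
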