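import Pool.Agent.MP_807c24_nt.D57.Spec
import Pool.Agent.MP_807c24_nt.H13.Crude
import Pool.Agent.MP_807c24_nt.H13.Class

/-!
The bound for the Hankel determinant at every prime.
-/

namespace Pool.Agent.MP_807c24_nt.D57

open Finset Polynomial
open Pool.Agent.MP_807c24_nt.H13 (pts cf ords Hs pn)
open Pool.Agent.MP_807c24_nt.H13.Crude (pn_nonneg pn_mul pn_neg pn_int_le pn_nat_le pn_sum_le
  pn_int pn_Hs_le val_eq cnt cnt_bounds prod_zpow)

namespace Small

/-- Exponents of the basis polynomials. -/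
def ee (i l : ℕ) : ℕ := if l = 0 then i % 2 else if l ≤ i / 2 then 2 else 0

lemma sum_ee (i n : ℕ) : ∑ l ∈ range (n + 1), ee i l = i % 2 + 2 * min n (i / 2) := by
  induction n with
  | zero => simp [ee]
  | succ n ih =>
    rw [sum_range_succ, ih, ee, if_neg n.succ_ne_zero]
    split_ifs <;> omega

lemma dg_ee {L i : ℕ} (h : i < 18 * L) : dg L (ee i) = i := by
  rw [dg, sum_ee]
  omega

lemma dg_add (L : ℕ) (e e' : ℕ → ℕ) : dg L (fun j => e j + e' j) = dg L e + dg L e' :=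
  sum_add_distrib

lemma Pe_add (L : ℕ) (e e' : ℕ → ℕ) : Pe ℚ L e * Pe ℚ L e' = Pe ℚ L fun j => e j + e' j := by
  simp only [Pe, pow_add, prod_mul_distrib]

lemma Pe_monic (L : ℕ) (e : ℕ → ℕ) : (Pe ℚ L e).Monic :=
  monic_prod_of_monic _ _ fun _ _ => (monic_X_sub_C _).pow _

lemma Pe_deg (L : ℕ) (e : ℕ → ℕ) : (Pe ℚ L e).natDegree = dg L e := by
  rw [Pe, natDegree_prod_of_monic _ _ fun _ _ => (monic_X_sub_C _).pow _]
  refine sum_congr rfl fun j _ => ?_
  rw [(monic_X_sub_C _).natDegree_pow, natDegree_X_sub_C, mul_one]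

/-- Indicator of a centred interval. -/
def ind (L n : ℕ) (k : ℤ) : ℤ := if |k - (12 * L + 1)| ≤ n then 1 else 0

lemma me_le (L i j : ℕ) (k : ℤ) : me L (fun l => ee i l + ee j l) k ≤ 9 * ind L (8 * L) k -
    3 * ind L (12 * L) k - 2 * ind L (i / 2) k - 2 * ind L (j / 2) k + 4 * ind L 0 k := by
  simp only [me, m0, ee, ind, Int.abs_eq_natAbs]
  split_ifs <;> omega

lemma me_le_six (L : ℕ) (e : ℕ → ℕ) (k : ℤ) : me L e k ≤ 6 := by
  simp only [me, m0]
  split_ifs <;> omega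

lemma sum_ind (L n : ℕ) (hn : n ≤ 12 * L) (q k : ℤ) :
    ∑ x ∈ (pts (hh L)).filter (fun x => q ∣ x - k), ind L n x =
      cnt q k (12 * L - n) (12 * L + 1 + n) := by
  simp only [ind]
  rw [← sum_filter, sum_const, nsmul_eq_mul, mul_one, cnt]
  congr 2
  ext x
  simp only [pts, hh, mem_filter, mem_Icc, mem_Ioc, abs_le]
  constructor
  · rintro ⟨⟨_, h⟩, h2⟩
    exact ⟨by omega, h⟩
  · rintro ⟨h2, h⟩
    exact ⟨⟨by omega, h⟩, by omega⟩

lemma class_le {L i j : ℕ} (hi : i < 18 * L) (hj : j < 18 * L) {q : ℤ} (hq : 0 < q) (k : ℤ) :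
    ((∑ x ∈ (pts (hh L)).filter (fun x => q ∣ x - k), me L (fun l => ee i l + ee j l) x : ℤ) : ℝ) ≤
      (72 * L + 6 - 2 * i - 2 * j) * (1 / q) + 20 := by
  have key : ∀ n : ℕ, ((cnt q k (12 * L - n) (12 * L + 1 + n) : ℤ) : ℝ) ≤ (2 * n + 1) * (1 / q) + 1 ∧
      (2 * n + 1 : ℝ) * (1 / q) - 1 ≤ cnt q k (12 * L - n) (12 * L + 1 + n) := fun n => by
    have h := cnt_bounds q k (12 * L - n) (12 * L + 1 + n) hq (by omega)
    have e : ((((12 * L + 1 + n : ℤ)) : ℚ) - ((12 * L - n : ℤ) : ℚ)) / (q : ℚ) =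
        (2 * n + 1) * (1 / q) := by
      push_cast; ring
    rw [e] at h
    exact ⟨by exact_mod_cast h.1, by exact_mod_cast h.2⟩
  have h0 : cnt q k (12 * L - (0 : ℕ)) (12 * L + 1 + (0 : ℕ)) ≤ 1 := by
    have := card_filter_le (Ioc (12 * L - (0 : ℕ) : ℤ) (12 * L + 1 + (0 : ℕ))) fun x => q ∣ x - k
    rw [Int.card_Ioc] at this
    unfold cnt
    omega
  have h1 := sum_le_sum (s := (pts (hh L)).filter fun x => q ∣ x - k) fun x _ => me_le L i j x
  simp only [sum_add_distrib, sum_sub_distrib, ← mul_sum] at h1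
  rw [sum_ind L _ (by omega), sum_ind L _ le_rfl, sum_ind L _ (by omega), sum_ind L _ (by omega),
    sum_ind L _ (by omega)] at h1
  have h2 := (Int.cast_le (R := ℝ)).2 h1
  have h3 := (Int.cast_le (R := ℝ)).2 h0
  have k1 := (key (8 * L)).1
  have k2 := (key (12 * L)).2
  have k3 := (key (i / 2)).2
  have k4 := (key (j / 2)).2
  have q0 : (0 : ℝ) ≤ 1 / q := by positivity
  have k5 : (i : ℝ) ≤ 2 * (i / 2 : ℕ) + 1 := by exact_mod_cast (show i ≤ 2 * (i / 2) + 1 by omega)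
  have k6 : (j : ℝ) ≤ 2 * (j / 2 : ℕ) + 1 := by exact_mod_cast (show j ≤ 2 * (j / 2) + 1 by omega)
  have k7 := mul_le_mul_of_nonneg_right k5 q0
  have k8 := mul_le_mul_of_nonneg_right k6 q0
  refine h2.trans ?_
  generalize cnt q k _ _ = c0 at h3 k1 k2 k3 k4 ⊢
  generalize cnt q k _ _ = c1 at h3 k2 k3 k4 ⊢
  generalize cnt q k _ _ = c2 at h3 k3 k4 ⊢
  generalize hc : cnt q k _ _ = c3 at h3 k4 ⊢
  generalize ((i / 2 : ℕ) : ℝ) = x at *
  generalize ((j / 2 : ℕ) : ℝ) = y at *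
  generalize (1 : ℝ) / q = w at *
  push_cast at h3 k1 k2 ⊢
  linarith

variable (p : ℕ) [hp : Fact p.Prime]

/-- The weight of the prime. -/
noncomputable def sg (L : ℕ) : ℝ :=
  (∑ a ∈ Icc 1 (Nat.log p (24 * L + 2)), 1 / (p : ℝ) ^ a) * Real.log p

lemma prod_le {L i j : ℕ} (hi : i < 18 * L) (hj : j < 18 * L) (k : ℤ) (hk : k ∈ pts (hh L))
    (hm : 0 ≤ me L (fun l => ee i l + ee j l) k) :
    ∏ x ∈ (pts (hh L)).erase k, pn p ((x - k : ℤ) : ℚ) ^ (-(me L (fun l => ee i l + ee j l) x)) ≤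
      Real.exp ((72 * L + 6 - 2 * i - 2 * j) * sg p L) * (24 * L + 2 : ℝ) ^ 20 := by
  have hp1 : 1 < p := hp.out.one_lt
  have hp1' : (1 : ℝ) < p := by exact_mod_cast hp1
  have hp0 : (0 : ℝ) < p := by positivity
  have cl := fun a : ℕ => class_le hi hj (q := (p : ℤ) ^ a) (by positivity) k
  generalize me L (fun l => ee i l + ee j l) = m at *
  unfold sg
  set J := Nat.log p (24 * L + 2) with hJ
  have hJ1 : 24 * L + 2 < p ^ (J + 1) := Nat.lt_pow_succ_log_self hp1 _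
  have hJ2 : p ^ J ≤ 24 * L + 2 := Nat.pow_log_le_self p (by omega)
  have hk' := hk
  simp only [pts, hh, mem_Icc] at hk'
  have e1 : ∏ x ∈ (pts (hh L)).erase k, pn p ((x - k : ℤ) : ℚ) ^ (-(m x)) =
      (p : ℝ) ^ (∑ x ∈ (pts (hh L)).erase k, m x * (padicValInt p (x - k) : ℤ)) := by
    rw [← prod_zpow hp0.ne']
    refine prod_congr rfl fun x hx => ?_
    rw [pn_int p _ (sub_ne_zero.mpr (ne_of_mem_erase hx)), ← zpow_mul]
    congr 1
    ring
  have e2 : ∑ x ∈ (pts (hh L)).erase k, m x * (padicValInt p (x - k) : ℤ) =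
      ∑ a ∈ Ico 1 (J + 1), ∑ x ∈ (pts (hh L)).erase k, if (p : ℤ) ^ a ∣ x - k then m x else 0 := by
    rw [sum_comm]
    refine sum_congr rfl fun x hx => ?_
    have h1 := ne_of_mem_erase hx
    have h2 := mem_of_mem_erase hx
    simp only [pts, hh, mem_Icc] at h2
    rw [val_eq p _ (sub_ne_zero.mpr h1) J (by omega), mul_sum]
    refine sum_congr rfl fun a _ => ?_
    split_ifs <;> simp
  have e3 : ∀ a : ℕ, ((∑ x ∈ (pts (hh L)).erase k, if (p : ℤ) ^ a ∣ x - k then m x else 0 : ℤ) : ℝ) ≤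
      (72 * L + 6 - 2 * i - 2 * j) * (1 / (p : ℝ) ^ a) + 20 := fun a => by
    have h1 := cl a
    rw [sum_filter, ← add_sum_erase _ _ hk, if_pos (by simp), Int.cast_add, Int.cast_pow,
      Int.cast_natCast] at h1
    have : (0 : ℝ) ≤ m k := by exact_mod_cast hm
    linarith
  have e4 := sum_le_sum (s := Ico 1 (J + 1)) fun a _ => e3 a
  rw [← Int.cast_sum, ← e2, sum_add_distrib, ← mul_sum, sum_const, Nat.card_Ico, Nat.add_sub_cancel,
    nsmul_eq_mul, Ico_add_one_right_eq_Icc] at e4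
  rw [e1, ← Real.rpow_intCast]
  refine (Real.rpow_le_rpow_of_exponent_le hp1'.le e4).trans ?_
  rw [Real.rpow_add hp0, Real.rpow_def_of_pos hp0, mul_comm (Real.log p), mul_assoc,
    show (J : ℝ) * 20 = (J * 20 : ℕ) by push_cast; ring, Real.rpow_natCast, pow_mul]
  gcongr
  exact_mod_cast hJ2

lemma bd {L i j : ℕ} (hi : i < 18 * L) (hj : j < 18 * L) : Bd3 p L (fun l => ee i l + ee j l)
    (Real.exp ((72 * L + 6 - 2 * i - 2 * j) * sg p L) * (24 * L + 2 : ℝ) ^ 28) := by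
  have h0 : (1 : ℝ) ≤ 24 * L + 2 := by
    have : (0 : ℝ) ≤ L := by positivity
    linarith
  have eh : ((hh L : ℤ) : ℝ) = 24 * L + 2 := by unfold hh; push_cast; ring
  have c1 : ∀ k ∈ pts (hh L), ∀ s ∈ ords (me L fun l => ee i l + ee j l) k,
      s ≤ 6 ∧ pn p (cf (me L fun l => ee i l + ee j l) (hh L) k s * ((s + 1).choose 2 : ℚ)) ≤
      Real.exp ((72 * L + 6 - 2 * i - 2 * j) * sg p L) * (24 * L + 2 : ℝ) ^ (26 - s) :=
    fun k hk s hs => by
    have h1 := (H13.coef p _ _ k hk s hs).1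
    simp only [ords, mem_Icc] at hs
    have h6 := me_le_six L (fun l => ee i l + ee j l) k
    have h2 := prod_le p hi hj k hk (by omega)
    rw [eh] at h1
    refine ⟨by omega, ?_⟩
    rw [pn_mul, show 26 - s = 20 + (6 - s) by omega, pow_add, ← mul_assoc]
    refine (mul_le_of_le_one_right (pn_nonneg p _) (pn_nat_le p _)).trans (h1.trans ?_)
    exact mul_le_mul h2 (pow_le_pow_right₀ h0 (by omega)) (by positivity) (by positivity)
  have c2 : ∀ s, 1 ≤ s → pn p (Ai L (fun l => ee i l + ee j l) s) ≤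
      Real.exp ((72 * L + 6 - 2 * i - 2 * j) * sg p L) * (24 * L + 2 : ℝ) ^ 28 := fun s hs =>
    pn_sum_le p _ _ _ (by positivity) fun k hk => by
      rw [mem_filter] at hk
      exact (c1 k hk.1 s (by simp only [ords, mem_Icc]; omega)).2.trans
        (mul_le_mul_of_nonneg_left (pow_le_pow_right₀ h0 (by omega)) (by positivity))
  refine ⟨?_, c2 3 (by norm_num), c2 5 (by norm_num)⟩
  rw [A0, pn_neg]
  refine pn_sum_le p _ _ _ (by positivity) fun k hk => pn_sum_le p _ _ _ (by positivity) fun s hs => ?_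
  obtain ⟨h1, h2⟩ := c1 k hk s hs
  simp only [pts, mem_Icc] at hk
  have h3 := pn_Hs_le p (s + 2) (k - 4 * L - 1) (hh L) (by omega) (by omega)
  rw [eh] at h3
  rw [pn_mul, show 28 = 26 - s + (s + 2) by omega, pow_add, ← mul_assoc]
  exact mul_le_mul h2 h3 (pn_nonneg p _) (by positivity)

lemma pn_add_le {x y : ℚ} {B : ℝ} (hx : pn p x ≤ B) (hy : pn p y ≤ B) : pn p (x + y) ≤ B := by
  unfold pn at *
  rw [Rat.cast_add]
  exact (IsUltrametricDist.norm_add_le_max _ _).trans (max_le hx hy)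

lemma pn_int_mul {x : ℚ} {B : ℝ} (d : ℤ) (hx : pn p x ≤ B) : pn p (d * x) ≤ B := by
  rw [pn_mul]
  exact (mul_le_of_le_one_left (pn_nonneg p _) (pn_int_le p d)).trans hx

lemma sum_lin (c : ℝ) (n : ℕ) : ∑ i ∈ range n, (c - 4 * i) = n * c - 2 * n * (n - 1) := by
  induction n with
  | zero => simp
  | succ n ih => rw [sum_range_succ, ih]; push_cast; ring

end Small

open D57.Small

theorem small (hg : GramStmt) (hd : DetPStmt) : SmallStmt := by
  intro p _ L μ d a b _ hR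
  have h0 : (0 : ℝ) < 24 * L + 2 := by positivity
  rw [← hg ℚ μ (18 * L) (fun i => Pe ℚ L (ee i))
    fun i => ⟨Pe_monic L _, (Pe_deg L _).trans (dg_ee i.2)⟩]
  refine (hd p _ _ (fun i => Real.exp ((36 * L + 3 - 2 * (i : ℕ)) * sg p L +
    14 * Real.log (24 * L + 2))) fun i j => ?_).trans (le_of_eq ?_)
  · obtain ⟨b0, b3, b5⟩ := bd p i.2 j.2
    rw [Matrix.of_apply, Pe_add, hR _ (by
      rw [dg_add, dg_ee i.2, dg_ee j.2]
      have := i.2
      have := j.2
      omega)]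
    refine (pn_add_le p (pn_add_le p (pn_int_mul p d b0) (pn_int_mul p a b3))
      (pn_int_mul p b b5)).trans (le_of_eq ?_)
    rw [← Real.exp_log (pow_pos h0 28), ← Real.exp_add, ← Real.exp_add, Real.log_pow]
    congr 1
    push_cast
    ring
  · simp only [← Real.exp_nat_mul]
    rw [← Real.exp_sum, Fin.sum_univ_eq_sum_range (fun i : ℕ => ((2 : ℕ) : ℝ) *
      ((36 * L + 3 - 2 * i) * sg p L + 14 * Real.log (24 * L + 2)))]
    congr 1
    rw [sum_congr rfl (g := fun i : ℕ => (72 * L + 6 - 4 * i) * sg p L + 28 * Real.log (24 * L + 2))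
      fun i _ => by push_cast; ring, sum_add_distrib, ← sum_mul, sum_lin, sum_const, card_range,
      nsmul_eq_mul, fS, sg]
    push_cast
    ring

end Pool.Agent.MP_807c24_nt.D57
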