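import Pool.Agent.MP_807c24_nt.H13.Spec

/-!
Specification for: at least one of zeta(5), zeta(7) is irrational (Hankel determinant method).

With `v = t + 12 L + 1`, `R(t) = 2 v * prod_{8L < |j| <= 12L} (v - j)^3 / prod_{|j| <= 8L} (v - j)^6`.
The functional `P ↦ sum_{t >= 0} (R(t) P(v^2))'' / 2` takes values `A0 + A3 zeta(5) + A5 zeta(7)`.
The Hankel determinant of size `18 L` of its moments is small, has small denominators, and is not
zero when `10 L + 1` is prime and zeta(5), zeta(7) are rational.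
-/

namespace Pool.Agent.MP_807c24_nt.D57

open Finset Filter Topology Polynomial
open Pool.Agent.MP_807c24_nt.H13 (pts cf ords Hs zr pn cls)

noncomputable section

/-! ### The linear forms -/

/-- `h = 24 L + 2`; the centre is `12 L + 1`. -/
def hh (L : ℕ) : ℤ := 24 * L + 2

/-- Multiplicity of the pole (positive) or zero (negative) of `R` at `t = -k`. -/
def m0 (L : ℕ) (k : ℤ) : ℤ :=
  if |k - (12 * L + 1)| ≤ 8 * L then 6 else if |k - (12 * L + 1)| ≤ 12 * L then -3 else 0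

/-- Multiplicities of `R(t) * prod_j (v^2 - j^2)^(e j)`. -/
def me (L : ℕ) (e : ℕ → ℕ) (k : ℤ) : ℤ :=
  m0 L k - if k = 12 * L + 1 then 2 * (e 0 : ℤ) else (e (k - (12 * L + 1)).natAbs : ℤ)

/-- Degree of the block product. -/
def dg (L : ℕ) (e : ℕ → ℕ) : ℕ := ∑ j ∈ range (12 * L + 1), e j

/-- Constant term of the linear form. -/
def A0 (L : ℕ) (e : ℕ → ℕ) : ℚ :=
  -∑ k ∈ pts (hh L), ∑ i ∈ ords (me L e) k,
    cf (me L e) (hh L) k i * ((i + 1).choose 2 : ℚ) * Hs (i + 2) (k - 4 * L - 1)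

/-- Coefficient of zeta(i+2). -/
def Ai (L : ℕ) (e : ℕ → ℕ) (i : ℕ) : ℚ :=
  ∑ k ∈ (pts (hh L)).filter (fun k => (i : ℤ) ≤ me L e k),
    cf (me L e) (hh L) k i * ((i + 1).choose 2 : ℚ)

/-- The linear form. -/
def form (L : ℕ) (e : ℕ → ℕ) : ℝ := A0 L e + Ai L e 3 * zr 5 + Ai L e 5 * zr 7

/-- Exponents of the monomial of degree `d`. -/
def mono (d : ℕ) : ℕ → ℕ := fun j => if j = 0 then d else 0

/-- The moments. -/
def mom (L d : ℕ) : ℝ := form L (mono d)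

/-- The block product `prod_j (X - j^2)^(e j)`. -/
def Pe (K : Type) [CommRing K] (L : ℕ) (e : ℕ → ℕ) : K[X] :=
  ∏ j ∈ range (12 * L + 1), (X - C ((j : K) ^ 2)) ^ e j

/-- The linear functional with moments `μ`. -/
def lam {K : Type} [CommRing K] (μ : ℕ → K) (P : K[X]) : K := P.sum fun d a => a * μ d

/-- The Hankel determinant. -/
def hank {K : Type} [CommRing K] (μ : ℕ → K) (Z : ℕ) : K :=
  (Matrix.of fun i j : Fin Z => μ (i + j)).det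

/-! ### Linear algebra and the product formula -/

/-- A monic triangular basis does not change the determinant. -/
def GramStmt : Prop :=
  ∀ (K : Type) [Field K] (μ : ℕ → K) (Z : ℕ) (P : Fin Z → K[X]),
    (∀ i, (P i).Monic ∧ (P i).natDegree = i) →
    (Matrix.of fun i j : Fin Z => lam μ (P i * P j)).det = hank μ Z

/-- Any family of `Z` polynomials of degree below `Z` detects non-vanishing. -/
def GramNeStmt : Prop :=
  ∀ (K : Type) [Field K] (μ : ℕ → K) (Z : ℕ) (ι : Type) [Fintype ι] [DecidableEq ι]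
    (P : ι → K[X]), Fintype.card ι = Z → (∀ a, (P a).natDegree < Z) →
    (Matrix.of fun a b : ι => lam μ (P a * P b)).det ≠ 0 → hank μ Z ≠ 0

/-- Real bound for a determinant. -/
def DetRStmt : Prop :=
  ∀ (Z : ℕ) (G : Matrix (Fin Z) (Fin Z) ℝ) (r : Fin Z → ℝ),
    (∀ i j, |G i j| ≤ r i * r j) → |G.det| ≤ (Z.factorial : ℝ) * ∏ i, r i ^ 2

/-- p-adic bound for a determinant. -/
def DetPStmt : Prop :=
  ∀ (p : ℕ) [Fact p.Prime] (Z : ℕ) (G : Matrix (Fin Z) (Fin Z) ℚ) (r : Fin Z → ℝ),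
    (∀ i j, pn p (G i j) ≤ r i * r j) → pn p G.det ≤ ∏ i, r i ^ 2

/-- The product formula. -/
def ProdStmt : Prop :=
  ∀ (x : ℚ) (S : Finset ℕ) (f : ℕ → ℝ), x ≠ 0 → (∀ p ∈ S, p.Prime) →
    (∀ (p : ℕ) [Fact p.Prime], pn p x ≤ if p ∈ S then Real.exp (f p) else 1) →
    0 ≤ Real.log |(x : ℝ)| + ∑ p ∈ S, f p

/-! ### The real side -/

/-- Contour integral bound on the ray of direction `1 + i`. -/
def RayStmt : Prop :=
  ∃ C : ℝ, 0 < C ∧ ∀ (ι : Type) (s : Finset ι) (κ i : ι → ℕ) (a : ι → ℝ) (B : ℝ),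
    (∀ j ∈ s, 1 ≤ i j) →
    (∀ y : ℝ, 0 ≤ y → ‖∑ j ∈ s, (a j : ℂ) / (1 / 2 + κ j + y * (1 + Complex.I)) ^ (i j)‖ ≤
      B * Real.exp (6281 / 1000 * y)) →
    |∑ j ∈ s, a j * ((i j + 1).choose 2 : ℝ) *
      ∑' ν : ℕ, 1 / ((ν : ℝ) + 1 + κ j) ^ (i j + 2)| ≤ C * B

/-- The ray in the variable `t`. -/
def tt (y : ℝ) : ℂ := -1 / 2 + y * (1 + Complex.I)

/-- The ray in the variable `v`. -/
def vv (L : ℕ) (y : ℝ) : ℂ := tt y + (12 * L + 1)

/-- `R` without the factor `2 v`. -/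
def Rp (L : ℕ) (y : ℝ) : ℂ := ∏ k ∈ pts (hh L), (tt y + k) ^ (-(m0 L k))

/-- The functional is bounded by the size of the function on the ray. -/
def BoundStmt : Prop :=
  ∃ C : ℝ, 0 < C ∧ ∀ (L : ℕ) (P : ℝ[X]) (B : ℝ), 1 ≤ L → P.natDegree ≤ 36 * L →
    (∀ y : ℝ, 0 ≤ y → ‖2 * vv L y * Rp L y * aeval (vv L y ^ 2) P‖ ≤
      B * Real.exp (6281 / 1000 * y)) →
    |lam (mom L) P| ≤ C * B

/-- The functional on a block product is the linear form. -/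
def LinkStmt : Prop :=
  ∀ (L : ℕ) (e : ℕ → ℕ), 1 ≤ L → dg L e ≤ 36 * L → lam (mom L) (Pe ℝ L e) = form L e

/-- First coordinates (in units `L / 64`) of the roots of the basis polynomials. -/
def la (s : ℕ) : ℕ := [5, 39, 70, 113, 65, 173, 197, 211, 219].getD s 0

/-- Second coordinates. -/
def lb (s : ℕ) : ℕ := [0, 17, 50, 99, 1, 165, 186, 200, 206].getD s 0

/-- Exponents in the numerical inequality. -/
def be (s : ℕ) : ℕ := [370, 356, 333, 307, 279, 245, 214, 179, 142, 103].getD s 0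

/-- Scaled bound for `|R|^2`. -/
def WW (η : ℝ) : ℝ :=
  ∏ a ∈ range 24, if a < 4 ∨ 20 ≤ a then (((a : ℝ) + 1 / 2 + η) ^ 2 + η ^ 2 + 1 / 4) ^ 3
    else ((((a : ℝ) + 1 / 2 + η) ^ 2 + η ^ 2 - 1 / 4) ^ 6)⁻¹

/-- Scaled bound for `|q_s|^2`. -/
def QQ (s : ℕ) (η : ℝ) : ℝ :=
  ((η - la s / 64) ^ 2 + (η - lb s / 64) ^ 2) * ((η - la s / 64) ^ 2 + (η + lb s / 64) ^ 2) *
    ((1537 / 64 + η + la s / 64) ^ 2 + (η + lb s / 64) ^ 2) *
    ((1537 / 64 + η + la s / 64) ^ 2 + (η - lb s / 64) ^ 2)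

/-- The numerical inequality on the ray. -/
def PhiStmt : Prop :=
  ∀ s : ℕ, s ≤ 9 → ∀ η : ℝ, 0 ≤ η →
    WW η * ∏ s' ∈ range s, QQ s' η ^ 2 ≤ Real.exp (-(be s : ℝ) + 314 / 25 * η)

/-- The real quadratic with roots the squares of `12 L + 1/2 + L (la s ± i lb s) / 64`. -/
def qq (L s : ℕ) : ℝ[X] :=
  (X - C ((12 * L + 1 / 2 + L * la s / 64) ^ 2 - (L * lb s / 64) ^ 2 : ℝ)) ^ 2 +
    C ((2 * (12 * L + 1 / 2 + L * la s / 64) * (L * lb s / 64)) ^ 2 : ℝ)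

/-- Sizes on the ray. -/
def SizeStmt : Prop :=
  ∀ (L : ℕ) (y : ℝ), 64 ≤ L → 0 ≤ y →
    ‖Rp L y‖ ^ 2 ≤ WW (y / L) ^ L / (L : ℝ) ^ (144 * L) ∧
    (∀ s : ℕ, ‖aeval (vv L y ^ 2) (qq L s)‖ ^ 2 ≤ (L : ℝ) ^ 8 * QQ s (y / L)) ∧
    1 ≤ ‖vv L y‖ ∧ ‖vv L y‖ ≤ 65000 * L * Real.exp (y / 5000)

/-- The determinant is small. -/
def RealStmt : Prop :=
  ∃ C : ℝ, ∀ L : ℕ, 64 ≤ L → |hank (mom L) (18 * L)| ≤
    Real.exp (18 * L * (C + 6 * Real.log L) - 648 * (L : ℝ) ^ 2 * Real.log L - 2291 * (L : ℝ) ^ 2)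

/-! ### The p-adic side -/

/-- Rational moments whose functional is given by the linear forms with integers `d, a, b` in
place of `1, zeta(5), zeta(7)`. -/
def Rep (L : ℕ) (μ : ℕ → ℚ) (d a b : ℤ) : Prop :=
  ∀ e : ℕ → ℕ, dg L e ≤ 36 * L → lam μ (Pe ℚ L e) = d * A0 L e + a * Ai L e 3 + b * Ai L e 5

/-- All three coefficients are bounded by `B`. -/
def Bd3 (p : ℕ) [Fact p.Prime] (L : ℕ) (e : ℕ → ℕ) (B : ℝ) : Prop :=
  pn p (A0 L e) ≤ B ∧ pn p (Ai L e 3) ≤ B ∧ pn p (Ai L e 5) ≤ B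

/-- Bound of one form from the residue classes. -/
def EntryStmt : Prop :=
  ∀ (p : ℕ) [Fact p.Prime] (L : ℕ) (e : ℕ → ℕ) (y : ℤ), p ≠ 2 → 24 * L + 2 ≤ p ^ 2 →
    (∀ c : ℤ, (∑ k ∈ cls (hh L) p c, me L e k) + 2 ≤ y ∨
      (0 ≤ y ∧ ∀ k k' : ℤ, (p : ℤ) ∣ k - c → (p : ℤ) ∣ k' - c → 4 * (L : ℤ) < k →
        k < 20 * L + 2 → 4 * (L : ℤ) < k' → k' < 20 * L + 2 → k = k')) →
    Bd3 p L e ((p : ℝ) ^ y)

/-- The basis built from thresholds. -/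
def ThreshStmt : Prop :=
  ∀ (p : ℕ) [Fact p.Prime] (L : ℕ) (μ : ℕ → ℚ) (d a b : ℤ) (T U : ℕ) (α : ℕ → ℕ → ℕ),
    Rep L μ d a b → (∀ j, α U j = 0) →
    (∀ u u' s : ℕ, Bd3 p L (fun j => α u j + α u' j + mono s j) ((p : ℝ) ^ ((2 * T + u + u') / 2))) →
    pn p (hank μ (18 * L)) ≤ (p : ℝ) ^ (18 * L * T + ∑ u ∈ range U, dg L (α u))

/-- Number of pairs in an interval of `l` integers whose difference is a positive multiple of `q`. -/
def psi (l q : ℕ) : ℕ := ∑ d ∈ (Icc 1 l).filter (fun d => q ∣ d), (l - d)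

/-- Autocorrelation of the multiplicities summed over the positive multiples of `q`. -/
def Phi (L q : ℕ) : ℤ :=
  81 * psi (16 * L + 1) q + 9 * psi (24 * L + 1) q - 54 * psi (20 * L + 1) q + 54 * psi (4 * L) q

/-- Sum of the squares of the class multiplicities. -/
def SqStmt : Prop :=
  ∀ L q : ℕ, 0 < q →
    ∑ c ∈ range q, (∑ k ∈ cls (hh L) q c, m0 L k) ^ 2 = 648 * L + 36 + 2 * Phi L q

/-- Size of `psi`. -/
def PsiStmt : Prop :=
  ∀ l q : ℕ, 0 < q → (l : ℝ) ^ 2 / (2 * q) - l / 2 ≤ psi l q ∧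
    (psi l q : ℝ) ≤ (l : ℝ) ^ 2 / (2 * q) - l / 2 + q / 8

/-- Bound for small primes. -/
def fS (L p : ℕ) : ℝ :=
  504 * L * Real.log (24 * L + 2) + (648 * (L : ℝ) ^ 2 + 144 * L) *
    (∑ a ∈ Icc 1 (Nat.log p (24 * L + 2)), 1 / (p : ℝ) ^ a) * Real.log p

/-- Bound for medium primes. -/
def fM (L p : ℕ) : ℝ := (135 * L + 8 + 48 * L / p + (Phi L p : ℝ) / 4) * Real.log p

/-- Bound for large primes. -/
def fL (L p : ℕ) : ℝ := 28 * ((16 * L + 1 - p : ℕ) : ℝ) * Real.log p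

/-- Every prime. -/
def SmallStmt : Prop :=
  ∀ (p : ℕ) [Fact p.Prime] (L : ℕ) (μ : ℕ → ℚ) (d a b : ℤ), 1 ≤ L → Rep L μ d a b →
    pn p (hank μ (18 * L)) ≤ Real.exp (fS L p)

/-- Medium primes. -/
def MediumStmt : Prop :=
  ∀ (p : ℕ) [Fact p.Prime] (L : ℕ) (μ : ℕ → ℚ) (d a b : ℤ), 1 ≤ L → Rep L μ d a b →
    24 * L + 2 ≤ p ^ 2 → p ≤ 24 * L + 1 → pn p (hank μ (18 * L)) ≤ Real.exp (fM L p)

/-- Large primes. -/
def LargeStmt : Prop :=
  ∀ (p : ℕ) [Fact p.Prime] (L : ℕ) (μ : ℕ → ℚ) (d a b : ℤ), 1 ≤ L → Rep L μ d a b →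
    8 * L < p → pn p (hank μ (18 * L)) ≤ Real.exp (fL L p)

/-- The prime that shows that the determinant is not zero. -/
def NonzeroStmt : Prop :=
  ∀ (p : ℕ) [Fact p.Prime] (L : ℕ) (μ : ℕ → ℚ) (d a b : ℤ), p = 10 * L + 1 → Rep L μ d a b →
    ¬(p : ℤ) ∣ d → hank μ (18 * L) ≠ 0

/-! ### The sum over the primes -/

/-- Logarithm of the superfactorial. -/
def SS (l : ℕ) : ℝ := ∑ d ∈ Icc 1 l, ((l : ℝ) - d) * Real.log d

/-- Size of the superfactorial. -/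
def SuperStmt : Prop :=
  ∀ l : ℕ, 1 ≤ l →
    |SS l - ((l : ℝ) ^ 2 / 2 * Real.log l - 3 / 4 * (l : ℝ) ^ 2)| ≤ 2 * l * (Real.log (l + 1) + 1)

/-- Prime factorization of the superfactorial. -/
def FactStmt : Prop :=
  ∀ l H : ℕ, l ≤ H → SS l = ∑ p ∈ (range (H + 1)).filter Nat.Prime,
    (∑ a ∈ Icc 1 (Nat.log p H), (psi l (p ^ a) : ℝ)) * Real.log p

/-- Weighted Chebyshev function. -/
def TT (l : ℕ) : ℝ := ∑ p ∈ (range (l + 1)).filter Nat.Prime, ((l : ℝ) - p) * Real.log p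

/-- Plain Chebyshev function. -/
def TH (l : ℕ) : ℝ := ∑ p ∈ (range (l + 1)).filter Nat.Prime, Real.log p

/-- Consequences of the prime number theorem. -/
def ChebStmt : Prop :=
  ∀ ε : ℝ, 0 < ε → ∀ᶠ l : ℕ in atTop,
    |TH l - l| ≤ ε * l ∧ |TT l - (l : ℝ) ^ 2 / 2| ≤ ε * (l : ℝ) ^ 2

/-- The bound used for each prime. -/
def ff (L p : ℕ) : ℝ :=
  if p ^ 2 < 24 * L + 2 then fS L p else if p ≤ 10 * L + 1 then fM L p else fL L p

/-- Sum over the primes. -/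
def PrimeStmt : Prop :=
  ∀ᶠ L : ℕ in atTop, ∑ p ∈ (range (16 * L + 1)).filter Nat.Prime, ff L p ≤
    648 * (L : ℝ) ^ 2 * Real.log L + 2285 * (L : ℝ) ^ 2

/-- The theorem. -/
def MainStmt : Prop := Irrational (zr 5) ∨ Irrational (zr 7)

end

end Pool.Agent.MP_807c24_nt.D57
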