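import Pool.Agent.MP_807c24_nt.D57.Spec

/-!
The sum of the squares of the class multiplicities, and the size of `psi`.
-/

set_option autoImplicit false

namespace Pool.Agent.MP_807c24_nt.D57

open Finset
open Pool.Agent.MP_807c24_nt.H13 (pts cls)

namespace Sq

theorem psi_succ (l q : ℕ) : psi (l + 1) q = psi l q + l / q := by
  have h : Icc 1 l = Ioc 0 l := rfl
  rw [← Nat.Ioc_filter_dvd_card_eq_div, ← h, card_filter, psi, psi, sum_filter, sum_filter,
    sum_Icc_succ_top (by omega), ← sum_add_distrib, Nat.sub_self, ite_self, add_zero]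
  refine sum_congr rfl fun d hd => ?_
  have := (mem_Icc.1 hd).2
  split_ifs <;> omega

theorem psi_eq (l q : ℕ) : 2 * psi l q + q * (l / q * (l / q + 1)) = 2 * (l / q) * l := by
  induction l with
  | zero => simp [psi]
  | succ l ih =>
    rw [psi_succ]
    by_cases h : q ∣ l + 1
    · have h1 := Nat.mul_div_cancel' h
      rw [Nat.succ_div_of_dvd h] at h1 ⊢
      zify at ih h1 ⊢
      linear_combination ih + 2 * h1
    · rw [Nat.succ_div_of_not_dvd h]
      zify at ih ⊢
      linear_combination ih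

/-- The number of points of a class in the interval of length `l` that starts at `a`. -/
def cnt (q : ℕ) (a : ℤ) (l c : ℕ) : ℤ := ∑ j ∈ range l, if (q : ℤ) ∣ a + j - c then 1 else 0

theorem cnt_add (q : ℕ) (a : ℤ) (l l' c : ℕ) :
    cnt q a (l + l') c = cnt q a l c + cnt q (a + l) l' c := by
  simp only [cnt, sum_range_add, Nat.cast_add, add_assoc]

theorem one {q : ℕ} (hq : 0 < q) (a : ℤ) (l : ℕ) :
    ∑ c ∈ range q, cnt q a l c ^ 2 = l + 2 * psi l q := by
  induction l with
  | zero => simp [cnt, psi]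
  | succ l ih =>
    have hq' : (0 : ℤ) < q := by exact_mod_cast hq
    obtain ⟨c₀, h0, h1⟩ : ∃ c₀ : ℕ, c₀ < q ∧ (q : ℤ) ∣ a + l - c₀ := by
      have e1 := Int.emod_nonneg (a + l) hq'.ne'
      have e2 := Int.emod_lt_of_pos (a + l) hq'
      refine ⟨((a + l) % q).toNat, by omega, ?_⟩
      rw [Int.toNat_of_nonneg e1]
      exact Int.dvd_self_sub_emod
    have h2 : ∀ c ∈ range q, cnt q a (l + 1) c ^ 2
        = cnt q a l c ^ 2 + if c = c₀ then 2 * cnt q a l c₀ + 1 else 0 := by
      intro c hc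
      rw [cnt, sum_range_succ, ← cnt]
      by_cases e : c = c₀
      · rw [if_pos e, e, if_pos h1]
        ring
      · have h4 := mem_range.1 hc
        rw [if_neg e, if_neg fun h => e (by
          have h5 := Int.eq_zero_of_abs_lt_dvd (dvd_sub h1 h) (abs_lt.2 ⟨by omega, by omega⟩)
          omega), add_zero, add_zero]
    have h3 : cnt q a l c₀ = (l / q : ℕ) := by
      rw [← Nat.card_multiples, card_filter, cnt, ← sum_range_reflect]
      push_cast
      refine sum_congr rfl fun j hj => if_congr ?_ rfl rfl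
      have h4 := mem_range.1 hj
      have h5 : a + ((l - 1 - j : ℕ) : ℤ) - c₀ = a + l - c₀ - ((j + 1 : ℕ) : ℤ) := by omega
      rw [h5, dvd_sub_right h1, Int.natCast_dvd_natCast]
    rw [sum_congr rfl h2, sum_add_distrib, ih, sum_ite_eq', if_pos (mem_range.2 h0), h3, psi_succ]
    push_cast
    ring

theorem cls_eq (L q c : ℕ) : ∑ k ∈ cls (hh L) q c, m0 L k = -3 * cnt q 1 (4 * L) c +
    6 * cnt q (1 + (4 * L : ℕ)) (16 * L + 1) c + -3 * cnt q (1 + (20 * L + 1 : ℕ)) (4 * L) c := by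
  have h : (hh L - 1 + 1 - 1).toNat = 4 * L + (16 * L + 1) + 4 * L := by
    rw [hh]
    omega
  rw [cls, pts, sum_filter, Int.Icc_eq_finset_map, sum_map, h, sum_range_add, sum_range_add]
  simp only [cnt, mul_sum, Function.Embedding.trans_apply, Nat.castEmbedding_apply,
    addLeftEmbedding_apply]
  congr 1
  congr 1
  all_goals
    refine sum_congr rfl fun j hj => ?_
    have := mem_range.1 hj
    rw [mul_ite, mul_one, mul_zero]
    refine if_congr (iff_of_eq (congrArg _ (by push_cast; ring))) ?_ rfl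
    simp only [m0, abs_le]
    split_ifs <;> omega

end Sq

open Sq

theorem sq : SqStmt := by
  intro L q hq
  have e1 : 20 * L + 1 = 4 * L + (16 * L + 1) := by ring
  have e2 : 20 * L + 1 = 16 * L + 1 + 4 * L := by ring
  have e3 : 24 * L + 1 = 20 * L + 1 + 4 * L := by ring
  have e4 : (1 : ℤ) + (4 * L : ℕ) + (16 * L + 1 : ℕ) = 1 + (20 * L + 1 : ℕ) := by
    push_cast
    ring
  have h : ∀ c ∈ range q, (∑ k ∈ cls (hh L) q c, m0 L k) ^ 2 =
      27 * cnt q 1 (4 * L) c ^ 2 + 27 * cnt q (1 + (20 * L + 1 : ℕ)) (4 * L) c ^ 2 +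
        81 * cnt q (1 + (4 * L : ℕ)) (16 * L + 1) c ^ 2 + 9 * cnt q 1 (24 * L + 1) c ^ 2 -
        27 * cnt q 1 (20 * L + 1) c ^ 2 - 27 * cnt q (1 + (4 * L : ℕ)) (20 * L + 1) c ^ 2 := by
    intro c _
    have h1 := cnt_add q 1 (4 * L) (16 * L + 1) c
    have h2 := cnt_add q (1 + (4 * L : ℕ)) (16 * L + 1) (4 * L) c
    have h3 := cnt_add q 1 (20 * L + 1) (4 * L) c
    rw [← e1] at h1
    rw [← e2, e4] at h2
    rw [← e3] at h3
    rw [cls_eq, h3, h2, h1]
    ring
  rw [sum_congr rfl h]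
  simp only [sum_add_distrib, sum_sub_distrib, ← mul_sum, one hq, Phi]
  push_cast
  ring

theorem psiB : PsiStmt := by
  intro l q hq
  have hq' : (0 : ℝ) < q := by exact_mod_cast hq
  have h1 : 2 * (psi l q : ℝ) + q * ((l / q : ℕ) * ((l / q : ℕ) + 1)) = 2 * (l / q : ℕ) * l := by
    exact_mod_cast psi_eq l q
  have h2 : (q : ℝ) * (l / q : ℕ) + (l % q : ℕ) = l := by exact_mod_cast Nat.div_add_mod l q
  have h3 : ((l % q : ℕ) : ℝ) ≤ q := by exact_mod_cast (Nat.mod_lt l hq).le
  have h4 : (0 : ℝ) ≤ (l % q : ℕ) := Nat.cast_nonneg _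
  generalize ((l / q : ℕ) : ℝ) = s at h1 h2
  generalize ((l % q : ℕ) : ℝ) = r at h2 h3 h4
  have h5 : (psi l q : ℝ) = (l : ℝ) ^ 2 / (2 * q) - l / 2 + r * (q - r) / (2 * q) := by
    rw [← h2] at h1 ⊢
    field_simp
    linear_combination q * h1
  have h6 : 0 ≤ r * (q - r) / (2 * q) := div_nonneg (mul_nonneg h4 (sub_nonneg.2 h3)) (by positivity)
  have h7 : r * (q - r) / (2 * q) ≤ q / 8 := by
    rw [div_le_div_iff₀ (by positivity) (by norm_num)]
    nlinarith [sq_nonneg (q - 2 * r)]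
  constructor <;> linarith

end Pool.Agent.MP_807c24_nt.D57
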