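import Pool.Agent.MP_807c24_nt.D57.Spec

/-!
The superfactorial: its size, its prime factorization, and two consequences of the prime number
theorem.
-/

namespace Pool.Agent.MP_807c24_nt.D57

open Finset Filter Topology

namespace Super

theorem log_step (l : ℝ) (hl : 0 < l) :
    1 ≤ (l + 1) * (Real.log (l + 1) - Real.log l) ∧ l * (Real.log (l + 1) - Real.log l) ≤ 1 := by
  have h1 := Real.one_sub_inv_le_log_of_pos (x := (l + 1) / l) (by positivity)
  have h2 := Real.log_le_sub_one_of_pos (x := (l + 1) / l) (by positivity)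
  rw [Real.log_div (by positivity) hl.ne'] at h1 h2
  rw [inv_div] at h1
  constructor
  · have : (l + 1) * (1 - l / (l + 1)) = 1 := by field_simp; ring
    calc (1 : ℝ) = (l + 1) * (1 - l / (l + 1)) := this.symm
      _ ≤ _ := by gcongr
  · have : l * ((l + 1) / l - 1) = 1 := by field_simp; ring
    calc l * (Real.log (l + 1) - Real.log l) ≤ l * ((l + 1) / l - 1) := by gcongr
      _ = 1 := this

theorem sum_log (l : ℕ) (hl : 1 ≤ l) :
    l * Real.log l - l ≤ ∑ d ∈ Icc 1 l, Real.log d ∧
      ∑ d ∈ Icc 1 l, Real.log d ≤ l * Real.log l - l + Real.log l + 1 := by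
  induction l, hl using Nat.le_induction with
  | base => simp
  | succ n hn ih =>
    have hn' : (0 : ℝ) < n := by exact_mod_cast hn
    obtain ⟨h1, h2⟩ := log_step n hn'
    rw [Finset.sum_Icc_succ_top (by omega)]
    push_cast
    constructor <;> nlinarith [ih.1, ih.2]

theorem SS_succ (l : ℕ) : SS (l + 1) = SS l + ∑ d ∈ Icc 1 l, Real.log d := by
  unfold SS
  rw [Finset.sum_Icc_succ_top (by omega), ← Finset.sum_add_distrib]
  push_cast
  rw [sub_self, zero_mul, add_zero]
  exact Finset.sum_congr rfl fun d _ => by ring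

theorem log_eq (d H : ℕ) (hd : 1 ≤ d) (hH : d ≤ H) :
    Real.log d = ∑ p ∈ (range (H + 1)).filter Nat.Prime,
      (∑ a ∈ Icc 1 (Nat.log p H), if p ^ a ∣ d then (1 : ℝ) else 0) * Real.log p := by
  rw [Real.log_nat_eq_sum_factorization,
    Finsupp.sum_of_support_subset (s := (range (H + 1)).filter Nat.Prime)]
  · refine Finset.sum_congr rfl fun p hp => ?_
    have hp' : p.Prime := (Finset.mem_filter.mp hp).2
    have hlt : d < p ^ (Nat.log p H + 1) :=
      lt_of_le_of_lt hH (Nat.lt_pow_succ_log_self hp'.one_lt H)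
    rw [Nat.factorization_eq_card_pow_dvd_of_lt hp' hd hlt, Finset.sum_boole]
    rfl
  · intro p hp
    rw [Nat.support_factorization] at hp
    have h1 := Nat.le_of_mem_primeFactors hp
    exact Finset.mem_filter.mpr ⟨Finset.mem_range.mpr (by omega), Nat.prime_of_mem_primeFactors hp⟩
  · intro p _
    simp

theorem psi_cast (l q : ℕ) :
    (psi l q : ℝ) = ∑ d ∈ Icc 1 l, ((l : ℝ) - d) * if q ∣ d then (1 : ℝ) else 0 := by
  unfold psi
  rw [Nat.cast_sum, Finset.sum_filter]
  refine Finset.sum_congr rfl fun d hd => ?_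
  have := (Finset.mem_Icc.mp hd).2
  split_ifs
  · rw [Nat.cast_sub this, mul_one]
  · rw [mul_zero]

theorem TH_eq (l : ℕ) : TH l = Chebyshev.theta l := by
  rw [Chebyshev.theta_eq_sum_Icc, Nat.floor_natCast, TH, Nat.range_succ_eq_Icc_zero]

theorem TT_succ (l : ℕ) : TT (l + 1) = TT l + TH l := by
  unfold TT TH
  rw [Finset.sum_filter, Finset.sum_filter, Finset.sum_filter, Finset.sum_range_succ _ (l + 1),
    ← Finset.sum_add_distrib]
  push_cast
  rw [sub_self, zero_mul, ite_self, add_zero]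
  refine Finset.sum_congr rfl fun p _ => ?_
  split_ifs <;> ring

end Super

open Super

theorem super : SuperStmt := by
  intro l hl
  induction l, hl using Nat.le_induction with
  | base =>
    have : (0 : ℝ) ≤ Real.log (1 + 1) := Real.log_nonneg (by norm_num)
    simp only [SS, Finset.Icc_self, Finset.sum_singleton, Nat.cast_one, Real.log_one]
    generalize Real.log (1 + 1) = x at this ⊢
    rw [abs_le]
    constructor <;> norm_num <;> linarith
  | succ n hn ih =>
    have hn1 : (1 : ℝ) ≤ n := by exact_mod_cast hn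
    have hn' : (0 : ℝ) < n := by linarith
    obtain ⟨h1, h2⟩ := log_step n hn'
    obtain ⟨h3, h4⟩ := sum_log n hn
    rw [SS_succ]
    push_cast
    set F := ∑ d ∈ Icc 1 n, Real.log d
    set a := Real.log n with ha
    set b := Real.log (n + 1) with hb
    set c := Real.log (n + 1 + 1) with hc
    have ha0 : 0 ≤ a := Real.log_nonneg hn1
    have hab : a ≤ b := Real.log_le_log hn' (by linarith)
    have hbc : b ≤ c := Real.log_le_log (by linarith) (by linarith)
    have e1 : ((n : ℝ) + 1) ≤ ((n : ℝ) + 1) ^ 2 * (b - a) := by nlinarith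
    have e2 : ((n : ℝ) + 1) ^ 2 * (b - a) ≤ n + 3 := by
      have : b - a ≤ 1 := by nlinarith
      have : ((n : ℝ) + 1) ^ 2 * (b - a) = (n + 2) * (n * (b - a)) + (b - a) := by ring
      nlinarith
    have e3 : (n : ℝ) * b ≤ n * c := by gcongr
    have e4 : ((n : ℝ) + 1) ^ 2 / 2 * b =
        (n : ℝ) ^ 2 / 2 * a + (n * a + a / 2) + ((n : ℝ) + 1) ^ 2 * (b - a) / 2 := by ring
    rw [abs_le] at ih ⊢
    obtain ⟨i1, i2⟩ := ih
    rw [e4]
    constructor <;> nlinarith

theorem fact : FactStmt := by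
  intro l H hl
  unfold SS
  have h1 : ∀ d ∈ Icc 1 l, ((l : ℝ) - d) * Real.log d =
      ∑ p ∈ (range (H + 1)).filter Nat.Prime, (∑ a ∈ Icc 1 (Nat.log p H),
        ((l : ℝ) - d) * if p ^ a ∣ d then (1 : ℝ) else 0) * Real.log p := by
    intro d hd
    obtain ⟨h1, h2⟩ := Finset.mem_Icc.mp hd
    rw [log_eq d H h1 (h2.trans hl), Finset.mul_sum]
    refine Finset.sum_congr rfl fun p _ => ?_
    rw [← Finset.mul_sum, mul_assoc]
  rw [Finset.sum_congr rfl h1, Finset.sum_comm]
  refine Finset.sum_congr rfl fun p _ => ?_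
  rw [← Finset.sum_mul, Finset.sum_comm]
  simp only [psi_cast]

theorem cheb (h : H13.PntStmt) : ChebStmt := by
  intro ε hε
  have h1 : ∀ᶠ l : ℕ in atTop, |TH l - l| ≤ ε * l := by
    have h2 := (h.comp tendsto_natCast_atTop_atTop).eventually
      (Metric.closedBall_mem_nhds (1 : ℝ) hε)
    filter_upwards [h2, eventually_gt_atTop 0] with l hl hl0
    have hl' : (0 : ℝ) < l := by exact_mod_cast hl0
    rw [Real.dist_eq, Function.comp_apply] at hl
    have e : TH l - l = (Chebyshev.theta l / l - 1) * l := by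
      rw [TH_eq]
      field_simp
    rw [e, abs_mul, abs_of_pos hl']
    gcongr
  obtain ⟨N, hN⟩ := eventually_atTop.mp h1
  set K := |TT N - (N : ℝ) * (N - 1) / 2| with hK
  have hK0 : 0 ≤ K := abs_nonneg _
  have h2 : ∀ l : ℕ, N ≤ l → |TT l - (l : ℝ) * (l - 1) / 2| ≤ K + ε * (l : ℝ) ^ 2 / 2 := by
    intro l hl
    induction l, hl using Nat.le_induction with
    | base =>
      have : 0 ≤ ε * (N : ℝ) ^ 2 / 2 := by positivity
      linarith
    | succ n hn ih =>
      have a1 := hN n hn
      rw [TT_succ]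
      push_cast
      rw [abs_le] at ih a1 ⊢
      constructor <;> nlinarith [ih.1, ih.2, a1.1, a1.2]
  have h3 : ∀ᶠ l : ℕ in atTop, (2 * K + 1) / ε ≤ (l : ℝ) :=
    tendsto_natCast_atTop_atTop.eventually_ge_atTop _
  filter_upwards [h1, h3, eventually_ge_atTop N, eventually_ge_atTop 1] with l a1 a2 a3 a4
  refine ⟨a1, ?_⟩
  have b1 := h2 l a3
  have b2 : (1 : ℝ) ≤ l := by exact_mod_cast a4
  rw [div_le_iff₀ hε] at a2
  have b3 : (2 * K + 1) * l ≤ (l : ℝ) * ε * l := by gcongr
  have b4 : K ≤ K * l := le_mul_of_one_le_right hK0 b2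
  rw [abs_le] at b1 ⊢
  constructor <;> nlinarith [b1.1, b1.2]

end Pool.Agent.MP_807c24_nt.D57
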