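import Pool.Agent.MP_807c24_nt.D57.Spec
import Pool.Agent.MP_807c24_nt.H13.Class

/-! Leading p-adic term of a residue class with two points. -/

namespace Pool.Agent.MP_807c24_nt.D57

open Finset PowerSeries
open Pool.Agent.MP_807c24_nt.H13 (pts cf ords Hs zr pn cls fac Gs)
open Pool.Agent.MP_807c24_nt.H13.Class

namespace Two

/-- Coefficients of `(X - 1)^e`. -/
def gb (e : ℤ) (d : ℕ) : ℤ :=
  if 0 ≤ e then (-1) ^ (e.toNat - d) * (e.toNat.choose d : ℤ)
  else (-1) ^ (-e).toNat * (((-e).toNat - 1 + d).choose ((-e).toNat - 1) : ℤ)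

/-- The universal leading coefficient. -/
def gI (m1 m2 : ℤ) : ℤ :=
  ∑ i ∈ Finset.Icc 1 m2.toNat, ((i + 1).choose 2 : ℤ) * gb (-m1) (m2.toNat - i)

theorem coeff_one' (e : ℤ) (d : ℕ) : coeff d (fac (-1) e) = (gb e d : ℚ) := by
  unfold gb fac
  split_ifs with h
  · have h0 : (-e).toNat = 0 := by omega
    have e1 : (C (-1 : ℚ) + X : PowerSeries ℚ) =
        ((Polynomial.X + Polynomial.C (-1 : ℚ) : Polynomial ℚ) : PowerSeries ℚ) := by
      rw [Polynomial.coe_add, Polynomial.coe_X, Polynomial.coe_C, add_comm]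
    rw [h0, pow_zero, mul_one, e1, ← Polynomial.coe_pow, Polynomial.coeff_coe,
      Polynomial.coeff_X_add_C_pow]
    push_cast
    rfl
  · have h0 : e.toNat = 0 := by omega
    obtain ⟨n, hn⟩ : ∃ n : ℕ, (-e).toNat = n + 1 := ⟨(-e).toNat - 1, by omega⟩
    have e1 : (C (-1 : ℚ) + X : PowerSeries ℚ)⁻¹ = C (-1) * PowerSeries.mk 1 := by
      ext d
      rw [inv_lin (by norm_num), coeff_C_mul, coeff_mk, coeff_mk, pow_succ]
      rcases neg_one_pow_eq_or ℚ d with h | h <;> rw [h] <;> norm_num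
    rw [h0, pow_zero, one_mul, e1, hn, mul_pow, mk_one_pow_eq_mk_choose_add, ← map_pow,
      coeff_C_mul, coeff_mk, Nat.add_sub_cancel]
    push_cast
    rfl

theorem fac_scale {c x : ℚ} (hc : c ≠ 0) (hx : x ≠ 0) (e : ℤ) :
    fac (c * x) e = C (c ^ e) * rescale c⁻¹ (fac x e) := by
  have a : (C (c * x) + X : PowerSeries ℚ) = C c * rescale c⁻¹ (C x + X) := by
    ext d
    rw [coeff_C_mul, coeff_rescale]
    rcases d with _ | _ | d <;> simp [coeff_X, hc]
  have b : (C (c * x) + X : PowerSeries ℚ)⁻¹ = C c⁻¹ * rescale c⁻¹ (C x + X)⁻¹ := by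
    ext d
    rw [inv_lin hx, inv_lin (mul_ne_zero hc hx), coeff_C_mul, coeff_rescale, coeff_mk, coeff_mk,
      mul_pow, inv_pow]
    field_simp
    ring
  rw [fac, fac, b, a, ← zpow_split c e]
  simp only [map_mul, map_pow, mul_pow]
  ring

theorem coeff_neg {c : ℚ} (hc : c ≠ 0) (e : ℤ) (d : ℕ) :
    coeff d (fac (-c) e) = c ^ (e - d) * gb e d := by
  rw [show -c = c * (-1) by ring, fac_scale hc (by norm_num), coeff_C_mul, coeff_rescale,
    coeff_one', zpow_sub₀ hc, zpow_natCast, inv_pow]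
  ring

variable {p : ℕ} [hp : Fact p.Prime]

theorem pq_ne : (p : ℚ) ≠ 0 := by exact_mod_cast hp.out.ne_zero

theorem p_inv_le : (p : ℝ)⁻¹ ≤ 1 := inv_le_one_of_one_le₀ one_le_p

theorem Cg.refl' {a : ℚ} (h : pn p a ≤ 1) : Cg p a a :=
  ⟨h, h, by rw [sub_self, pn_zero]; exact inv_nonneg.2 p_pos.le⟩

theorem Cg.add' {a b c d : ℚ} (h : Cg p a b) (h' : Cg p c d) : Cg p (a + c) (b + d) :=
  ⟨pn_add h.1 h'.1, pn_add h.2.1 h'.2.1, by
    rw [show a + c - (b + d) = (a - b) + (c - d) by ring]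
    exact pn_add h.2.2 h'.2.2⟩

theorem Cg.zero' {a : ℚ} (h : pn p a ≤ (p : ℝ)⁻¹) : Cg p a 0 :=
  ⟨h.trans p_inv_le, by rw [pn_zero]; exact zero_le_one, by rwa [sub_zero]⟩

theorem Cg.trans' {a b c : ℚ} (h : Cg p a b) (h' : Cg p b c) : Cg p a c :=
  ⟨h.1, h'.2.1, by
    rw [show a - c = (a - b) + (b - c) by ring]
    exact pn_add h.2.2 h'.2.2⟩

theorem Cg.symm' {a b : ℚ} (h : Cg p a b) : Cg p b a :=
  ⟨h.2.1, h.1, by rw [← neg_sub, pn_neg]; exact h.2.2⟩

theorem Cg.sum' {ι : Type} {s : Finset ι} {f g : ι → ℚ} (h : ∀ i ∈ s, Cg p (f i) (g i)) :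
    Cg p (∑ i ∈ s, f i) (∑ i ∈ s, g i) := by
  classical
  induction s using Finset.induction_on with
  | empty => simpa using Cg.refl' (p := p) (a := 0) (by rw [pn_zero]; exact zero_le_one)
  | insert a s ha ih =>
    rw [sum_insert ha, sum_insert ha]
    exact Cg.add' (h a (mem_insert_self _ _)) (ih fun i hi => h i (mem_insert_of_mem hi))

theorem Cg.det' {ι : Type} [Fintype ι] [DecidableEq ι] {A B : Matrix ι ι ℚ}
    (h : ∀ i j, Cg p (A i j) (B i j)) : Cg p A.det B.det := by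
  rw [Matrix.det_apply', Matrix.det_apply']
  exact Cg.sum' fun σ _ => (Cg.refl' (pn_int _)).mul (Cg.prod fun i _ => h _ _)

/-- The unit of the class at the point `k`. -/
noncomputable def un (p : ℕ) (m : ℤ → ℤ) (h k : ℤ) : ℚ := coeff 0 (Wc p m h k)

theorem un_le (m : ℤ → ℤ) (h k : ℤ) : pn p (un p m h k) ≤ 1 := by
  simpa [un] using bd_Wc (p := p) m h k 0

omit hp in
theorem un_eq (m : ℤ → ℤ) (h k : ℤ) : un p m h k = ((h - 2 * k : ℤ) : ℚ) *
    ∏ k' ∈ (pts h).filter (fun k' => ¬(p : ℤ) ∣ k' - k), ((k' - k : ℤ) : ℚ) ^ (-(m k')) := by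
  rw [un, coeff_zero_eq_constantCoeff_apply, Wc]
  simp only [map_mul, map_prod, const_fac, map_add, constantCoeff_C, constantCoeff_X, mul_zero,
    add_zero]

theorem un_cg (m : ℤ → ℤ) (h : ℤ) {k k₁ : ℤ} (hk : (p : ℤ) ∣ k₁ - k) :
    Cg p (un p m h k₁) (un p m h k) :=
  ⟨un_le _ _ _, un_le _ _ _, by
    have := bd_Wc_sub (p := p) m h hk 0
    rwa [map_sub, coeff_rescale, pow_zero, one_mul, pow_zero, mul_one] at this⟩

theorem un_unit (m : ℤ → ℤ) {h k : ℤ} (hk : ¬(p : ℤ) ∣ h - 2 * k) : pn p (un p m h k) = 1 := by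
  rw [un_eq, pn_mul, pn_unit hk, one_mul, pn_prod]
  refine prod_eq_one fun k' hk' => ?_
  rw [pn_zpow, pn_unit (mem_filter.1 hk').2, one_zpow]

omit hp in
theorem un_refl {m : ℤ → ℤ} {h : ℤ} (hm : ∀ k, m (h - k) = m k)
    (he : ∀ k, h - k = k → Even (m k)) (k : ℤ) :
    un p m h (h - k) = -((-1) ^ (∑ k' ∈ cls h p k, m k') * un p m h k) := by
  have h1 : ∏ l ∈ pts h, (-1 : ℚ) ^ m l = 1 := by
    refine prod_involution (fun l _ => h - l) (fun l _ => ?_) (fun l _ hl e => hl ?_)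
      (fun l hl => ?_) fun l _ => by ring
    · rw [hm, ← mul_zpow]; norm_num
    · exact (he l e).neg_one_zpow
    · simp only [pts, mem_Icc] at hl ⊢; omega
  have h2 : ∏ l ∈ (pts h).filter (fun k' => ¬(p : ℤ) ∣ k' - k), (-1 : ℚ) ^ (-(m l)) =
      (-1) ^ (∑ k' ∈ cls h p k, m k') := by
    rw [← prod_filter_mul_prod_filter_not _ fun k' => (p : ℤ) ∣ k' - k] at h1
    rw [← zsign_sum]
    simp only [zpow_neg, prod_inv_distrib]
    exact (eq_inv_of_mul_eq_one_left h1).symm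
  rw [un_eq, un_eq, ← h2, ← mul_assoc, mul_comm _ ((h - 2 * k : ℤ) : ℚ), mul_assoc,
    ← prod_mul_distrib, ← neg_mul]
  congr 1
  · push_cast; ring
  · refine prod_bij' (fun x _ => h - x) (fun x _ => h - x) (fun x hx => ?_) (fun x hx => ?_)
      (fun x _ => by ring) (fun x _ => by ring) fun x _ => ?_
    · simp only [pts, mem_filter, mem_Icc] at hx ⊢
      refine ⟨by omega, fun a => hx.2 ?_⟩
      rw [show x - (h - k) = -(h - x - k) by ring]
      exact a.neg_right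
    · simp only [pts, mem_filter, mem_Icc] at hx ⊢
      refine ⟨by omega, fun a => hx.2 ?_⟩
      rw [show x - k = -(h - x - (h - k)) by ring]
      exact a.neg_right
    · rw [hm, ← mul_zpow]
      congr 1
      push_cast
      ring

theorem pn_ppow (n : ℤ) : pn p ((p : ℚ) ^ n) = (p : ℝ) ^ (-n) := by
  rw [pn_zpow, pn_p, inv_zpow']

theorem cf_top {m : ℤ → ℤ} {h k : ℤ} (hc : cls h p k = {k, k - p}) (d : ℕ) :
    Cg p ((p : ℚ) ^ (m (k - p) + d) * coeff d (Gs m h k)) (un p m h k * gb (-(m (k - p))) d) := by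
  have hp0 : (0 : ℤ) < p := by exact_mod_cast hp.out.pos
  have e : Ac p m h k = fac (-(p : ℚ)) (-(m (k - p))) := by
    rw [Ac, hc, erase_insert (by simp; omega), prod_singleton]
    congr 1
    push_cast
    ring
  rw [Gs_eq (p := p), e, coeff_mul, mul_sum,
    ← add_sum_erase _ _ (show (d, 0) ∈ antidiagonal d by simp)]
  have t : ∀ x ∈ antidiagonal d, (p : ℚ) ^ (m (k - p) + d) *
      (coeff x.1 (fac (-(p : ℚ)) (-(m (k - p)))) * coeff x.2 (Wc p m h k)) =
      (p : ℚ) ^ (x.2 : ℤ) * (gb (-(m (k - p))) x.1 * coeff x.2 (Wc p m h k)) := by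
    intro x hx
    rw [coeff_neg pq_ne, ← mul_assoc, ← mul_assoc, ← zpow_add₀ pq_ne, ← mem_antidiagonal.1 hx,
      mul_assoc]
    congr 2
    push_cast
    ring
  rw [t _ (by simp), ← add_zero (un p m h k * _)]
  refine Cg.add' ?_ (Cg.zero' (pn_sum (inv_nonneg.2 p_pos.le) fun x hx => ?_))
  · simp only [Nat.cast_zero, zpow_zero, one_mul]
    rw [mul_comm]
    exact Cg.refl' ((pn_mul_le (un_le (p := p) m h k)
      (pn_int (p := p) (gb (-(m (k - p))) d))).trans_eq (one_mul _))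
  · obtain ⟨h1, h2⟩ := mem_erase.1 hx
    have h3 : 1 ≤ x.2 := by
      have := mem_antidiagonal.1 h2
      by_contra g
      exact h1 (Prod.ext (by simp only; omega) (by simp only; omega))
    rw [t x h2, pn_mul, pn_ppow]
    have h4 : pn p ((gb (-(m (k - p))) x.1 : ℚ) * coeff x.2 (Wc p m h k)) ≤ 1 := by
      have h5 := bd_Wc (p := p) m h k x.2
      rw [one_pow, one_mul] at h5
      exact (pn_mul_le (pn_int (p := p) (gb (-(m (k - p))) x.1)) h5).trans_eq (one_mul _)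
    refine (mul_le_of_le_one_right (zpow_pos p_pos _).le h4).trans ?_
    rw [← zpow_neg_one]
    exact zpow_le_zpow_right₀ one_le_p (by omega)

/-- The terms with `p` in the harmonic sum. -/
noncomputable def tp (p : ℕ) (m : ℤ → ℤ) (h k : ℤ) : ℚ :=
  ∑ i ∈ ords m k, cf m h k i * ((i + 1).choose 2 : ℚ) * (1 / (p : ℚ) ^ (i + 2))

theorem tp_top {m : ℤ → ℤ} {h k : ℤ} (hc : cls h p k = {k, k - p}) :
    Cg p ((p : ℚ) ^ (m (k - p) + m k + 2) * tp p m h k) (un p m h k * gI (m (k - p)) (m k)) := by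
  rw [tp, gI, mul_sum, Int.cast_sum, mul_sum]
  refine Cg.sum' fun i hi => ?_
  have := (cf_top (m := m) hc ((m k).toNat - i)).mul
    (Cg.refl' (pn_nat (p := p) ((i + 1).choose 2)))
  rw [(ord_cast hi).2] at this
  convert this using 1
  · have e : (p : ℚ) ^ (m (k - p) + m k + 2) =
        (p : ℚ) ^ (m (k - p) + (m k - i)) * (p : ℚ) ^ (i + 2) := by
      rw [← zpow_natCast, ← zpow_add₀ pq_ne]
      congr 1
      push_cast
      ring
    have := pq_ne (p := p)
    rw [e, cf]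
    field_simp
  · push_cast
    ring

theorem tp_le {m : ℤ → ℤ} {h k : ℤ} (hc : cls h p k = {k, k - p}) :
    pn p (tp p m h k) ≤ (p : ℝ) ^ (m (k - p) + m k + 2) := by
  have := (tp_top (m := m) hc).1
  rw [pn_mul, pn_ppow, zpow_neg, inv_mul_le_iff₀ (zpow_pos p_pos _), mul_one] at this
  exact this

theorem hs_p {s : ℕ} {N : ℤ} (h1 : (p : ℤ) ≤ N) (h2 : N < 2 * p) :
    pn p (Hs s N - 1 / (p : ℚ) ^ s) ≤ 1 := by
  have hp0 : (0 : ℤ) < p := by exact_mod_cast hp.out.pos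
  rw [Hs, ← add_sum_erase _ _ (show (p : ℤ) ∈ Finset.Icc 1 N from mem_Icc.2 ⟨hp0, h1⟩),
    Int.cast_natCast, add_sub_cancel_left]
  refine pn_sum zero_le_one fun l hl => ?_
  obtain ⟨a, b⟩ := mem_erase.1 hl
  rw [mem_Icc] at b
  rw [one_div, pn_inv, pn_pow, pn_unit]
  · simp
  · rintro ⟨t, rfl⟩
    have t1 : 0 < t := by nlinarith [b.1]
    have t2 : t < 2 := by nlinarith [b.2]
    exact a (by rw [show t = 1 by omega, mul_one])

end Two

end Pool.Agent.MP_807c24_nt.D57
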